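import Pool.Agent.H556R4.Slab

/-!
# The area law estimate: assembling the layers
-/

namespace Pool.Agent.H556R4.Area

open MeasureTheory Function Dob Pair Layer Slab

set_option linter.unusedSectionVars false
set_option linter.unusedVariables false

section comb

variable {X E : Type} [Fintype X] [DecidableEq X] [Fintype E] {src tgt : E → X}

lemma rowsum {ρ1 : ℝ} (h1 : 0 ≤ ρ1) {Δ : ℕ} (hΔ : ∀ x, deg src tgt x ≤ Δ) (x : X) :
    ∑ y ∈ Finset.univ.erase x, (nE src tgt x y : ℝ) * ρ1 ≤ Δ * ρ1 := by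
  rw [← Finset.sum_mul]
  refine mul_le_mul_of_nonneg_right ?_ h1
  have := (sum_nE_le src tgt x).trans (hΔ x)
  exact_mod_cast this

lemma rowsum_pow {ρ1 : ℝ} (h1 : 0 ≤ ρ1) {Δ : ℕ} (hΔ : ∀ x, deg src tgt x ≤ Δ)
    (hρ : Δ * ρ1 < 1) {r : X → ℕ} (hr : ∀ e, r (src e) ≤ r (tgt e) + 1 ∧ r (tgt e) ≤ r (src e) + 1)
    (x : X) :
    ∑ y ∈ Finset.univ.erase x, (nE src tgt x y : ℝ) * ρ1 * (Δ * ρ1) ^ r y ≤ (Δ * ρ1) ^ r x := by
  set ρ : ℝ := Δ * ρ1 with hρd
  have hρ0 : 0 ≤ ρ := by positivity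
  have h2 : ∀ y ∈ Finset.univ.erase x, (nE src tgt x y : ℝ) * ρ1 * ρ ^ r y
      ≤ (nE src tgt x y : ℝ) * ρ1 * ρ ^ (r x - 1) := by
    intro y _
    by_cases h0 : nE src tgt x y = 0
    · simp [h0]
    · refine mul_le_mul_of_nonneg_left ?_ (by positivity)
      refine pow_le_pow_of_le_one hρ0 hρ.le ?_
      obtain ⟨e, he⟩ := Finset.card_ne_zero.1 h0
      simp only [Finset.mem_filter, Finset.mem_univ, true_and, Joins] at he
      have := hr e
      rcases he with ⟨h3, h4⟩ | ⟨h3, h4⟩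
      · rw [h3, h4] at this; omega
      · rw [h3, h4] at this; omega
  refine (Finset.sum_le_sum h2).trans ?_
  rw [← Finset.sum_mul]
  calc _ ≤ ρ * ρ ^ (r x - 1) := mul_le_mul_of_nonneg_right (rowsum h1 hΔ x) (by positivity)
    _ = ρ ^ (r x - 1 + 1) := by rw [pow_succ]; ring
    _ ≤ ρ ^ r x := pow_le_pow_of_le_one hρ0 hρ.le (by omega)

end comb

variable {G : Type} [Group G] [MeasurableSpace G] [MeasurableMul₂ G] [MeasurableInv G]
  (μ : Measure G) [IsProbabilityMeasure μ] [μ.IsMulLeftInvariant]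
variable {X E : Type} [Fintype X] [DecidableEq X] [Fintype E] {src tgt : E → X}
variable {𝒜 : Type} [NormedRing 𝒜] [NormedAlgebra ℂ 𝒜] [CompleteSpace 𝒜]

lemma central_cancel {G : Type} [Group G] {z : G} (hz : ∀ g, z * g = g * z) (a b c : G) :
    z * a * b * (z * c)⁻¹ = a * b * c⁻¹ := by
  have h1 : z * a * b = a * b * z := by rw [mul_assoc z a b, hz]
  rw [h1, mul_inv_rev, mul_assoc (a * b) z, ← mul_assoc z c⁻¹, hz c⁻¹, mul_assoc c⁻¹ z,
    mul_inv_cancel, mul_one]

/-- the weight of one layer with background `A`, `B` -/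
noncomputable def lay (src tgt : E → X) (w : E → G → ℝ) (A B : E → G) : (X → G) → ℝ :=
  pairW src tgt fun e g k => w e (g * A e * k⁻¹ * (B e)⁻¹)

section
variable {w : E → G → ℝ} {a b : ℝ} (hw : ∀ e, Measurable (w e)) (ha : 0 < a)
  (hlo : ∀ e g, a ≤ w e g) (hup : ∀ e g, w e g ≤ b)
include hw ha hlo hup

lemma lay_meas (A B : E → G) (e : E) :
    Measurable fun p : G × G => w e (p.1 * A e * p.2⁻¹ * (B e)⁻¹) := by
  refine (hw e).comp ?_
  exact ((measurable_fst.mul_const _).mul measurable_snd.inv).mul_const _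

lemma lay_dens (A B : E → G) : Dens (lay src tgt w A B) :=
  pairW_dens (lay_meas hw ha hlo hup A B) ha (fun e g k => hlo _ _) fun e g k => hup _ _

/-- the bound for one layer, with the discrete cost -/
theorem lay_op (hab : a ≤ b) {Δ : ℕ} (hΔ : ∀ x, deg src tgt x ≤ Δ)
    (hρ : Δ * ((b - a) / (b + a)) < 1) {r : X → ℕ}
    (hr : ∀ e, r (src e) ≤ r (tgt e) + 1 ∧ r (tgt e) ≤ r (src e) + 1) {y0 : X} (hr0 : r y0 = 0)
    {z : G} (hz : ∀ g, z * g = g * z) {π : G →* 𝒜} (hπm : StronglyMeasurable π)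
    (hπ1 : ∀ g, ‖π g‖ ≤ 1) {ζ : ℂ} (hζ : π z = ζ • 1) (hζ1 : ζ ≠ 1) (x : X) (A B : E → G)
    (M : 𝒜) :
    ‖∫ v, lay src tgt w A B v • (π (v x) * M * π (v y0)⁻¹) ∂(Pm μ : Measure (X → G))‖
      ≤ (2 / ‖ζ - 1‖ * (Δ * ((b - a) / (b + a))) ^ r x) * ‖M‖
        * ∫ v, lay src tgt w A B v ∂(Pm μ : Measure (X → G)) := by
  have hb : 0 < b := ha.trans_le hab
  have h1 : 0 ≤ (b - a) / (b + a) := div_nonneg (by linarith) (by linarith)
  have hzv : ∀ v : X → G, lay src tgt w A B (fun i => z * v i) = lay src tgt w A B v := by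
    intro v
    unfold lay pairW
    refine Finset.prod_congr rfl fun e _ => ?_
    dsimp only
    rw [central_cancel hz]
  have hπz : ∀ g, π (z * g) = ζ • π g := fun g => by rw [map_mul, hζ, smul_mul_assoc, one_mul]
  have hζ0 : 0 < ‖ζ - 1‖ := norm_pos_iff.2 (sub_ne_zero.2 hζ1)
  refine layer_op μ (lay_dens hw ha hlo hup A B) (π := π) (π' := fun g => π g⁻¹) hπm
    (hπm.comp_measurable measurable_inv) hπ1 (fun g => hπ1 _) (fun g => ?_) M
  have hd : Cost (disc : G → G → ℝ) 1 := disc_cost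
  have := cvec_bound μ (lay_dens hw ha hlo hup A B) hzv zero_le_one hd
    (C := fun x y => nE src tgt x y * ((b - a) / (b + a)))
    (fun x y hxy => pair_infl μ (lay_meas hw ha hlo hup A B) ha (fun e g k => hlo _ _)
      (fun e g k => hup _ _) hxy)
    (fun x y => by positivity) (ρ := Δ * ((b - a) / (b + a))) (by positivity) hρ hr0
    (rowsum_pow h1 hΔ hρ hr) (rowsum h1 hΔ) hπm hπ1 hπz (L := 2) (by norm_num)
    (fun g g' => by
      by_cases h : g = g'
      · simp [h, disc]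
      · simp only [disc, h, if_false, mul_one]
        refine (norm_sub_le _ _).trans ?_
        linarith [hπ1 g, hπ1 g']) x g
  rw [mul_one] at this
  rw [div_mul_eq_mul_div, le_div_iff₀ hζ0, mul_comm]
  exact this

end

/-- plaquette variable over the edge `e` between the layers `t` and `t + 1` -/
def plaq {T : ℕ} (src tgt : E → X) (V : Fin T → X → G) (U : Fin (T + 1) → E → G) (t : Fin T)
    (e : E) : G :=
  V t (src e) * U t.succ e * (V t (tgt e))⁻¹ * (U t.castSucc e)⁻¹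

/-- the loop variable: up over `x`, through `p`, down over `y`, through `q` -/
def loop {T : ℕ} (V : Fin T → X → G) (x y : X) (p q : G) : G :=
  (List.ofFn fun t => V t x).prod * p * ((List.ofFn fun t => V t y).prod)⁻¹ * q

/-- assembling: a bound for every layer gives a bound for the loop expectation -/
theorem area {T : ℕ} {Ω : Type} [MeasurableSpace Ω] (ν : Measure Ω) [IsFiniteMeasure ν]
    {U : Ω → Fin (T + 1) → E → G} (hU : ∀ t e, Measurable fun ω => U ω t e)
    {F : Ω → ℝ} (hF : Measurable F) (hF0 : ∀ ω, 0 ≤ F ω) {cF : ℝ} (hFb : ∀ ω, F ω ≤ cF)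
    {w : Fin T → E → G → ℝ} {a b : ℝ} (hw : ∀ t e, Measurable (w t e)) (ha : 0 < a)
    (hlo : ∀ t e g, a ≤ w t e g) (hup : ∀ t e g, w t e g ≤ b)
    {π : G →* 𝒜} (hπm : StronglyMeasurable π) (hπ1 : ∀ g, ‖π g‖ ≤ 1) (τ : 𝒜 →L[ℂ] ℂ) {N : ℝ} (hN : 0 ≤ N)
    (hτ : ∀ M, ‖τ M‖ ≤ N * ‖M‖) {κ : ℝ} (hκ : 0 ≤ κ) (x y : X) {p q : Ω → G} (hp : Measurable p)
    (hq : Measurable q)
    (hlay : ∀ ω t M, ‖∫ v, lay src tgt (w t) (U ω t.succ) (U ω t.castSucc) v •
        (π (v x) * M * π (v y)⁻¹) ∂(Pm μ : Measure (X → G))‖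
      ≤ κ * ‖M‖ * ∫ v, lay src tgt (w t) (U ω t.succ) (U ω t.castSucc) v
        ∂(Pm μ : Measure (X → G))) :
    ‖∫ c, ((F c.2 * ∏ t, ∏ e, w t e (plaq src tgt c.1 (U c.2) t e) : ℝ) : ℂ)
        * τ (π (loop c.1 x y (p c.2) (q c.2)))
        ∂((Measure.pi fun _ : Fin T => (Pm μ : Measure (X → G))).prod ν)‖
      ≤ N * κ ^ T * ∫ c, F c.2 * ∏ t, ∏ e, w t e (plaq src tgt c.1 (U c.2) t e)
        ∂((Measure.pi fun _ : Fin T => (Pm μ : Measure (X → G))).prod ν) := by
  have hne : Nonempty G := nonempty_G μ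
  obtain ⟨g0⟩ := hne
  -- measurability
  have m1 : ∀ x : X, Measurable fun V : Fin T → X → G => (List.ofFn fun t => V t x).prod :=
    fun x => measurable_ofFn_prod (fun t (V : Fin T → X → G) => V t x) fun t =>
      (measurable_pi_apply x).comp (measurable_pi_apply t)
  have mplaq : ∀ t e, Measurable fun c : (Fin T → X → G) × Ω => plaq src tgt c.1 (U c.2) t e := by
    intro t e
    have a1 : ∀ x : X, Measurable fun c : (Fin T → X → G) × Ω => c.1 t x := fun x =>
      (measurable_pi_apply x).comp ((measurable_pi_apply t).comp measurable_fst)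
    exact (((a1 _).mul ((hU _ _).comp measurable_snd)).mul (a1 _).inv).mul
      ((hU _ _).comp measurable_snd).inv
  have mW : Measurable fun c : (Fin T → X → G) × Ω =>
      F c.2 * ∏ t, ∏ e, w t e (plaq src tgt c.1 (U c.2) t e) := by
    refine (hF.comp measurable_snd).mul ?_
    refine Finset.measurable_prod _ fun t _ => Finset.measurable_prod _ fun e _ => ?_
    exact (hw t e).comp (mplaq t e)
  have mloop : Measurable fun c : (Fin T → X → G) × Ω => loop c.1 x y (p c.2) (q c.2) := by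
    unfold loop
    exact ((((m1 x).comp measurable_fst).mul (hp.comp measurable_snd)).mul
      ((m1 y).comp measurable_fst).inv).mul (hq.comp measurable_snd)
  -- bounds
  have hWpos : ∀ t e g, 0 < w t e g := fun t e g => ha.trans_le (hlo t e g)
  have bW : ∀ c : (Fin T → X → G) × Ω,
      |F c.2 * ∏ t, ∏ e, w t e (plaq src tgt c.1 (U c.2) t e)| ≤ cF * ∏ _t : Fin T, ∏ _e : E, b := by
    intro c
    have h1 : 0 ≤ ∏ t, ∏ e, w t e (plaq src tgt c.1 (U c.2) t e) :=
      Finset.prod_nonneg fun t _ => Finset.prod_nonneg fun e _ => (hWpos _ _ _).le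
    rw [abs_of_nonneg (mul_nonneg (hF0 _) h1)]
    refine mul_le_mul (hFb _) ?_ h1 ((hF0 c.2).trans (hFb _))
    exact Finset.prod_le_prod (fun t _ => Finset.prod_nonneg fun e _ => (hWpos _ _ _).le)
      fun t _ => Finset.prod_le_prod (fun e _ => (hWpos _ _ _).le) fun e _ => hup _ _ _
  have iW : Integrable (fun c : (Fin T → X → G) × Ω =>
      F c.2 * ∏ t, ∏ e, w t e (plaq src tgt c.1 (U c.2) t e))
      ((Measure.pi fun _ : Fin T => (Pm μ : Measure (X → G))).prod ν) :=
    Integrable.of_bound mW.aestronglyMeasurable _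
      (Filter.Eventually.of_forall fun c => by rw [Real.norm_eq_abs]; exact bW c)
  have iΦ : Integrable (fun c : (Fin T → X → G) × Ω =>
      ((F c.2 * ∏ t, ∏ e, w t e (plaq src tgt c.1 (U c.2) t e) : ℝ) : ℂ)
        * τ (π (loop c.1 x y (p c.2) (q c.2))))
      ((Measure.pi fun _ : Fin T => (Pm μ : Measure (X → G))).prod ν) := by
    refine Integrable.of_bound (C := (cF * ∏ _t : Fin T, ∏ _e : E, b) * (‖τ‖ * 1)) ?_
      (Filter.Eventually.of_forall fun c => ?_)
    · refine ((Complex.measurable_ofReal.comp mW).stronglyMeasurable.mul ?_).aestronglyMeasurable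
      exact τ.continuous.comp_stronglyMeasurable (hπm.comp_measurable mloop)
    · rw [norm_mul, Complex.norm_real, Real.norm_eq_abs]
      refine mul_le_mul (bW c) ?_ (norm_nonneg _) ((abs_nonneg _).trans (bW c))
      exact (τ.le_opNorm _).trans (mul_le_mul_of_nonneg_left (hπ1 _) (norm_nonneg _))
  rw [integral_prod_symm _ iΦ, integral_prod_symm _ iW, ← integral_const_mul]
  refine norm_integral_le_of_norm_le ((iW.integral_prod_right).const_mul _)
    (Filter.Eventually.of_forall fun ω => ?_)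
  -- the inner integral
  set h : Fin T → (X → G) → ℝ := fun t => lay src tgt (w t) (U ω t.succ) (U ω t.castSucc) with hh
  have hD : ∀ t, Dens (h t) := fun t => lay_dens (hw t) ha (hlo t) (hup t) _ _
  have hprod : ∀ V : Fin T → X → G, ∏ t, ∏ e, w t e (plaq src tgt V (U ω) t e) = ∏ t, h t (V t) := by
    intro V
    rfl
  have hsm := integrand_sm hD hπm x y (π (p ω))
  obtain ⟨c', hc'⟩ := integrand_bdd hD hπ1 x y (π (p ω))
  have hint : Integrable (integrand h π x y (π (p ω)))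
      (Measure.pi fun _ : Fin T => (Pm μ : Measure (X → G))) :=
    Integrable.of_bound hsm.aestronglyMeasurable c' (Filter.Eventually.of_forall hc')
  have e1 : ∫ V, ((F ω * ∏ t, ∏ e, w t e (plaq src tgt V (U ω) t e) : ℝ) : ℂ)
        * τ (π (loop V x y (p ω) (q ω))) ∂(Measure.pi fun _ : Fin T => (Pm μ : Measure (X → G)))
      = (F ω : ℂ) * τ ((∫ V, integrand h π x y (π (p ω)) V
          ∂(Measure.pi fun _ : Fin T => (Pm μ : Measure (X → G)))) * π (q ω)) := by
    have e2 := ((((F ω : ℂ) • τ).restrictScalars ℝ).comp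
      ((ContinuousLinearMap.mul ℝ 𝒜).flip (π (q ω)))).integral_comp_comm hint
    simp only [ContinuousLinearMap.comp_apply, ContinuousLinearMap.flip_apply,
      ContinuousLinearMap.mul_apply', ContinuousLinearMap.coe_restrictScalars',
      ContinuousLinearMap.smul_apply, smul_eq_mul] at e2
    rw [← e2]
    refine integral_congr_ae (Filter.Eventually.of_forall fun V => ?_)
    simp only [hprod, integrand, loop, map_mul]
    rw [smul_mul_assoc, show τ ((∏ t, h t (V t)) • (π (List.ofFn fun t => V t x).prod * π (p ω)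
      * π ((List.ofFn fun t => V t y).prod)⁻¹ * π (q ω)))
      = ((∏ t, h t (V t) : ℝ) : ℂ) * τ (π (List.ofFn fun t => V t x).prod * π (p ω)
      * π ((List.ofFn fun t => V t y).prod)⁻¹ * π (q ω)) by
        rw [← Complex.coe_smul, map_smul, smul_eq_mul]]
    push_cast
    ring
  have e3 : ∫ V, F ω * ∏ t, ∏ e, w t e (plaq src tgt V (U ω) t e)
        ∂(Measure.pi fun _ : Fin T => (Pm μ : Measure (X → G)))
      = F ω * ∏ t, ∫ v, h t v ∂(Pm μ : Measure (X → G)) := by
    rw [integral_const_mul]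
    congr 1
    simp only [hprod]
    exact integral_fintype_prod_eq_prod (fun t => h t)
  have hs := slab μ hπm hπ1 hκ x y (π (p ω)) T h hD (fun t B => hlay ω t B)
  simp only
  rw [e1, e3, norm_mul, Complex.norm_real, Real.norm_eq_abs, abs_of_nonneg (hF0 ω)]
  set M := ∫ V, integrand h π x y (π (p ω)) V
    ∂(Measure.pi fun _ : Fin T => (Pm μ : Measure (X → G))) with hM
  have hPn : 0 ≤ ∏ t, ∫ v, h t v ∂(Pm μ : Measure (X → G)) :=
    Finset.prod_nonneg fun t _ => integral_nonneg fun v => ((hD t).pos v).le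
  have hM1 : ‖M * π (q ω)‖ ≤ κ ^ T * ∏ t, ∫ v, h t v ∂(Pm μ : Measure (X → G)) := by
    refine (norm_mul_le _ _).trans ?_
    calc ‖M‖ * ‖π (q ω)‖ ≤ ‖M‖ := mul_le_of_le_one_right (norm_nonneg _) (hπ1 _)
      _ ≤ κ ^ T * ‖π (p ω)‖ * ∏ t, ∫ v, h t v ∂(Pm μ : Measure (X → G)) := hs
      _ ≤ κ ^ T * ∏ t, ∫ v, h t v ∂(Pm μ : Measure (X → G)) := by
        refine mul_le_mul_of_nonneg_right ?_ hPn
        exact mul_le_of_le_one_right (pow_nonneg hκ T) (hπ1 _)
  calc F ω * ‖τ (M * π (q ω))‖ ≤ F ω * (N * ‖M * π (q ω)‖) :=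
        mul_le_mul_of_nonneg_left (hτ _) (hF0 ω)
    _ ≤ F ω * (N * (κ ^ T * ∏ t, ∫ v, h t v ∂(Pm μ : Measure (X → G)))) :=
        mul_le_mul_of_nonneg_left (mul_le_mul_of_nonneg_left hM1 hN) (hF0 ω)
    _ = _ := by ring

end Pool.Agent.H556R4.Area
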