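import Pool.Agent.H556R4.SU2d

/-!
# The transport estimate for one spin
-/

namespace Pool.Agent.H556R4.SU2

open MeasureTheory Quaternion Dob

set_option linter.unusedSectionVars false

variable [MeasurableSpace S3] [BorelSpace S3] (μ : Measure S3) [IsProbabilityMeasure μ]
  [μ.IsMulLeftInvariant] [μ.IsMulRightInvariant] [μ.IsInvInvariant]

lemma exists_rot (h : ℍ[ℝ]) : ∃ u : S3, star (u : ℍ[ℝ]) * h = ((‖h‖ : ℝ) : ℍ[ℝ]) := by
  by_cases h0 : h = 0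
  · exact ⟨1, by subst h0; simp⟩
  · have hn : ‖h‖ ≠ 0 := norm_ne_zero_iff.2 h0
    refine ⟨⟨(‖h‖⁻¹ : ℝ) • h, by
      rw [mem_sphere_zero_iff_norm, norm_smul, norm_inv, norm_norm, inv_mul_cancel₀ hn]⟩, ?_⟩
    simp only
    rw [Quaternion.star_smul, smul_mul_assoc, Quaternion.star_mul_self, normSq_eq_norm_mul_self,
      ← Quaternion.coe_smul, smul_eq_mul, ← mul_assoc, inv_mul_cancel₀ hn, one_mul]

lemma inner_left (u s : S3) (x : ℍ[ℝ]) :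
    inner ℝ x ((u * s : S3) : ℍ[ℝ]) = inner ℝ (star (u : ℍ[ℝ]) * x) (s : ℍ[ℝ]) := by
  rw [Metric.unitSphere.coe_mul, inner_mul_left]

lemma Zs_rot (u : S3) (h : ℍ[ℝ]) : Zs μ h = Zs μ (star (u : ℍ[ℝ]) * h) := by
  unfold Zs
  rw [← integral_mul_left_eq_self _ u]
  simp only [inner_left]

lemma left2 {F : S3 × S3 → ℝ} (hF : BM F) (u : S3) :
    ∫ p, F p ∂(μ.prod μ) = ∫ p : S3 × S3, F (u * p.1, u * p.2) ∂(μ.prod μ) := by
  have m : Measurable fun p : S3 × S3 => (u * p.1, u * p.2) :=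
    (measurable_fst.const_mul u).prodMk (measurable_snd.const_mul u)
  rw [integral_prod _ (hF.integrable _), integral_prod _ ((hF.comp m).integrable _)]
  rw [← integral_mul_left_eq_self (fun s => ∫ s', F (s, s') ∂μ) u]
  refine integral_congr_ae (Filter.Eventually.of_forall fun s => ?_)
  exact (integral_mul_left_eq_self (fun s' => F (u * s, s')) u).symm

/-- variance bound -/
lemma var (h δ : ℍ[ℝ]) :
    ∫ p : S3 × S3, (inner ℝ δ ((p.1 : ℍ[ℝ]) - (p.2 : ℍ[ℝ]))) ^ 2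
        * Real.exp (inner ℝ h (p.1 : ℍ[ℝ]) + inner ℝ h (p.2 : ℍ[ℝ])) ∂(μ.prod μ)
      ≤ 1 / 2 * ‖δ‖ ^ 2 * (Zs μ h) ^ 2 := by
  obtain ⟨u, hu⟩ := exists_rot h
  have h1 := var_real μ ‖h‖ (star (u : ℍ[ℝ]) * δ)
  rw [norm_mul, norm_star, norm_coe', one_mul, ← hu, ← Zs_rot μ u h] at h1
  refine le_trans (le_of_eq ?_) h1
  have cW : Continuous fun p : S3 × S3 => (inner ℝ δ ((p.1 : ℍ[ℝ]) - (p.2 : ℍ[ℝ]))) ^ 2
      * Real.exp (inner ℝ h (p.1 : ℍ[ℝ]) + inner ℝ h (p.2 : ℍ[ℝ])) := by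
    have c1 : Continuous fun p : S3 × S3 => inner ℝ δ ((p.1 : ℍ[ℝ]) - (p.2 : ℍ[ℝ])) :=
      continuous_const.inner ((continuous_subtype_val.comp continuous_fst).sub
        (continuous_subtype_val.comp continuous_snd))
    exact (c1.pow 2).mul (Real.continuous_exp.comp (((cont_inner h).comp continuous_fst).add
      ((cont_inner h).comp continuous_snd)))
  rw [left2 μ (BM.of_cont cW) u]
  refine integral_congr_ae (Filter.Eventually.of_forall fun p => ?_)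
  simp only [inner_sub_right, inner_left]

lemma norm_im_le (x : ℍ[ℝ]) : ‖x.im‖ ≤ ‖x‖ := by
  have h1 : ‖x.im‖ ^ 2 ≤ ‖x‖ ^ 2 := by
    rw [sq, sq, ← normSq_eq_norm_mul_self, ← normSq_eq_norm_mul_self, normSq_def', normSq_def']
    simp
    positivity
  exact (abs_le_of_sq_le_sq' h1 (norm_nonneg _)).2

lemma J_nonneg (c : ℝ) : 0 ≤ J μ rt c :=
  integral_nonneg fun g => mul_nonneg (by linarith [re_sq_le (rt g)]) (Real.exp_pos _).le

lemma bm_J (h : ℍ[ℝ]) : BM fun σ : S3 => J μ rt (inner ℝ h (σ : ℍ[ℝ])) := by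
  have mrt : Measurable fun p : S3 × S3 => (p.1, rt p.2) :=
    measurable_fst.prodMk (measurable_rt.comp measurable_snd)
  have c1 : Continuous fun p : S3 × S3 => (1 - (p.2 : ℍ[ℝ]).re ^ 2)
      * Real.exp (2 * (inner ℝ h (p.1 : ℍ[ℝ])) * (p.2 : ℍ[ℝ]).re) := by
    have d1 : Continuous fun p : S3 × S3 => inner ℝ h (p.1 : ℍ[ℝ]) :=
      (cont_inner h).comp continuous_fst
    have d2 : Continuous fun p : S3 × S3 => (p.2 : ℍ[ℝ]).re := cont_re.comp continuous_snd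
    fun_prop
  have b1 : BM fun p : S3 × S3 => (1 - ((rt p.2 : S3) : ℍ[ℝ]).re ^ 2)
      * Real.exp (2 * (inner ℝ h (p.1 : ℍ[ℝ])) * ((rt p.2 : S3) : ℍ[ℝ]).re) :=
    (BM.of_cont c1).comp mrt
  exact BM.int μ b1

lemma cont_gam (δ : ℍ[ℝ]) : Continuous fun σ : S3 => ‖(star (σ : ℍ[ℝ]) * δ).im‖ :=
  (continuous_im.comp ((continuous_star.comp continuous_subtype_val).mul continuous_const)).norm

/-- the averaged first moment of the transverse part -/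
lemma A3 (h δ : ℍ[ℝ]) :
    ∫ σ : S3, ‖(star (σ : ℍ[ℝ]) * δ).im‖ * J μ rt (inner ℝ h (σ : ℍ[ℝ])) ∂μ
      ≤ Real.sqrt 3 / 4 * ‖δ‖ * (Zs μ h) ^ 2 := by
  by_cases h0 : δ = 0
  · subst h0; simp
  have hu : 0 < ‖δ‖ := norm_pos_iff.2 h0
  have h3 : 0 < Real.sqrt 3 := Real.sqrt_pos.2 (by norm_num)
  have h33 : Real.sqrt 3 * Real.sqrt 3 = 3 := Real.mul_self_sqrt (by norm_num)
  set t : ℝ := 2 / (Real.sqrt 3 * ‖δ‖) with ht
  have ht0 : 0 < t := by positivity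
  have b1 : BM fun σ : S3 => ‖(star (σ : ℍ[ℝ]) * δ).im‖ * J μ rt (inner ℝ h (σ : ℍ[ℝ])) :=
    (BM.of_continuous (cont_gam δ)).mul (bm_J μ h)
  have b2 : BM fun σ : S3 => ‖(star (σ : ℍ[ℝ]) * δ).im‖ ^ 2 * J μ rt (inner ℝ h (σ : ℍ[ℝ])) :=
    (BM.of_continuous ((cont_gam δ).pow 2)).mul (bm_J μ h)
  have i2 : Integrable (fun σ : S3 => t / 2 * (‖(star (σ : ℍ[ℝ]) * δ).im‖ ^ 2
      * J μ rt (inner ℝ h (σ : ℍ[ℝ])))) μ := (b2.integrable μ).const_mul _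
  have i3 : Integrable (fun σ : S3 => 1 / (2 * t) * J μ rt (inner ℝ h (σ : ℍ[ℝ]))) μ :=
    ((bm_J μ h).integrable μ).const_mul _
  have h1 : ∫ σ : S3, ‖(star (σ : ℍ[ℝ]) * δ).im‖ * J μ rt (inner ℝ h (σ : ℍ[ℝ])) ∂μ
      ≤ ∫ σ : S3, (t / 2 * (‖(star (σ : ℍ[ℝ]) * δ).im‖ ^ 2 * J μ rt (inner ℝ h (σ : ℍ[ℝ])))
        + 1 / (2 * t) * J μ rt (inner ℝ h (σ : ℍ[ℝ]))) ∂μ := by
    refine integral_mono (b1.integrable μ) (i2.add i3) fun σ => ?_
    simp only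
    have hJ := J_nonneg μ (inner ℝ h (σ : ℍ[ℝ]))
    generalize ‖(star (σ : ℍ[ℝ]) * δ).im‖ = x
    have hx : x ≤ t / 2 * x ^ 2 + 1 / (2 * t) := by
      have h2 : t / 2 * x ^ 2 + 1 / (2 * t) - x = (t * x - 1) ^ 2 / (2 * t) := by
        field_simp
        ring
      have h3 : 0 ≤ (t * x - 1) ^ 2 / (2 * t) := by positivity
      linarith
    nlinarith
  rw [integral_add i2 i3, integral_const_mul, integral_const_mul, A2] at h1
  have h4 := var μ h δ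
  have h5 := A1 μ h
  have h6 : 1 / (2 * t) = Real.sqrt 3 * ‖δ‖ / 4 := by rw [ht]; field_simp; ring
  have h7 : t / 2 = 1 / (Real.sqrt 3 * ‖δ‖) := by rw [ht]; field_simp
  have h8 : t / 2 * (3 / 4 * (1 / 2 * ‖δ‖ ^ 2 * (Zs μ h) ^ 2))
      = Real.sqrt 3 / 8 * ‖δ‖ * (Zs μ h) ^ 2 := by
    rw [h7]
    field_simp
    nlinarith
  have h9 : t / 2 * (3 / 4 * ∫ p : S3 × S3, (inner ℝ δ ((p.1 : ℍ[ℝ]) - (p.2 : ℍ[ℝ]))) ^ 2
        * Real.exp (inner ℝ h (p.1 : ℍ[ℝ]) + inner ℝ h (p.2 : ℍ[ℝ])) ∂(μ.prod μ))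
      ≤ t / 2 * (3 / 4 * (1 / 2 * ‖δ‖ ^ 2 * (Zs μ h) ^ 2)) := by
    refine mul_le_mul_of_nonneg_left ?_ (by positivity)
    linarith
  have h10 : 1 / (2 * t) * ∫ σ : S3, J μ rt (inner ℝ h (σ : ℍ[ℝ])) ∂μ
      ≤ Real.sqrt 3 * ‖δ‖ / 4 * (1 / 2 * (Zs μ h) ^ 2) := by
    rw [h6]
    exact mul_le_mul_of_nonneg_left h5 (by positivity)
  calc _ ≤ _ := h1
    _ ≤ Real.sqrt 3 / 8 * ‖δ‖ * (Zs μ h) ^ 2 + Real.sqrt 3 * ‖δ‖ / 4 * (1 / 2 * (Zs μ h) ^ 2) :=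
        add_le_add (h9.trans h8.le) h10
    _ = _ := by ring

/-- mean of `φ` in the field `h` -/
noncomputable def Eh (φ : S3 → ℝ) (h : ℍ[ℝ]) : ℝ :=
  (∫ s, φ s * Real.exp (inner ℝ h (s : ℍ[ℝ])) ∂μ) / Zs μ h

lemma Zs_mid (h h' : ℍ[ℝ]) :
    (Zs μ ((1 / 2 : ℝ) • (h + h'))) ^ 2 ≤ Zs μ h * Zs μ h' * Real.exp ‖h - h'‖ := by
  have key : ∀ a b : ℍ[ℝ], Zs μ ((1 / 2 : ℝ) • (a + b)) ≤ Real.exp (‖a - b‖ / 2) * Zs μ a := by
    intro a b
    unfold Zs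
    rw [← integral_const_mul]
    refine integral_mono ((BM.of_continuous (cont_w _)).integrable μ)
      (((BM.of_continuous (cont_w a)).integrable μ).const_mul _) fun s => ?_
    simp only
    rw [← Real.exp_add]
    refine Real.exp_le_exp.2 ?_
    have e : (1 / 2 : ℝ) • (a + b) = a - (1 / 2 : ℝ) • (a - b) := by module
    rw [e, inner_sub_left, real_inner_smul_left]
    have := abs_le.1 (abs_real_inner_le_norm (a - b) (s : ℍ[ℝ]))
    rw [norm_coe', mul_one] at this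
    linarith [this.1]
  have h1 := key h h'
  have h2 := key h' h
  rw [add_comm h' h, norm_sub_rev h' h] at h2
  have h3 := Zs_pos μ ((1 / 2 : ℝ) • (h + h'))
  have h4 : Real.exp ‖h - h'‖ = Real.exp (‖h - h'‖ / 2) * Real.exp (‖h - h'‖ / 2) := by
    rw [← Real.exp_add]; ring_nf
  calc (Zs μ ((1 / 2 : ℝ) • (h + h'))) ^ 2
      = Zs μ ((1 / 2 : ℝ) • (h + h')) * Zs μ ((1 / 2 : ℝ) • (h + h')) := sq _
    _ ≤ (Real.exp (‖h - h'‖ / 2) * Zs μ h) * (Real.exp (‖h - h'‖ / 2) * Zs μ h') :=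
        mul_le_mul h1 h2 h3.le (mul_nonneg (Real.exp_pos _).le (Zs_pos μ h).le)
    _ = _ := by rw [h4]; ring

/-- two-point estimate, before subdivision -/
lemma two_point {φ : S3 → ℝ} (hφ : BM φ) {L : ℝ} (hL0 : 0 ≤ L)
    (hL : ∀ s s' : S3, |φ s - φ s'| ≤ L * ‖(s : ℍ[ℝ]) - s'‖) (h h' : ℍ[ℝ]) :
    |Eh μ φ h - Eh μ φ h'| ≤ Real.sqrt 3 / 6 * L * ‖h - h'‖ * Real.exp (2 * ‖h - h'‖) := by
  set δ := h - h' with hδ
  have hZ := Zs_pos μ h
  have hZ' := Zs_pos μ h'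
  have bw := BM.of_continuous (cont_w h)
  have bw' := BM.of_continuous (cont_w h')
  -- the product form
  have bF : BM fun p : S3 × S3 => (φ p.1 - φ p.2)
      * Real.exp (inner ℝ h (p.1 : ℍ[ℝ]) + inner ℝ h' (p.2 : ℍ[ℝ])) := by
    have b1 : BM fun p : S3 × S3 => φ p.1 - φ p.2 := by
      obtain ⟨c, hc⟩ := hφ.bdd
      exact ⟨(hφ.meas.comp measurable_fst).sub (hφ.meas.comp measurable_snd), c + c,
        fun p => (abs_sub _ _).trans (add_le_add (hc _) (hc _))⟩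
    have cW : Continuous fun p : S3 × S3 =>
        Real.exp (inner ℝ h (p.1 : ℍ[ℝ]) + inner ℝ h' (p.2 : ℍ[ℝ])) :=
      Real.continuous_exp.comp (((cont_inner h).comp continuous_fst).add
        ((cont_inner h').comp continuous_snd))
    exact b1.mul (BM.of_cont cW)
  have e1 : ∫ p : S3 × S3, (φ p.1 - φ p.2)
        * Real.exp (inner ℝ h (p.1 : ℍ[ℝ]) + inner ℝ h' (p.2 : ℍ[ℝ])) ∂(μ.prod μ)
      = (∫ s, φ s * Real.exp (inner ℝ h (s : ℍ[ℝ])) ∂μ) * Zs μ h'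
        - Zs μ h * ∫ s, φ s * Real.exp (inner ℝ h' (s : ℍ[ℝ])) ∂μ := by
    unfold Zs
    rw [← integral_prod_mul, ← integral_prod_mul]
    have i1 : Integrable (fun p : S3 × S3 => φ p.1 * Real.exp (inner ℝ h (p.1 : ℍ[ℝ]))
        * Real.exp (inner ℝ h' (p.2 : ℍ[ℝ]))) (μ.prod μ) :=
      (((hφ.mul bw).comp measurable_fst).mul (bw'.comp measurable_snd)).integrable _
    have i2 : Integrable (fun p : S3 × S3 => Real.exp (inner ℝ h (p.1 : ℍ[ℝ]))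
        * (φ p.2 * Real.exp (inner ℝ h' (p.2 : ℍ[ℝ])))) (μ.prod μ) :=
      ((bw.comp measurable_fst).mul ((hφ.mul bw').comp measurable_snd)).integrable _
    rw [← integral_sub i1 i2]
    refine integral_congr_ae (Filter.Eventually.of_forall fun p => ?_)
    simp only [Real.exp_add]
    ring
  have e2 := cv μ bF
  set m : ℍ[ℝ] := (1 / 2 : ℝ) • (h + h') with hm
  have hmc : ∀ σ : S3, (inner ℝ h (σ : ℍ[ℝ]) + inner ℝ h' (σ : ℍ[ℝ])) / 2
      = inner ℝ m (σ : ℍ[ℝ]) := by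
    intro σ
    rw [hm, real_inner_smul_left, inner_add_left]
    ring
  have key : |∫ σ : S3, ∫ g : S3, (φ (σ * (rt g)⁻¹) - φ (σ * rt g))
        * Real.exp (inner ℝ h ((σ * (rt g)⁻¹ : S3) : ℍ[ℝ])
          + inner ℝ h' ((σ * rt g : S3) : ℍ[ℝ])) ∂μ ∂μ|
      ≤ ∫ σ : S3, (2 / 3 * L * Real.exp ‖δ‖) * (‖(star (σ : ℍ[ℝ]) * δ).im‖
        * J μ rt (inner ℝ m (σ : ℍ[ℝ]))) ∂μ := by
    rw [← Real.norm_eq_abs]
    have b1 : BM fun σ : S3 => ‖(star (σ : ℍ[ℝ]) * δ).im‖ * J μ rt (inner ℝ m (σ : ℍ[ℝ])) :=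
      (BM.of_continuous (cont_gam δ)).mul (bm_J μ m)
    refine norm_integral_le_of_norm_le ((b1.integrable μ).const_mul _)
      (Filter.Eventually.of_forall fun σ => ?_)
    rw [Real.norm_eq_abs]
    have bf : BM fun k : S3 => φ (σ * k⁻¹) - φ (σ * k) := by
      obtain ⟨c, hc⟩ := hφ.bdd
      exact ⟨(hφ.meas.comp (measurable_inv.const_mul σ)).sub
        (hφ.meas.comp (measurable_id.const_mul σ)), c + c,
        fun p => (abs_sub _ _).trans (add_le_add (hc _) (hc _))⟩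
    have hf := fiber μ (c := inner ℝ m (σ : ℍ[ℝ])) (γ := (star (σ : ℍ[ℝ]) * δ).im)
      (Quaternion.re_im _) bf (fun k => by rw [inv_inv]; ring) hL0 (fun k k' => by
        have h1 := hL (σ * k⁻¹) (σ * k'⁻¹)
        have h2 := hL (σ * k) (σ * k')
        have n1 : ‖((σ * k⁻¹ : S3) : ℍ[ℝ]) - ((σ * k'⁻¹ : S3) : ℍ[ℝ])‖ = ‖(k : ℍ[ℝ]) - k'‖ := by
          rw [Metric.unitSphere.coe_mul, Metric.unitSphere.coe_mul, ← mul_sub, norm_mul, norm_coe',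
            one_mul, coe_inv, coe_inv, ← star_sub, norm_star]
        have n2 : ‖((σ * k : S3) : ℍ[ℝ]) - ((σ * k' : S3) : ℍ[ℝ])‖ = ‖(k : ℍ[ℝ]) - k'‖ := by
          rw [Metric.unitSphere.coe_mul, Metric.unitSphere.coe_mul, ← mul_sub, norm_mul, norm_coe',
            one_mul]
        rw [n1] at h1
        rw [n2] at h2
        have h3 : φ (σ * k⁻¹) - φ (σ * k) - (φ (σ * k'⁻¹) - φ (σ * k'))
            = (φ (σ * k⁻¹) - φ (σ * k'⁻¹)) - (φ (σ * k) - φ (σ * k')) := by ring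
        rw [h3]
        refine (abs_sub _ _).trans ?_
        linarith)
    have e3 : ∫ g : S3, (φ (σ * (rt g)⁻¹) - φ (σ * rt g))
        * Real.exp (inner ℝ h ((σ * (rt g)⁻¹ : S3) : ℍ[ℝ])
          + inner ℝ h' ((σ * rt g : S3) : ℍ[ℝ])) ∂μ
        = ∫ g, (φ (σ * (rt g)⁻¹) - φ (σ * rt g))
          * (Real.exp (2 * inner ℝ m (σ : ℍ[ℝ]) * (rt g : ℍ[ℝ]).re)
          * Real.exp (-inner ℝ (star (σ : ℍ[ℝ]) * δ).im (rt g : ℍ[ℝ]))) ∂μ := by
      refine integral_congr_ae (Filter.Eventually.of_forall fun g => ?_)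
      simp only
      rw [expo, hmc, ← hδ, ← Real.exp_add, ← sub_eq_add_neg]
    rw [e3]
    refine hf.trans ?_
    have n3 : ‖(star (σ : ℍ[ℝ]) * δ).im‖ ≤ ‖δ‖ := by
      refine (norm_im_le _).trans ?_
      rw [norm_mul, Quaternion.norm_star, norm_coe', one_mul]
    have hJ := J_nonneg μ (inner ℝ m (σ : ℍ[ℝ]))
    calc 2 / 3 * L * ‖(star (σ : ℍ[ℝ]) * δ).im‖ * Real.exp ‖(star (σ : ℍ[ℝ]) * δ).im‖
          * J μ rt (inner ℝ m (σ : ℍ[ℝ]))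
        = (2 / 3 * L * ‖(star (σ : ℍ[ℝ]) * δ).im‖ * J μ rt (inner ℝ m (σ : ℍ[ℝ])))
          * Real.exp ‖(star (σ : ℍ[ℝ]) * δ).im‖ := by ring
      _ ≤ (2 / 3 * L * ‖(star (σ : ℍ[ℝ]) * δ).im‖ * J μ rt (inner ℝ m (σ : ℍ[ℝ])))
          * Real.exp ‖δ‖ :=
          mul_le_mul_of_nonneg_left (Real.exp_le_exp.2 n3) (by positivity)
      _ = _ := by ring
  rw [integral_const_mul] at key
  have h3 := A3 μ m δ
  have h4 := Zs_mid μ h h'
  have e5 : Eh μ φ h - Eh μ φ h' = ((∫ s, φ s * Real.exp (inner ℝ h (s : ℍ[ℝ])) ∂μ) * Zs μ h'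
        - Zs μ h * ∫ s, φ s * Real.exp (inner ℝ h' (s : ℍ[ℝ])) ∂μ) / (Zs μ h * Zs μ h') := by
    unfold Eh
    rw [div_sub_div _ _ hZ.ne' hZ'.ne']
  rw [e5, ← e1, e2, abs_div, abs_of_pos (mul_pos hZ hZ'), div_le_iff₀ (mul_pos hZ hZ')]
  refine key.trans ?_
  calc (2 / 3 * L * Real.exp ‖δ‖) * ∫ σ : S3, ‖(star (σ : ℍ[ℝ]) * δ).im‖
        * J μ rt (inner ℝ m (σ : ℍ[ℝ])) ∂μ
      ≤ (2 / 3 * L * Real.exp ‖δ‖) * (Real.sqrt 3 / 4 * ‖δ‖ * (Zs μ m) ^ 2) :=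
        mul_le_mul_of_nonneg_left h3 (by positivity)
    _ ≤ (2 / 3 * L * Real.exp ‖δ‖) * (Real.sqrt 3 / 4 * ‖δ‖
          * (Zs μ h * Zs μ h' * Real.exp ‖δ‖)) := by
        refine mul_le_mul_of_nonneg_left ?_ (by positivity)
        exact mul_le_mul_of_nonneg_left h4 (by positivity)
    _ = _ := by
        have : Real.exp (2 * ‖δ‖) = Real.exp ‖δ‖ * Real.exp ‖δ‖ := by
          rw [← Real.exp_add]; ring_nf
        rw [this]; ring

/-- subdivision -/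
lemma subdivide {f : ℍ[ℝ] → ℝ} {K : ℝ}
    (h : ∀ x y, |f x - f y| ≤ K * ‖x - y‖ * Real.exp (2 * ‖x - y‖)) (x y : ℍ[ℝ]) :
    |f x - f y| ≤ K * ‖x - y‖ := by
  have key : ∀ n : ℕ, ∀ x y, |f x - f y| ≤ K * ‖x - y‖ * Real.exp (2 * ‖x - y‖ * (1 / 2) ^ n) := by
    intro n
    induction n with
    | zero => intro x y; simpa using h x y
    | succ n ih =>
      intro x y
      set z := (1 / 2 : ℝ) • (x + y) with hz
      have e1 : ‖x - z‖ = ‖x - y‖ / 2 := by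
        have : x - z = (1 / 2 : ℝ) • (x - y) := by rw [hz]; module
        rw [this, norm_smul]; norm_num; ring
      have e2 : ‖z - y‖ = ‖x - y‖ / 2 := by
        have : z - y = (1 / 2 : ℝ) • (x - y) := by rw [hz]; module
        rw [this, norm_smul]; norm_num; ring
      have h1 := ih x z
      have h2 := ih z y
      rw [e1] at h1
      rw [e2] at h2
      have e3 : 2 * (‖x - y‖ / 2) * (1 / 2 : ℝ) ^ n = 2 * ‖x - y‖ * (1 / 2) ^ (n + 1) := by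
        rw [pow_succ]; ring
      rw [e3] at h1 h2
      have h3 : f x - f y = (f x - f z) + (f z - f y) := by ring
      rw [h3]
      refine (abs_add_le _ _).trans ((add_le_add h1 h2).trans (le_of_eq ?_))
      ring
  have hlim : Filter.Tendsto (fun n : ℕ => K * ‖x - y‖ * Real.exp (2 * ‖x - y‖ * (1 / 2) ^ n))
      Filter.atTop (nhds (K * ‖x - y‖ * Real.exp (2 * ‖x - y‖ * 0))) := by
    refine Filter.Tendsto.const_mul _ ?_
    refine (Real.continuous_exp.tendsto _).comp ?_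
    exact (tendsto_pow_atTop_nhds_zero_of_lt_one (by norm_num) (by norm_num)).const_mul _
  have := ge_of_tendsto' hlim fun n => key n x y
  simpa using this

/-- **Transport estimate for one spin**: the mean of a `1`-Lipschitz function depends on the field
with Lipschitz constant `√3 / 6 = 1 / √12`. -/
theorem transport {φ : S3 → ℝ} (hφ : BM φ) {L : ℝ} (hL0 : 0 ≤ L)
    (hL : ∀ s s' : S3, |φ s - φ s'| ≤ L * ‖(s : ℍ[ℝ]) - s'‖) (h h' : ℍ[ℝ]) :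
    |Eh μ φ h - Eh μ φ h'| ≤ Real.sqrt 3 / 6 * L * ‖h - h'‖ :=
  subdivide (two_point μ hφ hL0 hL) h h'

end Pool.Agent.H556R4.SU2
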