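import Pool.Agent.H556R4.LayerR

/-!
# The product of layers
-/

namespace Pool.Agent.H556R4.SlabR

open MeasureTheory Function Dob Pair LayerR

set_option linter.unusedSectionVars false

variable {G : Type} [Group G] [MeasurableSpace G] [MeasurableMul₂ G] [MeasurableInv G]
  (μ : Measure G) [IsProbabilityMeasure μ]
variable {X : Type} [Fintype X] [DecidableEq X]
variable {𝒜 : Type} [NormedRing 𝒜] [NormedAlgebra ℝ 𝒜] [CompleteSpace 𝒜]

lemma measurable_ofFn_prod {α : Type} [MeasurableSpace α] : ∀ {T : ℕ} (f : Fin T → α → G),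
    (∀ t, Measurable (f t)) → Measurable fun a => (List.ofFn fun t => f t a).prod := by
  intro T
  induction T with
  | zero => intro f _; simp
  | succ T ih =>
    intro f hf
    simp only [List.ofFn_succ, List.prod_cons]
    exact (hf 0).mul (ih (fun t => f t.succ) fun t => hf _)

/-- the integrand of a slab of `T` layers -/
noncomputable def integrand {T : ℕ} (h : Fin T → (X → G) → ℝ) (π : G →* 𝒜) (x y0 : X) (A : 𝒜)
    (V : Fin T → X → G) : 𝒜 :=
  (∏ t, h t (V t)) • (π (List.ofFn fun t => V t x).prod * A * π ((List.ofFn fun t => V t y0).prod)⁻¹)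

lemma integrand_sm {T : ℕ} {h : Fin T → (X → G) → ℝ} (hh : ∀ t, Dens (h t)) {π : G →* 𝒜}
    (hπm : StronglyMeasurable π) (x y0 : X) (A : 𝒜) : StronglyMeasurable (integrand h π x y0 A) := by
  have A1 : StronglyMeasurable fun V : Fin T → X → G => ∏ t, h t (V t) := by
    refine Measurable.stronglyMeasurable (Finset.measurable_prod _ fun t _ => ?_)
    exact (hh t).meas.comp (measurable_pi_apply t)
  have m1 : ∀ x : X, Measurable fun V : Fin T → X → G => (List.ofFn fun t => V t x).prod :=
    fun x => measurable_ofFn_prod (fun t (V : Fin T → X → G) => V t x) fun t =>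
      (measurable_pi_apply x).comp (measurable_pi_apply t)
  exact A1.smul (((hπm.comp_measurable (m1 x)).mul stronglyMeasurable_const).mul
    (hπm.comp_measurable (m1 y0).inv))

lemma integrand_bdd {T : ℕ} {h : Fin T → (X → G) → ℝ} (hh : ∀ t, Dens (h t)) {π : G →* 𝒜}
    (hπ1 : ∀ g, ‖π g‖ ≤ 1) (x y0 : X) (A : 𝒜) : ∃ c, ∀ V, ‖integrand h π x y0 A V‖ ≤ c := by
  choose M hM using fun t => (hh t).bm.bdd
  refine ⟨(∏ t, M t) * (1 * ‖A‖ * 1), fun V => ?_⟩
  unfold integrand
  rw [norm_smul, Real.norm_eq_abs, Finset.abs_prod]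
  refine mul_le_mul (Finset.prod_le_prod (fun t _ => abs_nonneg _) fun t _ => hM t _) ?_
    (norm_nonneg _) (Finset.prod_nonneg fun t _ => (abs_nonneg _).trans (hM t (V t)))
  refine (norm_mul_le _ _).trans (mul_le_mul ?_ (hπ1 _) (norm_nonneg _) (by positivity))
  exact (norm_mul_le _ _).trans (mul_le_mul_of_nonneg_right (hπ1 _) (norm_nonneg _))

theorem slab {π : G →* 𝒜} (hπm : StronglyMeasurable π) (hπ1 : ∀ g, ‖π g‖ ≤ 1) {κ : ℝ}
    (hκ : 0 ≤ κ) (x y0 : X) (A : 𝒜) (T : ℕ) :
    ∀ (h : Fin T → (X → G) → ℝ), (∀ t, Dens (h t)) →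
    (∀ t B, ‖∫ v, h t v • (π (v x) * B * π (v y0)⁻¹) ∂(Pm μ : Measure (X → G))‖
        ≤ κ * ‖B‖ * ∫ v, h t v ∂(Pm μ : Measure (X → G))) →
    ‖∫ V, integrand h π x y0 A V ∂(Measure.pi fun _ => (Pm μ : Measure (X → G)))‖
      ≤ κ ^ T * ‖A‖ * ∏ t, ∫ v, h t v ∂(Pm μ : Measure (X → G)) := by
  induction T with
  | zero =>
    intro h _ _
    have : ∀ V : Fin 0 → X → G, integrand h π x y0 A V = A := by
      intro V
      simp [integrand]
    simp only [this]
    simp
  | succ T ih =>
    intro h hh hK
    have mp := measurePreserving_piFinSuccAbove (fun _ : Fin (T + 1) => (Pm μ : Measure (X → G))) 0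
    set e := MeasurableEquiv.piFinSuccAbove (fun _ : Fin (T + 1) => X → G) 0 with he
    obtain ⟨c, hc⟩ := integrand_bdd hh hπ1 x y0 A
    have hsm := integrand_sm hh hπm x y0 A
    have h1 : ∫ V, integrand h π x y0 A V ∂(Measure.pi fun _ => (Pm μ : Measure (X → G)))
        = ∫ p, integrand h π x y0 A (e.symm p) ∂((Pm μ : Measure (X → G)).prod
            (Measure.pi fun _ : Fin T => (Pm μ : Measure (X → G)))) := by
      have := (mp.symm e).integral_comp' (integrand h π x y0 A)
      exact this.symm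
    rw [h1, integral_prod]
    swap
    · exact Integrable.of_bound (hsm.comp_measurable e.symm.measurable).aestronglyMeasurable c
        (Filter.Eventually.of_forall fun p => hc _)
    set h' : Fin T → (X → G) → ℝ := fun t => h t.succ with hh'
    have hsm' := integrand_sm (fun t => hh t.succ : ∀ t, Dens (h' t)) hπm x y0 A
    obtain ⟨c', hc'⟩ := integrand_bdd (fun t => hh t.succ : ∀ t, Dens (h' t)) hπ1 x y0 A
    have hint : Integrable (integrand h' π x y0 A)
        (Measure.pi fun _ : Fin T => (Pm μ : Measure (X → G))) :=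
      Integrable.of_bound hsm'.aestronglyMeasurable c' (Filter.Eventually.of_forall hc')
    have h2 : ∀ v : X → G, ∫ V', integrand h π x y0 A (e.symm (v, V'))
          ∂(Measure.pi fun _ : Fin T => (Pm μ : Measure (X → G)))
        = h 0 v • (π (v x) * (∫ V', integrand h' π x y0 A V'
          ∂(Measure.pi fun _ : Fin T => (Pm μ : Measure (X → G)))) * π (v y0)⁻¹) := by
      intro v
      have hl : ∀ V' : Fin T → X → G, integrand h π x y0 A (e.symm (v, V'))
          = (h 0 v • (ContinuousLinearMap.mulLeftRight ℝ 𝒜 (π (v x)) (π (v y0)⁻¹)))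
              (integrand h' π x y0 A V') := by
        intro V'
        have es : e.symm (v, V') = Fin.cons v V' := by
          rw [he, MeasurableEquiv.piFinSuccAbove_symm_apply]
          exact Fin.insertNth_zero' v V'
        rw [es]
        simp only [integrand, ContinuousLinearMap.smul_apply,
          ContinuousLinearMap.mulLeftRight_apply, Fin.prod_univ_succ, List.ofFn_succ,
          List.prod_cons, Fin.cons_zero, Fin.cons_succ, mul_inv_rev, map_mul, hh']
        rw [mul_smul_comm, smul_mul_assoc, smul_smul]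
        simp only [mul_assoc]
      simp only [hl]
      rw [ContinuousLinearMap.integral_comp_comm _ hint]
      simp only [ContinuousLinearMap.smul_apply, ContinuousLinearMap.mulLeftRight_apply]
    simp only [h2]
    refine (hK 0 _).trans ?_
    have h3 := ih h' (fun t => hh _) (fun t B => hK _ B)
    rw [Fin.prod_univ_succ]
    have h4 : 0 ≤ ∫ v, h 0 v ∂(Pm μ : Measure (X → G)) :=
      integral_nonneg fun v => ((hh 0).pos v).le
    calc _ ≤ κ * (κ ^ T * ‖A‖ * ∏ t, ∫ v, h' t v ∂(Pm μ : Measure (X → G)))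
          * ∫ v, h 0 v ∂(Pm μ : Measure (X → G)) :=
          mul_le_mul_of_nonneg_right (mul_le_mul_of_nonneg_left h3 hκ) h4
      _ = _ := by rw [pow_succ]; ring

end Pool.Agent.H556R4.SlabR
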