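import Pool.Agent.H556R4.Area
import Pool.Agent.H556R4.SlabR
import Pool.Agent.H556R4.SU2e

/-!
# The area law estimate with real scalars, and the layer bound for unit quaternions
-/

namespace Pool.Agent.H556R4.AreaR

open MeasureTheory Function Dob Pair LayerR SlabR Area

set_option linter.unusedSectionVars false
set_option linter.unusedVariables false

variable {G : Type} [Group G] [MeasurableSpace G] [MeasurableMul₂ G] [MeasurableInv G]
  (μ : Measure G) [IsProbabilityMeasure μ] [μ.IsMulLeftInvariant]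
variable {X E : Type} [Fintype X] [DecidableEq X] [Fintype E] {src tgt : E → X}
variable {𝒜 : Type} [NormedRing 𝒜] [NormedAlgebra ℝ 𝒜] [CompleteSpace 𝒜]

/-- assembling: a bound for every layer gives a bound for the loop expectation -/
theorem area {T : ℕ} {Ω : Type} [MeasurableSpace Ω] (ν : Measure Ω) [IsFiniteMeasure ν]
    {U : Ω → Fin (T + 1) → E → G} (hU : ∀ t e, Measurable fun ω => U ω t e)
    {F : Ω → ℝ} (hF : Measurable F) (hF0 : ∀ ω, 0 ≤ F ω) {cF : ℝ} (hFb : ∀ ω, F ω ≤ cF)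
    {w : Fin T → E → G → ℝ} {a b : ℝ} (hw : ∀ t e, Measurable (w t e)) (ha : 0 < a)
    (hlo : ∀ t e g, a ≤ w t e g) (hup : ∀ t e g, w t e g ≤ b)
    {π : G →* 𝒜} (hπm : StronglyMeasurable π) (hπ1 : ∀ g, ‖π g‖ ≤ 1) (τ : 𝒜 →L[ℝ] ℝ) {N : ℝ} (hN : 0 ≤ N)
    (hτ : ∀ M, ‖τ M‖ ≤ N * ‖M‖) {κ : ℝ} (hκ : 0 ≤ κ) (x y : X) {p q : Ω → G} (hp : Measurable p)
    (hq : Measurable q)
    (hlay : ∀ ω t M, ‖∫ v, lay src tgt (w t) (U ω t.succ) (U ω t.castSucc) v •
        (π (v x) * M * π (v y)⁻¹) ∂(Pm μ : Measure (X → G))‖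
      ≤ κ * ‖M‖ * ∫ v, lay src tgt (w t) (U ω t.succ) (U ω t.castSucc) v
        ∂(Pm μ : Measure (X → G))) :
    ‖∫ c, (F c.2 * ∏ t, ∏ e, w t e (plaq src tgt c.1 (U c.2) t e))
        * τ (π (loop c.1 x y (p c.2) (q c.2)))
        ∂((Measure.pi fun _ : Fin T => (Pm μ : Measure (X → G))).prod ν)‖
      ≤ N * κ ^ T * ∫ c, F c.2 * ∏ t, ∏ e, w t e (plaq src tgt c.1 (U c.2) t e)
        ∂((Measure.pi fun _ : Fin T => (Pm μ : Measure (X → G))).prod ν) := by
  have hne : Nonempty G := nonempty_G μ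
  obtain ⟨g0⟩ := hne
  -- measurability
  have m1 : ∀ x : X, Measurable fun V : Fin T → X → G => (List.ofFn fun t => V t x).prod :=
    fun x => measurable_ofFn_prod (fun t (V : Fin T → X → G) => V t x) fun t =>
      (measurable_pi_apply x).comp (measurable_pi_apply t)
  have mplaq : ∀ t e, Measurable fun c : (Fin T → X → G) × Ω => plaq src tgt c.1 (U c.2) t e := by
    intro t e
    have a1 : ∀ x : X, Measurable fun c : (Fin T → X → G) × Ω => c.1 t x := fun x =>
      (measurable_pi_apply x).comp ((measurable_pi_apply t).comp measurable_fst)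
    exact (((a1 _).mul ((hU _ _).comp measurable_snd)).mul (a1 _).inv).mul
      ((hU _ _).comp measurable_snd).inv
  have mW : Measurable fun c : (Fin T → X → G) × Ω =>
      F c.2 * ∏ t, ∏ e, w t e (plaq src tgt c.1 (U c.2) t e) := by
    refine (hF.comp measurable_snd).mul ?_
    refine Finset.measurable_prod _ fun t _ => Finset.measurable_prod _ fun e _ => ?_
    exact (hw t e).comp (mplaq t e)
  have mloop : Measurable fun c : (Fin T → X → G) × Ω => loop c.1 x y (p c.2) (q c.2) := by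
    unfold loop
    exact ((((m1 x).comp measurable_fst).mul (hp.comp measurable_snd)).mul
      ((m1 y).comp measurable_fst).inv).mul (hq.comp measurable_snd)
  -- bounds
  have hWpos : ∀ t e g, 0 < w t e g := fun t e g => ha.trans_le (hlo t e g)
  have bW : ∀ c : (Fin T → X → G) × Ω,
      |F c.2 * ∏ t, ∏ e, w t e (plaq src tgt c.1 (U c.2) t e)| ≤ cF * ∏ _t : Fin T, ∏ _e : E, b := by
    intro c
    have h1 : 0 ≤ ∏ t, ∏ e, w t e (plaq src tgt c.1 (U c.2) t e) :=
      Finset.prod_nonneg fun t _ => Finset.prod_nonneg fun e _ => (hWpos _ _ _).le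
    rw [abs_of_nonneg (mul_nonneg (hF0 _) h1)]
    refine mul_le_mul (hFb _) ?_ h1 ((hF0 c.2).trans (hFb _))
    exact Finset.prod_le_prod (fun t _ => Finset.prod_nonneg fun e _ => (hWpos _ _ _).le)
      fun t _ => Finset.prod_le_prod (fun e _ => (hWpos _ _ _).le) fun e _ => hup _ _ _
  have iW : Integrable (fun c : (Fin T → X → G) × Ω =>
      F c.2 * ∏ t, ∏ e, w t e (plaq src tgt c.1 (U c.2) t e))
      ((Measure.pi fun _ : Fin T => (Pm μ : Measure (X → G))).prod ν) :=
    Integrable.of_bound mW.aestronglyMeasurable _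
      (Filter.Eventually.of_forall fun c => by rw [Real.norm_eq_abs]; exact bW c)
  have iΦ : Integrable (fun c : (Fin T → X → G) × Ω =>
      (F c.2 * ∏ t, ∏ e, w t e (plaq src tgt c.1 (U c.2) t e))
        * τ (π (loop c.1 x y (p c.2) (q c.2))))
      ((Measure.pi fun _ : Fin T => (Pm μ : Measure (X → G))).prod ν) := by
    refine Integrable.of_bound (C := (cF * ∏ _t : Fin T, ∏ _e : E, b) * (‖τ‖ * 1)) ?_
      (Filter.Eventually.of_forall fun c => ?_)
    · refine (mW.stronglyMeasurable.mul ?_).aestronglyMeasurable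
      exact τ.continuous.comp_stronglyMeasurable (hπm.comp_measurable mloop)
    · rw [norm_mul, Real.norm_eq_abs (F c.2 * _)]
      refine mul_le_mul (bW c) ?_ (norm_nonneg _) ((abs_nonneg _).trans (bW c))
      exact (τ.le_opNorm _).trans (mul_le_mul_of_nonneg_left (hπ1 _) (norm_nonneg _))
  rw [integral_prod_symm _ iΦ, integral_prod_symm _ iW, ← integral_const_mul]
  refine norm_integral_le_of_norm_le ((iW.integral_prod_right).const_mul _)
    (Filter.Eventually.of_forall fun ω => ?_)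
  -- the inner integral
  set h : Fin T → (X → G) → ℝ := fun t => lay src tgt (w t) (U ω t.succ) (U ω t.castSucc) with hh
  have hD : ∀ t, Dens (h t) := fun t => lay_dens (hw t) ha (hlo t) (hup t) _ _
  have hprod : ∀ V : Fin T → X → G, ∏ t, ∏ e, w t e (plaq src tgt V (U ω) t e) = ∏ t, h t (V t) := by
    intro V
    rfl
  have hsm := integrand_sm hD hπm x y (π (p ω))
  obtain ⟨c', hc'⟩ := integrand_bdd hD hπ1 x y (π (p ω))
  have hint : Integrable (integrand h π x y (π (p ω)))
      (Measure.pi fun _ : Fin T => (Pm μ : Measure (X → G))) :=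
    Integrable.of_bound hsm.aestronglyMeasurable c' (Filter.Eventually.of_forall hc')
  have e1 : ∫ V, (F ω * ∏ t, ∏ e, w t e (plaq src tgt V (U ω) t e))
        * τ (π (loop V x y (p ω) (q ω))) ∂(Measure.pi fun _ : Fin T => (Pm μ : Measure (X → G)))
      = F ω * τ ((∫ V, integrand h π x y (π (p ω)) V
          ∂(Measure.pi fun _ : Fin T => (Pm μ : Measure (X → G)))) * π (q ω)) := by
    have e2 := ((F ω • τ).comp
      ((ContinuousLinearMap.mul ℝ 𝒜).flip (π (q ω)))).integral_comp_comm hint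
    simp only [ContinuousLinearMap.comp_apply, ContinuousLinearMap.flip_apply,
      ContinuousLinearMap.mul_apply', ContinuousLinearMap.smul_apply, smul_eq_mul] at e2
    rw [← e2]
    refine integral_congr_ae (Filter.Eventually.of_forall fun V => ?_)
    simp only [hprod, integrand, loop, map_mul]
    rw [smul_mul_assoc, map_smul, smul_eq_mul]
    ring
  have e3 : ∫ V, F ω * ∏ t, ∏ e, w t e (plaq src tgt V (U ω) t e)
        ∂(Measure.pi fun _ : Fin T => (Pm μ : Measure (X → G)))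
      = F ω * ∏ t, ∫ v, h t v ∂(Pm μ : Measure (X → G)) := by
    rw [integral_const_mul]
    congr 1
    simp only [hprod]
    exact integral_fintype_prod_eq_prod (fun t => h t)
  have hs := slab μ hπm hπ1 hκ x y (π (p ω)) T h hD (fun t B => hlay ω t B)
  simp only
  rw [e1, e3, norm_mul, Real.norm_eq_abs (F ω), abs_of_nonneg (hF0 ω)]
  set M := ∫ V, integrand h π x y (π (p ω)) V
    ∂(Measure.pi fun _ : Fin T => (Pm μ : Measure (X → G))) with hM
  have hPn : 0 ≤ ∏ t, ∫ v, h t v ∂(Pm μ : Measure (X → G)) :=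
    Finset.prod_nonneg fun t _ => integral_nonneg fun v => ((hD t).pos v).le
  have hM1 : ‖M * π (q ω)‖ ≤ κ ^ T * ∏ t, ∫ v, h t v ∂(Pm μ : Measure (X → G)) := by
    refine (norm_mul_le _ _).trans ?_
    calc ‖M‖ * ‖π (q ω)‖ ≤ ‖M‖ := mul_le_of_le_one_right (norm_nonneg _) (hπ1 _)
      _ ≤ κ ^ T * ‖π (p ω)‖ * ∏ t, ∫ v, h t v ∂(Pm μ : Measure (X → G)) := hs
      _ ≤ κ ^ T * ∏ t, ∫ v, h t v ∂(Pm μ : Measure (X → G)) := by
        refine mul_le_mul_of_nonneg_right ?_ hPn
        exact mul_le_of_le_one_right (pow_nonneg hκ T) (hπ1 _)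
  calc F ω * ‖τ (M * π (q ω))‖ ≤ F ω * (N * ‖M * π (q ω)‖) :=
        mul_le_mul_of_nonneg_left (hτ _) (hF0 ω)
    _ ≤ F ω * (N * (κ ^ T * ∏ t, ∫ v, h t v ∂(Pm μ : Measure (X → G)))) :=
        mul_le_mul_of_nonneg_left (mul_le_mul_of_nonneg_left hM1 hN) (hF0 ω)
    _ = _ := by ring

end Pool.Agent.H556R4.AreaR
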