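import Pool.Agent.H556R4.Dob

/-!
# Exponential clustering from the comparison theorem
-/

namespace Pool.Agent.H556R4.Cluster

open MeasureTheory Function Dob

set_option linter.unusedSectionVars false

variable {ι G : Type} [Fintype ι] [DecidableEq ι] [MeasurableSpace G]

lemma measurable_merge_pair (S : Finset ι) :
    Measurable fun p : (ι → G) × (ι → G) => merge S p.1 p.2 := by
  refine measurable_pi_lambda _ fun i => ?_
  by_cases h : i ∈ S
  · simp only [merge, h, if_true]
    exact (measurable_pi_apply i).comp measurable_fst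
  · simp only [merge, h, if_false]
    exact (measurable_pi_apply i).comp measurable_snd

variable (μ : Measure G) [IsProbabilityMeasure μ]

lemma measurePreserving_merge (S : Finset ι) :
    MeasurePreserving (fun p : (ι → G) × (ι → G) => merge S p.1 p.2)
      ((Pm μ).prod (Pm μ)) (Pm μ : Measure (ι → G)) := by
  classical
  refine ⟨measurable_merge_pair S, ?_⟩
  refine (Measure.pi_eq fun s hs => ?_).symm
  rw [Measure.map_apply (measurable_merge_pair S) (MeasurableSet.univ_pi hs)]
  have h : (fun p : (ι → G) × (ι → G) => merge S p.1 p.2) ⁻¹' (Set.univ.pi s)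
      = (Set.univ.pi fun i => if i ∈ S then s i else Set.univ) ×ˢ
        (Set.univ.pi fun i => if i ∈ S then Set.univ else s i) := by
    ext p
    simp only [Set.mem_preimage, Set.mem_pi, Set.mem_univ, true_implies, Set.mem_prod]
    constructor
    · intro hp
      refine ⟨fun i => ?_, fun i => ?_⟩
      · by_cases hi : i ∈ S
        · simpa [hi, merge] using hp i
        · simp [hi]
      · by_cases hi : i ∈ S
        · simp [hi]
        · simpa [hi, merge] using hp i
    · rintro ⟨h1, h2⟩ i
      by_cases hi : i ∈ S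
      · simpa [hi, merge] using h1 i
      · simpa [hi, merge] using h2 i
  rw [h, Measure.prod_prod, Measure.pi_pi, Measure.pi_pi, ← Finset.prod_mul_distrib]
  refine Finset.prod_congr rfl fun i _ => ?_
  by_cases hi : i ∈ S <;> simp [hi]

lemma merge_merge {S S' : Finset ι} (h : S' ⊆ S) (U1 U2 v : ι → G) :
    merge S (merge S' U1 U2) v = merge S' U1 (merge S U2 v) := by
  funext i
  by_cases h1 : i ∈ S'
  · simp [merge, h1, h h1]
  · by_cases h2 : i ∈ S <;> simp [merge, h1, h2]

lemma split {S S' : Finset ι} (h : S' ⊆ S) (v : ι → G) {Ψ : (ι → G) → ℝ} (hΨ : BM Ψ) :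
    ∫ U, Ψ (merge S U v) ∂(Pm μ)
      = ∫ U2, ∫ U1, Ψ (merge S' U1 (merge S U2 v)) ∂(Pm μ) ∂(Pm μ : Measure (ι → G)) := by
  have mp := measurePreserving_merge μ (ι := ι) S'
  have h1 := hΨ.comp (measurable_merge S v)
  conv_lhs => rw [← mp.map_eq]
  rw [integral_map mp.measurable.aemeasurable h1.meas.aestronglyMeasurable]
  simp only [merge_merge h]
  have h2 : BM fun p : (ι → G) × (ι → G) => Ψ (merge S' p.1 (merge S p.2 v)) := by
    have := h1.comp mp.measurable
    simp only [merge_merge h] at this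
    exact this
  exact integral_prod_symm _ (h2.integrable _)

variable {H : (ι → G) → ℝ} {d : G → G → ℝ} {C : ι → ι → ℝ}

lemma bm_param {S S' : Finset ι} (v : ι → G) {Ψ : (ι → G) → ℝ} (hΨ : BM Ψ) :
    BM fun U2 : ι → G => ∫ U1, Ψ (merge S' U1 (merge S U2 v)) ∂(Pm μ) := by
  have m : Measurable fun p : (ι → G) × (ι → G) => merge S' p.2 (merge S p.1 v) :=
    (measurable_merge_pair S').comp
      (measurable_snd.prodMk ((measurable_merge S v).comp measurable_fst))
  have h2 : BM fun p : (ι → G) × (ι → G) => Ψ (merge S' p.2 (merge S p.1 v)) := hΨ.comp m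
  refine ⟨h2.meas.stronglyMeasurable.integral_prod_right'.measurable, ?_⟩
  obtain ⟨c, hc⟩ := h2.bdd
  refine ⟨c, fun U2 => ?_⟩
  have := norm_integral_le_of_norm_le (f := fun U1 => Ψ (merge S' U1 (merge S U2 v)))
    (μ := (Pm μ : Measure (ι → G))) (integrable_const c)
    (Filter.Eventually.of_forall fun U1 => hc (U2, U1))
  simpa using this

/-- **Exponential clustering.** -/
theorem clustering (hH : Dens H) {δ : ℝ} (hδ : 0 ≤ δ) (hd : Cost d δ)
    (hC : ∀ x y, y ≠ x → Infl μ d H x y (C x y)) (hC0 : ∀ x y, 0 ≤ C x y)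
    {ρ : ℝ} (hρ0 : 0 ≤ ρ) (hρ1 : ρ < 1) {r : ι → ℕ}
    (hs : ∀ x, ∑ y ∈ Finset.univ.erase x, C x y * ρ ^ r y ≤ ρ ^ r x)
    (hr : ∀ x, ∑ y ∈ Finset.univ.erase x, C x y ≤ ρ) (S : Finset ι) (v : ι → G)
    {f g : (ι → G) → ℝ} (hf : BM f) (hg : BM g) {K : ℝ} (hK : ∀ V, |f V| ≤ K)
    (hfA : ∀ V V' : ι → G, (∀ i, r i = 0 → V i = V' i) → f V = f V')
    {D : ι → ℝ} (hD : Osc d g D) {R : ℕ} (hDR : ∀ y, r y < R → D y = 0) :
    |I μ S H v (fun V => f V * g V) / Z μ S H v
      - (I μ S H v f / Z μ S H v) * (I μ S H v g / Z μ S H v)|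
      ≤ K * (δ * ρ ^ R * ∑ y, D y) := by
  classical
  set S' : Finset ι := S.filter fun i => r i ≠ 0 with hS'
  have hsub : S' ⊆ S := Finset.filter_subset _ _
  have hD0 := hD.1
  -- comparison
  have hG : ∀ U U' : ι → G,
      |I μ S' H (merge S U v) g / Z μ S' H (merge S U v)
        - I μ S' H (merge S U' v) g / Z μ S' H (merge S U' v)| ≤ δ * ρ ^ R * ∑ y, D y := by
    intro U U'
    have hP : P μ d S' H (merge S U v) (merge S U' v) fun y => δ * ρ ^ r y := by
      refine comparison μ hH (fun y => by positivity) hδ hd ?_ (fun x _ y hy => hC x y hy) hC0 hρ0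
        hρ1 (fun x _ => ?_) (fun x _ => ?_)
      · intro y hy
        by_cases hyS : y ∈ S
        · have h0 : r y = 0 := by
            by_contra h
            exact hy (Finset.mem_filter.2 ⟨hyS, h⟩)
          rw [h0, pow_zero, mul_one]
          exact hd.le _ _
        · have e1 : merge S U v y = v y := by simp [merge, hyS]
          have e2 : merge S U' v y = v y := by simp [merge, hyS]
          rw [e1, e2, hd.self]
          positivity
      · have := mul_le_mul_of_nonneg_left (hs x) hδ
        rw [Finset.mul_sum] at this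
        refine le_trans (le_of_eq ?_) this
        refine Finset.sum_congr rfl fun y _ => ?_
        ring
      · refine le_trans ?_ (hr x)
        refine Finset.sum_le_sum_of_subset_of_nonneg (Finset.erase_subset_erase _
          (Finset.subset_univ _)) fun y _ _ => hC0 x y
    refine (hP g D hg hD).trans ?_
    rw [Finset.mul_sum]
    refine Finset.sum_le_sum fun y _ => ?_
    by_cases hy : r y < R
    · rw [hDR y hy]; simp
    · push Not at hy
      refine mul_le_mul_of_nonneg_right ?_ (hD0 y)
      exact mul_le_mul_of_nonneg_left (pow_le_pow_of_le_one hρ0 hρ1.le hy) hδ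
  -- conditional quantities
  set z : (ι → G) → ℝ := fun U => Z μ S' H (merge S U v) with hz
  set q : (ι → G) → ℝ := fun U => I μ S' H (merge S U v) g with hq
  set a : (ι → G) → ℝ := fun U => f (merge S U v) with ha
  have hz0 : ∀ U, 0 < z U := fun U => Z_pos μ hH S' _
  have bz : BM z := bm_param μ v hH.bm
  have bq : BM q := bm_param μ v (hg.mul hH.bm)
  have ba : BM a := hf.comp (measurable_merge S v)
  have hfw : ∀ U1 U2, f (merge S' U1 (merge S U2 v)) = a U2 := by
    intro U1 U2
    refine hfA _ _ fun i hi => ?_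
    have : i ∉ S' := fun h => (Finset.mem_filter.1 h).2 hi
    simp [merge, this]
  have eZ : Z μ S H v = ∫ U, z U ∂(Pm μ) := split μ hsub v hH.bm
  have eg : I μ S H v g = ∫ U, q U ∂(Pm μ) := split μ hsub v (hg.mul hH.bm)
  have ef : I μ S H v f = ∫ U, a U * z U ∂(Pm μ) := by
    have := split μ hsub v (hf.mul hH.bm)
    refine Eq.trans this ?_
    refine integral_congr_ae (Filter.Eventually.of_forall fun U2 => ?_)
    simp only [hfw]
    rw [integral_const_mul]
    rfl
  have efg : I μ S H v (fun V => f V * g V) = ∫ U, a U * q U ∂(Pm μ) := by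
    have := split μ hsub v ((hf.mul hg).mul hH.bm)
    refine Eq.trans this ?_
    refine integral_congr_ae (Filter.Eventually.of_forall fun U2 => ?_)
    simp only [hfw, mul_assoc]
    rw [integral_const_mul]
    rfl
  have hZ : 0 < ∫ U, z U ∂(Pm μ) := by rw [← eZ]; exact Z_pos μ hH S v
  have hfrac : ∀ U, q U = q U / z U * z U := fun U => (div_mul_cancel₀ _ (hz0 U).ne').symm
  set m : ℝ := (∫ U, q U ∂(Pm μ)) / ∫ U, z U ∂(Pm μ) with hm
  have bG : BM fun U => q U / z U := by
    refine ⟨bq.meas.div bz.meas, ?_⟩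
    obtain ⟨c, hc⟩ := hg.bdd
    refine ⟨c, fun U => ?_⟩
    have h0 := average_diff (Pm μ) (Pm μ) (f1 := fun W => g (merge S' W (merge S U v)))
      (w1 := fun W => H (merge S' W (merge S U v))) (f2 := fun _ : ι → G => (0 : ℝ))
      (w2 := fun _ => 1) (hg.comp (measurable_merge S' _)) (hH.bm.comp (measurable_merge S' _))
      ⟨measurable_const, 0, fun _ => by simp⟩ ⟨measurable_const, 1, fun _ => by simp⟩
      (fun W => hH.pos _) (fun _ => one_pos) (hz0 U) (by simp) (K := c)
      (fun W _ => by rw [sub_zero]; exact hc _)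
    simp only [zero_mul, integral_zero, zero_div, sub_zero] at h0
    exact h0
  have hGm : ∀ U, |q U / z U - m| ≤ δ * ρ ^ R * ∑ y, D y := by
    intro U
    have h0 := average_diff (Pm μ) (Pm μ) (f1 := fun W => q W / z W) (w1 := z)
      (f2 := fun _ : ι → G => q U / z U) (w2 := fun _ => 1) bG bz
      ⟨measurable_const, _, fun _ => le_rfl⟩ ⟨measurable_const, 1, fun _ => by simp⟩
      hz0 (fun _ => one_pos) hZ (by simp) (K := δ * ρ ^ R * ∑ y, D y) (fun W _ => hG W U)
    have e1 : ∫ W, q W / z W * z W ∂(Pm μ) = ∫ W, q W ∂(Pm μ) :=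
      integral_congr_ae (Filter.Eventually.of_forall fun W => (hfrac W).symm)
    rw [e1] at h0
    rw [abs_sub_comm]
    simpa using h0
  rw [eZ, eg, ef, efg]
  have e2 : (∫ U, a U * q U ∂(Pm μ)) / (∫ U, z U ∂(Pm μ))
      - (∫ U, a U * z U ∂(Pm μ)) / (∫ U, z U ∂(Pm μ)) * ((∫ U, q U ∂(Pm μ)) / ∫ U, z U ∂(Pm μ))
      = (∫ U, a U * ((q U / z U - m) * z U) ∂(Pm μ)) / ∫ U, z U ∂(Pm μ) := by
    have e3 : ∫ U, a U * ((q U / z U - m) * z U) ∂(Pm μ)
        = ∫ U, a U * q U ∂(Pm μ) - m * ∫ U, a U * z U ∂(Pm μ) := by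
      rw [← integral_const_mul, ← integral_sub ((ba.mul bq).integrable _)
        (((ba.mul bz).integrable _).const_mul _)]
      refine integral_congr_ae (Filter.Eventually.of_forall fun U => ?_)
      simp only
      rw [sub_mul, ← hfrac U]
      ring
    rw [e3, hm]
    field_simp
  rw [e2, abs_div, abs_of_pos hZ, div_le_iff₀ hZ, ← integral_const_mul]
  rw [← Real.norm_eq_abs]
  refine norm_integral_le_of_norm_le ((bz.integrable _).const_mul _)
    (Filter.Eventually.of_forall fun U => ?_)
  rw [Real.norm_eq_abs, abs_mul, abs_mul, abs_of_pos (hz0 U), ← mul_assoc]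
  refine mul_le_mul_of_nonneg_right ?_ (hz0 U).le
  exact mul_le_mul (hK _) (hGm U) (abs_nonneg _) ((abs_nonneg _).trans (hK (merge S U v)))

end Pool.Agent.H556R4.Cluster
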