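import Pool.Agent.H556R4.Word
import Pool.Agent.H556R4.Cluster

/-!
# Axial gauge for SU(2) lattice gauge theory on (finite complex) x (time)
-/

namespace Pool.Agent.H556R4.Axial

open MeasureTheory Quaternion Dob SU2 Function Word

set_option linter.unusedSectionVars false

variable {X E P : Type} {T : ℕ}

/-- temporal plaquette -/
noncomputable def tplaq (src tgt : E → X) (V : Fin T → X → S3) (U : Fin (T + 1) × E → S3)
    (t : Fin T) (e : E) : S3 :=
  V t (src e) * U (t.succ, e) * (V t (tgt e))⁻¹ * (U (t.castSucc, e))⁻¹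

/-- spatial plaquette -/
noncomputable def splaq (q : P → Fin 4 → E) (U : Fin (T + 1) × E → S3) (t : Fin (T + 1)) (p : P) :
    S3 :=
  U (t, q p 0) * U (t, q p 1) * (U (t, q p 2))⁻¹ * (U (t, q p 3))⁻¹

/-- Gibbs weight -/
noncomputable def weight [Fintype E] [Fintype P] (src tgt : E → X) (q : P → Fin 4 → E)
    (βs : Fin (T + 1) → P → ℝ) (βt : Fin T → E → ℝ)
    (c : (Fin T → X → S3) × (Fin (T + 1) × E → S3)) : ℝ :=
  (∏ t, ∏ p, Real.exp (βs t p * (splaq q c.2 t p : ℍ[ℝ]).re))
    * ∏ t, ∏ e, Real.exp (βt t e * (tplaq src tgt c.1 c.2 t e : ℍ[ℝ]).re)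

/-- gauge action on spatial links -/
noncomputable def actU (src tgt : E → X) (h : Fin (T + 1) → X → S3) (U : Fin (T + 1) × E → S3) :
    Fin (T + 1) × E → S3 :=
  fun i => h i.1 (src i.2) * U i * (h i.1 (tgt i.2))⁻¹

/-- gauge action on temporal links -/
noncomputable def actV (h : Fin (T + 1) → X → S3) (V : Fin T → X → S3) : Fin T → X → S3 :=
  fun t x => h t.castSucc x * V t x * (h t.succ x)⁻¹

/-- the gauge transformation which trivialises the temporal links -/
noncomputable def ax (V : Fin T → X → S3) : Fin (T + 1) → X → S3 :=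
  fun t x => Fin.partialProd (fun s => V s x) t

lemma actV_ax (V : Fin T → X → S3) : actV (ax V) V = fun _ _ => 1 := by
  funext t x
  simp only [actV, ax, Fin.partialProd_succ]
  exact mul_inv_cancel _

lemma weight_inv [Fintype E] [Fintype P] {src tgt : E → X} {q : P → Fin 4 → E}
    (h1 : ∀ p, tgt (q p 0) = src (q p 1)) (h2 : ∀ p, tgt (q p 1) = tgt (q p 2))
    (h3 : ∀ p, src (q p 2) = tgt (q p 3)) (h4 : ∀ p, src (q p 3) = src (q p 0))
    (βs : Fin (T + 1) → P → ℝ) (βt : Fin T → E → ℝ) (h : Fin (T + 1) → X → S3)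
    (V : Fin T → X → S3) (U : Fin (T + 1) × E → S3) :
    weight src tgt q βs βt (actV h V, actU src tgt h U) = weight src tgt q βs βt (V, U) := by
  unfold weight
  have hre : ∀ a b : S3, ((a * b * a⁻¹ : S3) : ℍ[ℝ]).re = (b : ℍ[ℝ]).re := fun a b => by
    rw [coe_conj, re_conj]
  congr 1
  · refine Finset.prod_congr rfl fun t _ => Finset.prod_congr rfl fun p _ => ?_
    have e : splaq q (actU src tgt h U) t p
        = h t (src (q p 0)) * splaq q U t p * (h t (src (q p 0)))⁻¹ := by
      simp only [splaq, actU, h1, h2, h3, h4]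
      group
    simp only
    rw [e, hre]
  · refine Finset.prod_congr rfl fun t _ => Finset.prod_congr rfl fun e _ => ?_
    have e : tplaq src tgt (actV h V) (actU src tgt h U) t e
        = h t.castSucc (src e) * tplaq src tgt V U t e * (h t.castSucc (src e))⁻¹ := by
      simp only [tplaq, actU, actV]
      group
    simp only
    rw [e, hre]

/-- the words of the axial gauge -/
def wd (q : P → Fin 4 → E) :
    (Fin (T + 1) × P) ⊕ (Fin T × E) → List ((Fin (T + 1) × E) × Bool)
  | Sum.inl a => [((a.1, q a.2 0), true), ((a.1, q a.2 1), true), ((a.1, q a.2 2), false),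
      ((a.1, q a.2 3), false)]
  | Sum.inr a => [((a.1.succ, a.2), true), ((a.1.castSucc, a.2), false)]

/-- couplings -/
def cp (βs : Fin (T + 1) → P → ℝ) (βt : Fin T → E → ℝ) : (Fin (T + 1) × P) ⊕ (Fin T × E) → ℝ
  | Sum.inl a => βs a.1 a.2
  | Sum.inr a => βt a.1 a.2

variable [Fintype E] [DecidableEq E] [Fintype P]

lemma weight_one (src tgt : E → X) (q : P → Fin 4 → E) (βs : Fin (T + 1) → P → ℝ)
    (βt : Fin T → E → ℝ) (U : Fin (T + 1) × E → S3) :
    weight src tgt q βs βt (fun _ _ => 1, U) = wt (wd q) (cp βs βt) U := by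
  unfold weight wt
  rw [Fintype.prod_sum_type, Fintype.prod_prod_type, Fintype.prod_prod_type]
  congr 1
  · refine Finset.prod_congr rfl fun t _ => Finset.prod_congr rfl fun p _ => ?_
    have : word U (wd q (Sum.inl (t, p))) = splaq q U t p := by
      simp [word, wd, lett, splaq, mul_assoc]
    rw [this]
    rfl
  · refine Finset.prod_congr rfl fun t _ => Finset.prod_congr rfl fun e _ => ?_
    have : word U (wd q (Sum.inr (t, e))) = tplaq src tgt (fun _ _ => 1) U t e := by
      simp [word, wd, lett, tplaq]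
    rw [this]
    rfl

lemma wd_nodup {q : P → Fin 4 → E} (hq : ∀ p, Function.Injective (q p))
    (a : (Fin (T + 1) × P) ⊕ (Fin T × E)) : (supp (wd q a)).Nodup := by
  rcases a with ⟨t, p⟩ | ⟨t, e⟩
  · have h : ∀ i j : Fin 4, i ≠ j → q p i ≠ q p j := fun i j hij h => hij (hq p h)
    simp [supp, wd, h 0 1 (by decide), h 0 2 (by decide), h 0 3 (by decide), h 1 2 (by decide),
      h 1 3 (by decide), h 2 3 (by decide)]
  · simp only [supp, wd, List.map_cons, List.map_nil, List.nodup_cons, List.mem_cons,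
      List.not_mem_nil, or_false, not_false_eq_true, List.nodup_nil, and_true]
    intro h
    have h1 := congrArg Prod.fst h
    have h2 := congrArg Fin.val h1
    simp at h2

/-- number of letters different from `x` -/
lemma card_supp {ι : Type} [Fintype ι] [DecidableEq ι] {l : List (ι × Bool)} (hn : (supp l).Nodup)
    {x : ι} (hx : x ∈ supp l) :
    ∑ y ∈ Finset.univ.erase x, (if y ∈ supp l then (1 : ℝ) else 0) = (l.length : ℝ) - 1 := by
  rw [← Finset.sum_filter, Finset.sum_const, nsmul_eq_mul, mul_one]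
  have e : (Finset.univ.erase x).filter (fun y => y ∈ supp l) = (supp l).toFinset.erase x := by
    ext y
    simp
  rw [e, Finset.card_erase_of_mem (List.mem_toFinset.2 hx), List.toFinset_card_of_nodup hn]
  have hl : (supp l).length = l.length := by simp [supp]
  have hpos : 1 ≤ l.length := by
    rw [← hl]
    exact List.length_pos_of_mem hx
  rw [hl, Nat.cast_sub hpos, Nat.cast_one]

lemma row_sum {ι Q : Type} [Fintype ι] [DecidableEq ι] [Fintype Q] {L : Q → List (ι × Bool)}
    (hn : ∀ p, (supp (L p)).Nodup) (β : Q → ℝ) (x : ι) :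
    ∑ y ∈ Finset.univ.erase x, cpl L β x y
      = ∑ p, if x ∈ supp (L p) then |β p| * (((L p).length : ℝ) - 1) else 0 := by
  unfold cpl
  rw [Finset.sum_comm]
  refine Finset.sum_congr rfl fun p _ => ?_
  by_cases hx : x ∈ supp (L p)
  · simp only [hx, true_and, if_true]
    rw [← card_supp (hn p) hx, Finset.mul_sum]
    refine Finset.sum_congr rfl fun y _ => ?_
    split_ifs <;> simp
  · simp [hx]

/-- row sums in the axial gauge -/
lemma row_axial {q : P → Fin 4 → E} (hq : ∀ p, Function.Injective (q p)) {m : ℕ}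
    (hm : ∀ e, (Finset.univ.filter fun p => ∃ i, q p i = e).card ≤ m)
    {βs : Fin (T + 1) → P → ℝ} {βt : Fin T → E → ℝ} {bs bt : ℝ} (hbs : ∀ t p, |βs t p| ≤ bs)
    (hbt : ∀ t e, |βt t e| ≤ bt) (hbs0 : 0 ≤ bs) (hbt0 : 0 ≤ bt) (x : Fin (T + 1) × E) :
    ∑ y ∈ Finset.univ.erase x, cpl (wd q) (cp βs βt) x y ≤ 3 * m * bs + 2 * bt := by
  rw [row_sum (wd_nodup hq), Fintype.sum_sum_type]
  obtain ⟨t0, e0⟩ := x
  refine add_le_add ?_ ?_
  · -- spatial plaquettes
    have h1 : ∀ a : Fin (T + 1) × P,
        (if (t0, e0) ∈ supp (wd q (Sum.inl a : (Fin (T + 1) × P) ⊕ (Fin T × E))) then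
          |cp βs βt (Sum.inl a)| * (((wd q (Sum.inl a : (Fin (T + 1) × P) ⊕ (Fin T × E))).length : ℝ)
            - 1) else 0)
        ≤ if a.1 = t0 ∧ ∃ i, q a.2 i = e0 then 3 * bs else 0 := by
      rintro ⟨t, p⟩
      by_cases h : (t0, e0) ∈ supp (wd q (Sum.inl (t, p) : (Fin (T + 1) × P) ⊕ (Fin T × E)))
      · rw [if_pos h]
        have h2 : t = t0 ∧ ∃ i, q p i = e0 := by
          simp only [supp, wd, List.map_cons, List.map_nil, List.mem_cons, Prod.mk.injEq,
            List.not_mem_nil, or_false] at h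
          rcases h with h | h | h | h
          · exact ⟨h.1.symm, 0, h.2.symm⟩
          · exact ⟨h.1.symm, 1, h.2.symm⟩
          · exact ⟨h.1.symm, 2, h.2.symm⟩
          · exact ⟨h.1.symm, 3, h.2.symm⟩
        rw [if_pos h2]
        have h3 := hbs t p
        simp only [cp, wd, List.length_cons, List.length_nil]
        push_cast
        nlinarith
      · rw [if_neg h]
        split_ifs <;> positivity
    refine le_trans (Finset.sum_le_sum (g := fun a : Fin (T + 1) × P =>
      if a.1 = t0 ∧ ∃ i, q a.2 i = e0 then 3 * bs else 0) fun a _ => ?_) ?_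
    · convert h1 a
      rfl
    rw [← Finset.sum_filter, Finset.sum_const, nsmul_eq_mul]
    have h4 : (Finset.univ.filter fun a : Fin (T + 1) × P => a.1 = t0 ∧ ∃ i, q a.2 i = e0).card
        ≤ m := by
      refine le_trans ?_ (hm e0)
      refine Finset.card_le_card_of_injOn (fun a => a.2) ?_ ?_
      · intro a ha
        simp only [Finset.coe_filter, Finset.mem_univ, true_and, Set.mem_ofPred_eq] at ha ⊢
        exact ha.2
      · intro a ha b hb hab
        simp only [Finset.coe_filter, Finset.mem_univ, true_and, Set.mem_ofPred_eq] at ha hb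
        exact Prod.ext (ha.1.trans hb.1.symm) hab
    have h5 : ((Finset.univ.filter fun a : Fin (T + 1) × P =>
        a.1 = t0 ∧ ∃ i, q a.2 i = e0).card : ℝ) ≤ m := by exact_mod_cast h4
    nlinarith
  · have h1 : ∀ a : Fin T × E,
        (if (t0, e0) ∈ supp (wd q (Sum.inr a : (Fin (T + 1) × P) ⊕ (Fin T × E))) then
          |cp βs βt (Sum.inr a)| * (((wd q (Sum.inr a : (Fin (T + 1) × P) ⊕ (Fin T × E))).length : ℝ)
            - 1) else 0)
        ≤ (if (a.1.succ, a.2) = (t0, e0) then bt else 0)
          + if (a.1.castSucc, a.2) = (t0, e0) then bt else 0 := by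
      rintro ⟨t, e⟩
      by_cases h : (t0, e0) ∈ supp (wd q (Sum.inr (t, e) : (Fin (T + 1) × P) ⊕ (Fin T × E)))
      · rw [if_pos h]
        have h3 := hbt t e
        have h6 : |cp βs βt (Sum.inr (t, e))|
            * (((wd q (Sum.inr (t, e) : (Fin (T + 1) × P) ⊕ (Fin T × E))).length : ℝ) - 1) ≤ bt := by
          simp only [cp, wd, List.length_cons, List.length_nil]
          push_cast
          linarith
        refine h6.trans ?_
        simp only [supp, wd, List.map_cons, List.map_nil, List.mem_cons,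
            List.not_mem_nil, or_false] at h
        rcases h with h | h
        · rw [if_pos h.symm]
          split_ifs <;> linarith
        · rw [if_pos h.symm]
          split_ifs <;> linarith
      · rw [if_neg h]
        split_ifs <;> positivity
    refine le_trans (Finset.sum_le_sum (g := fun a : Fin T × E =>
      (if (a.1.succ, a.2) = (t0, e0) then bt else 0)
          + if (a.1.castSucc, a.2) = (t0, e0) then bt else 0) fun a _ => ?_) ?_
    · convert h1 a
      rfl
    rw [Finset.sum_add_distrib, two_mul]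
    refine add_le_add ?_ ?_
    · rw [← Finset.sum_filter, Finset.sum_const, nsmul_eq_mul]
      have h4 : (Finset.univ.filter fun a : Fin T × E => (a.1.succ, a.2) = (t0, e0)).card ≤ 1 := by
        refine Finset.card_le_one.2 fun a ha b hb => ?_
        simp only [Finset.mem_filter, Finset.mem_univ, true_and, Prod.mk.injEq] at ha hb
        exact Prod.ext (Fin.succ_injective _ (ha.1.trans hb.1.symm)) (ha.2.trans hb.2.symm)
      have h5 : ((Finset.univ.filter fun a : Fin T × E =>
        (a.1.succ, a.2) = (t0, e0)).card : ℝ) ≤ 1 := by exact_mod_cast h4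
      nlinarith
    · rw [← Finset.sum_filter, Finset.sum_const, nsmul_eq_mul]
      have h4 : (Finset.univ.filter fun a : Fin T × E => (a.1.castSucc, a.2) = (t0, e0)).card
          ≤ 1 := by
        refine Finset.card_le_one.2 fun a ha b hb => ?_
        simp only [Finset.mem_filter, Finset.mem_univ, true_and, Prod.mk.injEq] at ha hb
        exact Prod.ext (Fin.castSucc_injective _ (ha.1.trans hb.1.symm)) (ha.2.trans hb.2.symm)
      have h5 : ((Finset.univ.filter fun a : Fin T × E =>
        (a.1.castSucc, a.2) = (t0, e0)).card : ℝ) ≤ 1 := by exact_mod_cast h4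
      nlinarith

lemma pow_sum {ι : Type} [Fintype ι] [DecidableEq ι] {C : ι → ι → ℝ} (hC0 : ∀ x y, 0 ≤ C x y)
    {ρ : ℝ} (hρ0 : 0 ≤ ρ) (hρ1 : ρ < 1) (hrow : ∀ x, ∑ y ∈ Finset.univ.erase x, C x y ≤ ρ)
    {r : ι → ℕ} (hr : ∀ x y, C x y ≠ 0 → r x ≤ r y + 1) (x : ι) :
    ∑ y ∈ Finset.univ.erase x, C x y * ρ ^ r y ≤ ρ ^ r x := by
  have h2 : ∀ y ∈ Finset.univ.erase x, C x y * ρ ^ r y ≤ C x y * ρ ^ (r x - 1) := by
    intro y _
    by_cases h0 : C x y = 0
    · simp [h0]
    · refine mul_le_mul_of_nonneg_left ?_ (hC0 _ _)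
      refine pow_le_pow_of_le_one hρ0 hρ1.le ?_
      have := hr x y h0
      omega
  refine (Finset.sum_le_sum h2).trans ?_
  rw [← Finset.sum_mul]
  calc _ ≤ ρ * ρ ^ (r x - 1) := mul_le_mul_of_nonneg_right (hrow x) (by positivity)
    _ = ρ ^ (r x - 1 + 1) := by rw [pow_succ]; ring
    _ ≤ ρ ^ r x := pow_le_pow_of_le_one hρ0 hρ1.le (by omega)

end Pool.Agent.H556R4.Axial
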