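import Mathlib

/-!
# A finite-volume Dobrushin comparison theorem
-/

namespace Pool.Agent.H556R4.Dob

open MeasureTheory Function

set_option linter.unusedSectionVars false

variable {ι G : Type} [Fintype ι] [DecidableEq ι] [MeasurableSpace G]

/-- `merge S U V` is `U` on `S` and `V` off `S`. -/
def merge (S : Finset ι) (U V : ι → G) : ι → G := fun i => if i ∈ S then U i else V i

/-- a bounded cost function on the fibre -/
structure Cost (d : G → G → ℝ) (δ : ℝ) : Prop where
  nonneg : ∀ g g', 0 ≤ d g g'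
  le : ∀ g g', d g g' ≤ δ
  self : ∀ g, d g g = 0

/-- Lipschitz bounds with respect to the cost `d` in every coordinate -/
def Osc (d : G → G → ℝ) (f : (ι → G) → ℝ) (D : ι → ℝ) : Prop :=
  (∀ x, 0 ≤ D x) ∧ ∀ x V g, |f (update V x g) - f V| ≤ D x * d g (V x)

lemma update_merge {S : Finset ι} {x : ι} (hx : x ∈ S) (U V : ι → G) (g : G) :
    update (merge S U V) x g = merge S (update U x g) V := by
  funext i
  by_cases hi : i = x
  · subst hi; simp [merge, hx]
  · simp [merge, hi]

lemma measurable_merge (S : Finset ι) (V : ι → G) : Measurable fun U : ι → G => merge S U V := by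
  refine measurable_pi_lambda _ fun i => ?_
  by_cases h : i ∈ S
  · simpa [merge, h] using measurable_pi_apply i
  · simp [merge, h]

lemma measurable_update_pair (x : ι) : Measurable fun p : (ι → G) × G => update p.1 x p.2 := by
  refine measurable_pi_lambda _ fun i => ?_
  by_cases h : i = x
  · subst h; simpa using measurable_snd
  · simp only [update_of_ne h]
    exact (measurable_pi_apply i).comp measurable_fst

variable (μ : Measure G) [IsProbabilityMeasure μ]

/-- the product measure -/
noncomputable abbrev Pm : Measure (ι → G) := Measure.pi fun _ => μ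

/-- resampling one coordinate preserves the product measure -/
lemma measurePreserving_update (x : ι) :
    MeasurePreserving (fun p : (ι → G) × G => update p.1 x p.2)
      ((Pm μ).prod μ) (Pm μ : Measure (ι → G)) := by
  refine ⟨measurable_update_pair x, ?_⟩
  refine (Measure.pi_eq fun s hs => ?_).symm
  rw [Measure.map_apply (measurable_update_pair x) (MeasurableSet.univ_pi hs)]
  have h : (fun p : (ι → G) × G => update p.1 x p.2) ⁻¹' (Set.univ.pi s)
      = (Set.univ.pi (update s x Set.univ)) ×ˢ (s x) := by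
    ext p
    simp only [Set.mem_preimage, Set.mem_pi, Set.mem_univ, true_implies, Set.mem_prod]
    constructor
    · intro hp
      refine ⟨fun i => ?_, by simpa using hp x⟩
      by_cases hi : i = x
      · subst hi; simp
      · simpa [hi] using hp i
    · rintro ⟨h1, h2⟩ i
      by_cases hi : i = x
      · subst hi; simpa using h2
      · simpa [hi] using h1 i
  rw [h, Measure.prod_prod, Measure.pi_pi, ← Finset.prod_erase_mul _ _ (Finset.mem_univ x),
    ← Finset.prod_erase_mul Finset.univ (fun i => μ (s i)) (Finset.mem_univ x)]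
  simp only [update_self, measure_univ, mul_one]
  congr 1
  refine Finset.prod_congr rfl fun i hi => ?_
  rw [update_of_ne (Finset.ne_of_mem_erase hi)]

/-- bounded measurable functions -/
structure BM {α : Type} [MeasurableSpace α] (f : α → ℝ) : Prop where
  meas : Measurable f
  bdd : ∃ c, ∀ a, |f a| ≤ c

lemma BM.integrable {α : Type} [MeasurableSpace α] {f : α → ℝ} (hf : BM f) (ν : Measure α)
    [IsFiniteMeasure ν] : Integrable f ν := by
  obtain ⟨c, hc⟩ := hf.bdd
  exact Integrable.of_bound hf.meas.aestronglyMeasurable c (Filter.Eventually.of_forall hc)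

lemma BM.mul {α : Type} [MeasurableSpace α] {f g : α → ℝ} (hf : BM f) (hg : BM g) :
    BM fun a => f a * g a := by
  obtain ⟨c, hc⟩ := hf.bdd
  obtain ⟨d, hd⟩ := hg.bdd
  refine ⟨hf.meas.mul hg.meas, c * d, fun a => ?_⟩
  rw [abs_mul]
  exact mul_le_mul (hc a) (hd a) (abs_nonneg _) ((abs_nonneg _).trans (hc a))

lemma BM.comp {α β : Type} [MeasurableSpace α] [MeasurableSpace β] {f : α → ℝ} (hf : BM f)
    {g : β → α} (hg : Measurable g) : BM fun b => f (g b) := by
  obtain ⟨c, hc⟩ := hf.bdd
  exact ⟨hf.meas.comp hg, c, fun b => hc _⟩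

lemma integral_update (x : ι) (φ : (ι → G) → ℝ) (hφ : BM φ) :
    ∫ U, φ U ∂(Pm μ) = ∫ U, ∫ g, φ (update U x g) ∂μ ∂(Pm μ : Measure (ι → G)) := by
  have h := (measurePreserving_update μ x (ι := ι))
  conv_lhs => rw [← h.map_eq]
  rw [integral_map h.measurable.aemeasurable hφ.meas.aestronglyMeasurable]
  exact integral_prod _ ((hφ.comp h.measurable).integrable _)

/-- admissible densities -/
structure Dens (H : (ι → G) → ℝ) : Prop where
  meas : Measurable H
  lb : ∃ m, 0 < m ∧ ∀ V, m ≤ H V
  ub : ∃ M, ∀ V, H V ≤ M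

lemma Dens.pos {H : (ι → G) → ℝ} (hH : Dens H) (V : ι → G) : 0 < H V := by
  obtain ⟨m, hm, h⟩ := hH.lb
  exact hm.trans_le (h V)

lemma Dens.bm {H : (ι → G) → ℝ} (hH : Dens H) : BM H := by
  obtain ⟨M, h⟩ := hH.ub
  exact ⟨hH.meas, M, fun V => by rw [abs_of_pos (hH.pos V)]; exact h V⟩

lemma measurable_update_right (x : ι) (V : ι → G) : Measurable fun g => update V x g :=
  (measurable_update_pair x).comp (measurable_const.prodMk measurable_id)

/-- positivity of integrals of densities -/
lemma integral_pos_of_lb {α : Type} [MeasurableSpace α] (ν : Measure α) [IsProbabilityMeasure ν]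
    {h : α → ℝ} (hb : BM h) {m : ℝ} (hm : 0 < m) (hl : ∀ a, m ≤ h a) : 0 < ∫ a, h a ∂ν := by
  refine hm.trans_le ?_
  have := integral_mono (μ := ν) (integrable_const m) (hb.integrable ν) hl
  simpa using this

variable {H : (ι → G) → ℝ}

lemma Dens.site_bm (hH : Dens H) (x : ι) (V : ι → G) : BM fun g => H (update V x g) :=
  hH.bm.comp (measurable_update_right x V)

lemma Dens.site_pos (hH : Dens H) (x : ι) (V : ι → G) : 0 < ∫ g, H (update V x g) ∂μ := by
  obtain ⟨m, hm, h⟩ := hH.lb
  exact integral_pos_of_lb μ (hH.site_bm x V) hm fun g => h _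

/-- conditional density at `x` -/
noncomputable def dens (H : (ι → G) → ℝ) (x : ι) (V : ι → G) (g : G) : ℝ :=
  H (update V x g) / ∫ g', H (update V x g') ∂μ

/-- conditional expectation at `x` -/
noncomputable def cond (H : (ι → G) → ℝ) (x : ι) (f : (ι → G) → ℝ) (V : ι → G) : ℝ :=
  ∫ g, f (update V x g) * dens μ H x V g ∂μ

lemma dens_update (x : ι) (V : ι → G) (k g : G) : dens μ H x (update V x k) g = dens μ H x V g := by
  simp [dens]

lemma cond_update (x : ι) (f : (ι → G) → ℝ) (V : ι → G) (k : G) :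
    cond μ H x f (update V x k) = cond μ H x f V := by
  simp [cond, dens_update]

lemma dens_bm (hH : Dens H) (x : ι) (V : ι → G) : BM (dens μ H x V) := by
  have h := (hH.site_bm x V).mul (g := fun _ => (∫ g', H (update V x g') ∂μ)⁻¹)
    ⟨measurable_const, _, fun _ => le_rfl⟩
  exact h

lemma dens_nonneg (hH : Dens H) (x : ι) (V : ι → G) (g : G) : 0 ≤ dens μ H x V g :=
  div_nonneg (hH.pos _).le (hH.site_pos μ x V).le

lemma integral_dens (hH : Dens H) (x : ι) (V : ι → G) : ∫ g, dens μ H x V g ∂μ = 1 := by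
  simp only [dens]
  rw [integral_div, div_self (hH.site_pos μ x V).ne']

/-- a function measurable in all variables -/
lemma measurable_site_integral (x : ι) {φ : (ι → G) → ℝ} (hφ : BM φ) :
    Measurable fun V : ι → G => ∫ g, φ (update V x g) ∂μ := by
  have h : StronglyMeasurable fun p : (ι → G) × G => φ (update p.1 x p.2) :=
    (hφ.meas.comp (measurable_update_pair x)).stronglyMeasurable
  exact h.integral_prod_right.measurable

lemma cond_eq (x : ι) (f : (ι → G) → ℝ) (V : ι → G) :
    cond μ H x f V = (∫ g, f (update V x g) * H (update V x g) ∂μ) / ∫ g', H (update V x g') ∂μ := by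
  rw [cond, ← integral_div]
  refine integral_congr_ae (Filter.Eventually.of_forall fun g => ?_)
  simp only [dens]
  ring

lemma cond_bm (hH : Dens H) (x : ι) {f : (ι → G) → ℝ} (hf : BM f) : BM (cond μ H x f) := by
  refine ⟨?_, ?_⟩
  · have e : cond μ H x f = fun V => (∫ g, f (update V x g) * H (update V x g) ∂μ)
        / ∫ g', H (update V x g') ∂μ := funext fun V => cond_eq μ x f V
    rw [e]
    exact (measurable_site_integral μ x (hf.mul hH.bm)).div (measurable_site_integral μ x hH.bm)
  · obtain ⟨c, hc⟩ := hf.bdd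
    refine ⟨c, fun V => ?_⟩
    have h1 : |cond μ H x f V| ≤ ∫ g, |f (update V x g) * dens μ H x V g| ∂μ :=
      abs_integral_le_integral_abs
    have h2 : ∫ g, |f (update V x g) * dens μ H x V g| ∂μ ≤ ∫ g, c * dens μ H x V g ∂μ := by
      refine integral_mono ?_ ?_ fun g => ?_
      · exact (((hf.comp (measurable_update_right x V)).mul (dens_bm μ hH x V)).integrable μ).abs
      · exact ((dens_bm μ hH x V).integrable μ).const_mul c
      · rw [abs_mul, abs_of_nonneg (dens_nonneg μ hH x V g)]
        exact mul_le_mul_of_nonneg_right (hc _) (dens_nonneg μ hH x V g)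
    rw [integral_const_mul, integral_dens μ hH, mul_one] at h2
    exact h1.trans h2

/-- unnormalised expectation with the sites off `S` frozen to `v` -/
noncomputable def I (S : Finset ι) (H : (ι → G) → ℝ) (v : ι → G) (f : (ι → G) → ℝ) : ℝ :=
  ∫ U, f (merge S U v) * H (merge S U v) ∂(Pm μ)

/-- normalisation -/
noncomputable def Z (S : Finset ι) (H : (ι → G) → ℝ) (v : ι → G) : ℝ :=
  ∫ U, H (merge S U v) ∂(Pm μ)

lemma Z_pos (hH : Dens H) (S : Finset ι) (v : ι → G) : 0 < Z μ S H v := by
  obtain ⟨m, hm, h⟩ := hH.lb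
  exact integral_pos_of_lb _ (hH.bm.comp (measurable_merge S v)) hm fun U => h _

lemma I_cond (hH : Dens H) {S : Finset ι} {x : ι} (hx : x ∈ S) (v : ι → G) {f : (ι → G) → ℝ}
    (hf : BM f) : I μ S H v (cond μ H x f) = I μ S H v f := by
  rw [I, I, integral_update μ x _ (((cond_bm μ hH x hf).mul hH.bm).comp (measurable_merge S v)),
    integral_update μ x _ ((hf.mul hH.bm).comp (measurable_merge S v))]
  refine integral_congr_ae (Filter.Eventually.of_forall fun U => ?_)
  simp only [← update_merge hx, cond_update]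
  rw [integral_const_mul, cond_eq, div_mul_cancel₀ _ (hH.site_pos μ x _).ne']


lemma nonempty_G {G : Type} [MeasurableSpace G] (μ : Measure G) [IsProbabilityMeasure μ] :
    Nonempty G := by
  by_contra h
  rw [not_nonempty_iff] at h
  have := measure_univ (μ := μ)
  rw [Set.eq_empty_of_isEmpty (Set.univ : Set G), measure_empty] at this
  exact zero_ne_one this

lemma exists_mid [Nonempty G] {φ : G → ℝ} {D : ℝ} (h : ∀ g g', |φ g - φ g'| ≤ D) :
    ∃ c, ∀ g, |φ g - c| ≤ D / 2 := by
  obtain ⟨g0⟩ := ‹Nonempty G›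
  have hne : (Set.range φ).Nonempty := ⟨φ g0, g0, rfl⟩
  have hub : BddAbove (Set.range φ) := ⟨φ g0 + D, by
    rintro _ ⟨g, rfl⟩
    have := (abs_le.1 (h g g0)).2
    linarith⟩
  have hlb : BddBelow (Set.range φ) := ⟨φ g0 - D, by
    rintro _ ⟨g, rfl⟩
    have := (abs_le.1 (h g g0)).1
    linarith⟩
  have h1 : ∀ g', sSup (Set.range φ) ≤ φ g' + D := by
    intro g'
    refine csSup_le hne ?_
    rintro _ ⟨g, rfl⟩
    have := (abs_le.1 (h g g')).2
    linarith
  have h2 : sSup (Set.range φ) - D ≤ sInf (Set.range φ) := by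
    refine le_csInf hne ?_
    rintro _ ⟨g, rfl⟩
    have := h1 g
    linarith
  refine ⟨(sSup (Set.range φ) + sInf (Set.range φ)) / 2, fun g => ?_⟩
  have h3 := le_csSup hub ⟨g, rfl⟩
  have h4 := csInf_le hlb ⟨g, rfl⟩
  rw [abs_le]
  constructor <;> linarith

/-- The influence of the coordinate `y` on the conditional law at `x` is at most `c`. -/
def Infl (d : G → G → ℝ) (H : (ι → G) → ℝ) (x y : ι) (c : ℝ) : Prop :=
  ∀ (V : ι → G) (k : G) (L : ℝ) (φ : G → ℝ), BM φ → 0 ≤ L → (∀ g g', |φ g - φ g'| ≤ L * d g g') →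
    |∫ g, φ g * dens μ H x (update V y k) g ∂μ - ∫ g, φ g * dens μ H x V g ∂μ|
      ≤ L * c * d k (V y)

variable {d : G → G → ℝ}

lemma osc_cond (hH : Dens H) {f : (ι → G) → ℝ} (hf : BM f) {D : ι → ℝ} (hD : Osc d f D) (x : ι)
    (C : ι → ℝ) (hC0 : ∀ y, 0 ≤ C y) (hC : ∀ y, y ≠ x → Infl μ d H x y (C y))
    (hd : ∀ g g', 0 ≤ d g g') :
    Osc d (cond μ H x f) fun y => if y = x then 0 else D y + C y * D x := by
  refine ⟨fun y => ?_, ?_⟩
  · dsimp only
    split_ifs
    · exact le_rfl
    · exact add_nonneg (hD.1 _) (mul_nonneg (hC0 _) (hD.1 _))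
  intro y V k
  by_cases hy : y = x
  · subst hy
    simp [cond_update]
  · simp only [if_neg hy]
    have hb1 := dens_bm μ hH x (update V y k)
    have hb2 := dens_bm μ hH x V
    have hf1 : BM fun g => f (update (update V y k) x g) :=
      hf.comp (measurable_update_right x _)
    have hf2 : BM fun g => f (update V x g) := hf.comp (measurable_update_right x _)
    have i1 := (hf1.mul hb1).integrable μ
    have i3 := (hf2.mul hb1).integrable μ
    have i4 := hb1.integrable μ
    have e : cond μ H x f (update V y k) - cond μ H x f V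
        = ∫ g, (f (update (update V y k) x g) - f (update V x g)) * dens μ H x (update V y k) g ∂μ
          + (∫ g, f (update V x g) * dens μ H x (update V y k) g ∂μ
            - ∫ g, f (update V x g) * dens μ H x V g ∂μ) := by
      have e1 : ∫ g, (f (update (update V y k) x g) - f (update V x g))
            * dens μ H x (update V y k) g ∂μ
          = ∫ g, f (update (update V y k) x g) * dens μ H x (update V y k) g ∂μ
            - ∫ g, f (update V x g) * dens μ H x (update V y k) g ∂μ := by
        rw [← integral_sub i1 i3]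
        refine integral_congr_ae (Filter.Eventually.of_forall fun g => ?_)
        simp only
        ring
      rw [e1, cond, cond]
      ring
    rw [e, add_mul]
    refine (abs_add_le _ _).trans (add_le_add ?_ ?_)
    · have h1 : |∫ g, (f (update (update V y k) x g) - f (update V x g))
          * dens μ H x (update V y k) g ∂μ|
          ≤ ∫ g, (D y * d k (V y)) * dens μ H x (update V y k) g ∂μ := by
        refine abs_integral_le_integral_abs.trans ?_
        refine integral_mono ?_ (i4.const_mul _) fun g => ?_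
        · have : BM fun g => (f (update (update V y k) x g) - f (update V x g))
              * dens μ H x (update V y k) g := by
            refine BM.mul ⟨hf1.meas.sub hf2.meas, ?_⟩ hb1
            obtain ⟨b, hb⟩ := hf.bdd
            exact ⟨b + b, fun g => (abs_sub _ _).trans (add_le_add (hb _) (hb _))⟩
          exact (this.integrable μ).abs
        · simp only
          rw [abs_mul, abs_of_nonneg (dens_nonneg μ hH x _ g), update_comm hy]
          refine mul_le_mul_of_nonneg_right ?_ (dens_nonneg μ hH x _ g)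
          have := hD.2 y (update V x g) k
          rwa [update_of_ne hy] at this
      rwa [integral_const_mul, integral_dens μ hH, mul_one] at h1
    · have h1 := hC y hy V k (D x) (fun g => f (update V x g)) hf2 (hD.1 x) (fun g g' => by
        have := hD.2 x (update V x g') g
        rwa [update_idem, update_self] at this)
      rwa [mul_comm (D x)] at h1

/-- `a` is an estimate for the pair of boundary conditions `v`, `v'` -/
def P (d : G → G → ℝ) (S : Finset ι) (H : (ι → G) → ℝ) (v v' : ι → G) (a : ι → ℝ) : Prop :=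
  ∀ f D, BM f → Osc d f D →
    |I μ S H v f / Z μ S H v - I μ S H v' f / Z μ S H v'| ≤ ∑ y, a y * D y

lemma P.mono {S : Finset ι} {v v' : ι → G} {a a' : ι → ℝ} (h : P μ d S H v v' a)
    (haa : ∀ y, a y ≤ a' y) : P μ d S H v v' a' := by
  intro f D hf hD
  refine (h f D hf hD).trans (Finset.sum_le_sum fun y _ => ?_)
  exact mul_le_mul_of_nonneg_right (haa y) (hD.1 y)

lemma P.update (hH : Dens H) {S : Finset ι} {v v' : ι → G} {a : ι → ℝ} (h : P μ d S H v v' a)
    {x : ι} (hx : x ∈ S) (C : ι → ℝ) (hC0 : ∀ y, 0 ≤ C y)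
    (hC : ∀ y, y ≠ x → Infl μ d H x y (C y)) (hd : ∀ g g', 0 ≤ d g g') :
    P μ d S H v v' (Function.update a x (∑ y ∈ Finset.univ.erase x, C y * a y)) := by
  intro f D hf hD
  have h1 := h (cond μ H x f) _ (cond_bm μ hH x hf) (osc_cond μ hH hf hD x C hC0 hC hd)
  rw [I_cond μ hH hx v hf, I_cond μ hH hx v' hf] at h1
  refine h1.trans (le_of_eq ?_)
  rw [← Finset.add_sum_erase _ _ (Finset.mem_univ x), ← Finset.add_sum_erase Finset.univ
    (fun y => Function.update a x (∑ y ∈ Finset.univ.erase x, C y * a y) y * D y)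
    (Finset.mem_univ x)]
  simp only [if_true, mul_zero, zero_add, update_self]
  rw [Finset.sum_mul, ← Finset.sum_add_distrib]
  refine Finset.sum_congr rfl fun y hy => ?_
  have hy' := Finset.ne_of_mem_erase hy
  rw [if_neg hy', update_of_ne hy']
  ring

lemma telescope {f : (ι → G) → ℝ} {D : ι → ℝ} (hD : Osc d f D) (V V' : ι → G) (T : Finset ι) :
    |f (merge T V' V) - f V| ≤ ∑ y ∈ T, D y * d (V' y) (V y) := by
  induction T using Finset.induction_on with
  | empty =>
    have : merge ∅ V' V = V := by funext i; simp [merge]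
    rw [this, sub_self, abs_zero, Finset.sum_empty]
  | insert x T hx ih =>
    have e : merge (insert x T) V' V = update (merge T V' V) x (V' x) := by
      funext i
      by_cases hi : i = x
      · subst hi; simp [merge]
      · simp [merge, hi]
    rw [e, Finset.sum_insert hx]
    have h1 := hD.2 x (merge T V' V) (V' x)
    have e2 : merge T V' V x = V x := by simp [merge, hx]
    rw [e2] at h1
    calc _ = |(f (update (merge T V' V) x (V' x)) - f (merge T V' V))
            + (f (merge T V' V) - f V)| := by ring_nf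
      _ ≤ _ := (abs_add_le _ _).trans (add_le_add h1 ih)

/-- averages against densities inherit pointwise bounds -/
lemma average_diff {α β : Type} [MeasurableSpace α] [MeasurableSpace β] (ν : Measure α)
    (ν' : Measure β) [IsProbabilityMeasure ν] [IsProbabilityMeasure ν'] {f1 w1 : α → ℝ}
    {f2 w2 : β → ℝ} (hf1 : BM f1) (hw1 : BM w1) (hf2 : BM f2) (hw2 : BM w2)
    (h1 : ∀ a, 0 < w1 a) (h2 : ∀ a, 0 < w2 a) (p1 : 0 < ∫ a, w1 a ∂ν) (p2 : 0 < ∫ a, w2 a ∂ν')
    {K : ℝ} (hK : ∀ a b, |f1 a - f2 b| ≤ K) :
    |(∫ a, f1 a * w1 a ∂ν) / (∫ a, w1 a ∂ν) - (∫ a, f2 a * w2 a ∂ν') / (∫ a, w2 a ∂ν')| ≤ K := by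
  have key : ∀ b, |(∫ a, f1 a * w1 a ∂ν) / (∫ a, w1 a ∂ν) - f2 b| ≤ K := by
    intro b
    have e : (∫ a, f1 a * w1 a ∂ν) / (∫ a, w1 a ∂ν) - f2 b
        = (∫ a, (f1 a - f2 b) * w1 a ∂ν) / (∫ a, w1 a ∂ν) := by
      rw [eq_div_iff p1.ne', sub_mul, div_mul_cancel₀ _ p1.ne', ← integral_const_mul,
        ← integral_sub ((hf1.mul hw1).integrable ν) ((hw1.integrable ν).const_mul _)]
      refine integral_congr_ae (Filter.Eventually.of_forall fun g => ?_)
      simp only
      ring
    rw [e, abs_div, abs_of_pos p1, div_le_iff₀ p1, ← integral_const_mul]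
    refine abs_integral_le_integral_abs.trans ?_
    refine integral_mono ?_ ((hw1.integrable ν).const_mul _) fun g => ?_
    · refine Integrable.abs (BM.integrable (BM.mul ⟨hf1.meas.sub measurable_const, K, ?_⟩ hw1) ν)
      exact fun a => hK a b
    · simp only
      rw [abs_mul, abs_of_pos (h1 g)]
      exact mul_le_mul_of_nonneg_right (hK g b) (h1 g).le
  set A := (∫ a, f1 a * w1 a ∂ν) / (∫ a, w1 a ∂ν) with hA
  have e : A - (∫ a, f2 a * w2 a ∂ν') / (∫ a, w2 a ∂ν')
      = (∫ a, (A - f2 a) * w2 a ∂ν') / (∫ a, w2 a ∂ν') := by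
    rw [eq_div_iff p2.ne', sub_mul, div_mul_cancel₀ _ p2.ne', ← integral_const_mul,
      ← integral_sub ((hw2.integrable ν').const_mul _) ((hf2.mul hw2).integrable ν')]
    refine integral_congr_ae (Filter.Eventually.of_forall fun g => ?_)
    simp only
    ring
  rw [e, abs_div, abs_of_pos p2, div_le_iff₀ p2, ← integral_const_mul]
  refine abs_integral_le_integral_abs.trans ?_
  refine integral_mono ?_ ((hw2.integrable ν').const_mul _) fun g => ?_
  · refine Integrable.abs (BM.integrable (BM.mul ⟨measurable_const.sub hf2.meas, K, ?_⟩ hw2) ν')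
    exact key
  · simp only
    rw [abs_mul, abs_of_pos (h2 g)]
    exact mul_le_mul_of_nonneg_right (key g) (h2 g).le

/-- starting estimate -/
lemma P.base (hH : Dens H) {S : Finset ι} {v v' : ι → G} {a : ι → ℝ} (ha : ∀ y, 0 ≤ a y)
    {δ : ℝ} (hd : Cost d δ) (ha1 : ∀ y, y ∉ S → d (v y) (v' y) ≤ a y) :
    P μ d S H v v' (fun y => a y + if y ∈ S then δ else 0) := by
  intro f D hf hD
  refine average_diff (Pm μ) (Pm μ) (hf.comp (measurable_merge S v))
    (hH.bm.comp (measurable_merge S v)) (hf.comp (measurable_merge S v'))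
    (hH.bm.comp (measurable_merge S v')) (fun U => hH.pos _) (fun U => hH.pos _)
    (Z_pos μ hH S v) (Z_pos μ hH S v') fun U U' => ?_
  have h := telescope hD (merge S U' v') (merge S U v) Finset.univ
  have e : merge Finset.univ (merge S U v) (merge S U' v') = merge S U v := by
    funext i; simp [merge]
  rw [e] at h
  refine h.trans ?_
  refine Finset.sum_le_sum fun y _ => ?_
  rw [mul_comm]
  refine mul_le_mul_of_nonneg_right ?_ (hD.1 y)
  by_cases hy : y ∈ S
  · simp only [hy, if_true]
    have := hd.le (merge S U v y) (merge S U' v' y)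
    have := ha y
    linarith
  · simp only [hy, if_false, add_zero]
    have e1 : merge S U v y = v y := by simp [merge, hy]
    have e2 : merge S U' v' y = v' y := by simp [merge, hy]
    rw [e1, e2]
    exact ha1 y hy

variable {C : ι → ι → ℝ}

/-- one sweep over the sites of `S` -/
lemma P.sweep (hH : Dens H) {S : Finset ι} {v v' : ι → G} {a : ι → ℝ}
    (hC : ∀ x ∈ S, ∀ y, y ≠ x → Infl μ d H x y (C x y)) (hd : ∀ g g', 0 ≤ d g g')
    (hC0 : ∀ x y, 0 ≤ C x y) {ρ : ℝ} (hρ1 : ρ ≤ 1)
    (hs : ∀ x ∈ S, ∑ y ∈ Finset.univ.erase x, C x y * a y ≤ a x)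
    (hr : ∀ x ∈ S, ∑ y ∈ S.erase x, C x y ≤ ρ)
    {t : ℝ} (ht : 0 ≤ t) (h : P μ d S H v v' (fun y => a y + if y ∈ S then t else 0)) :
    P μ d S H v v' (fun y => a y + if y ∈ S then t * ρ else 0) := by
  have key : ∀ T : Finset ι, T ⊆ S →
      P μ d S H v v' (fun y => a y + if y ∈ S then (if y ∈ T then t * ρ else t) else 0) := by
    intro T
    induction T using Finset.induction_on with
    | empty => intro _; simpa using h
    | insert x T hx ih =>
      intro hT
      have hxS : x ∈ S := hT (Finset.mem_insert_self _ _)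
      have h1 := (ih ((Finset.subset_insert _ _).trans hT)).update μ hH hxS (C x) (hC0 x)
        (hC x hxS) hd
      refine h1.mono μ fun y => ?_
      by_cases hy : y = x
      · subst hy
        rw [Function.update_self]
        simp only [hxS, if_true, Finset.mem_insert, true_or]
        have e : ∑ z ∈ Finset.univ.erase y, C y z *
              (a z + if z ∈ S then (if z ∈ T then t * ρ else t) else 0)
            ≤ ∑ z ∈ Finset.univ.erase y, C y z * a z
              + ∑ z ∈ Finset.univ.erase y, (if z ∈ S then C y z * t else 0) := by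
          rw [← Finset.sum_add_distrib]
          refine Finset.sum_le_sum fun z _ => ?_
          rw [mul_add]
          refine add_le_add le_rfl ?_
          split_ifs
          · exact mul_le_mul_of_nonneg_left (mul_le_of_le_one_right ht hρ1) (hC0 _ _)
          · exact le_rfl
          · rw [mul_zero]
        have e2 : ∑ z ∈ Finset.univ.erase y, (if z ∈ S then C y z * t else 0)
            = (∑ z ∈ S.erase y, C y z) * t := by
          rw [Finset.sum_mul, ← Finset.sum_filter]
          refine Finset.sum_congr ?_ fun _ _ => rfl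
          ext z
          simp
        rw [e2] at e
        refine e.trans (add_le_add (hs y hxS) ?_)
        rw [mul_comm t]
        exact mul_le_mul_of_nonneg_right (hr y hxS) ht
      · rw [Function.update_of_ne hy]
        simp [hy]
  have := key S (Finset.Subset.refl S)
  refine this.mono μ fun y => ?_
  by_cases hy : y ∈ S <;> simp [hy]

/-- Dobrushin comparison -/
theorem comparison (hH : Dens H) {S : Finset ι} {v v' : ι → G} {a : ι → ℝ} (ha : ∀ y, 0 ≤ a y)
    {δ : ℝ} (hδ : 0 ≤ δ) (hd : Cost d δ) (ha1 : ∀ y, y ∉ S → d (v y) (v' y) ≤ a y)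
    (hC : ∀ x ∈ S, ∀ y, y ≠ x → Infl μ d H x y (C x y))
    (hC0 : ∀ x y, 0 ≤ C x y)
    {ρ : ℝ} (hρ0 : 0 ≤ ρ) (hρ1 : ρ < 1)
    (hs : ∀ x ∈ S, ∑ y ∈ Finset.univ.erase x, C x y * a y ≤ a x)
    (hr : ∀ x ∈ S, ∑ y ∈ S.erase x, C x y ≤ ρ) : P μ d S H v v' a := by
  have key : ∀ n : ℕ, P μ d S H v v' (fun y => a y + if y ∈ S then δ * ρ ^ n else 0) := by
    intro n
    induction n with
    | zero => simpa using P.base μ hH ha hd ha1
    | succ n ih =>
      have := ih.sweep μ hH hC hd.nonneg hC0 hρ1.le hs hr (mul_nonneg hδ (pow_nonneg hρ0 n))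
      simpa [pow_succ, mul_assoc] using this
  intro f D hf hD
  have hlim : Filter.Tendsto (fun n : ℕ => ∑ y, (a y + if y ∈ S then δ * ρ ^ n else 0) * D y)
      Filter.atTop (nhds (∑ y, (a y + 0) * D y)) := by
    refine tendsto_finsetSum _ fun y _ => ?_
    refine Filter.Tendsto.mul_const _ (Filter.Tendsto.const_add _ ?_)
    by_cases hy : y ∈ S
    · simpa [hy] using (tendsto_pow_atTop_nhds_zero_of_lt_one hρ0 hρ1).const_mul δ
    · simp [hy]
  have := ge_of_tendsto' hlim fun n => key n f D hf hD
  simpa using this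

/-- comparison for observables with values in a normed space -/
theorem comparison_vec {F : Type} [NormedAddCommGroup F] [NormedSpace ℝ F] [CompleteSpace F]
    {S : Finset ι} {v v' : ι → G} {a : ι → ℝ} (hH : Dens H) (h : P μ d S H v v' a) {f : (ι → G) → F}
    (hf : StronglyMeasurable f) {K : ℝ} (hK : ∀ V, ‖f V‖ ≤ K) {D : ι → ℝ} (hD0 : ∀ x, 0 ≤ D x)
    (hD : ∀ x V g, ‖f (Function.update V x g) - f V‖ ≤ D x * d g (V x)) :
    ‖(Z μ S H v)⁻¹ • ∫ U, H (merge S U v) • f (merge S U v) ∂(Pm μ)
      - (Z μ S H v')⁻¹ • ∫ U, H (merge S U v') • f (merge S U v') ∂(Pm μ)‖ ≤ ∑ y, a y * D y := by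
  set w : F := (Z μ S H v)⁻¹ • ∫ U, H (merge S U v) • f (merge S U v) ∂(Pm μ)
      - (Z μ S H v')⁻¹ • ∫ U, H (merge S U v') • f (merge S U v') ∂(Pm μ) with hw
  obtain ⟨ℓ, hℓ1, hℓ2⟩ := exists_dual_vector'' ℝ w
  have hℓ : ∀ u : F, |ℓ u| ≤ ‖u‖ := fun u => by
    have := ℓ.le_opNorm u
    rw [Real.norm_eq_abs] at this
    exact this.trans (mul_le_of_le_one_left (norm_nonneg _) hℓ1)
  have hint : ∀ v : ι → G, Integrable (fun U => H (merge S U v) • f (merge S U v)) (Pm μ) := by
    intro v
    obtain ⟨M, hM⟩ := hH.bm.bdd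
    refine Integrable.of_bound (C := M * K) ?_ (Filter.Eventually.of_forall fun U => ?_)
    · exact ((hH.meas.comp (measurable_merge S v)).stronglyMeasurable.smul
        (hf.comp_measurable (measurable_merge S v))).aestronglyMeasurable
    · rw [norm_smul, Real.norm_eq_abs]
      exact mul_le_mul (hM _) (hK _) (norm_nonneg _) ((abs_nonneg _).trans (hM (merge S U v)))
  have hcomm : ∀ v : ι → G, ℓ ((Z μ S H v)⁻¹ • ∫ U, H (merge S U v) • f (merge S U v) ∂(Pm μ))
      = I μ S H v (fun V => ℓ (f V)) / Z μ S H v := by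
    intro v
    rw [map_smul, smul_eq_mul, ← ℓ.integral_comp_comm (hint v), I, div_eq_inv_mul]
    congr 1
    refine integral_congr_ae (Filter.Eventually.of_forall fun U => ?_)
    simp only [map_smul, smul_eq_mul]
    ring
  have h1 := h (fun V => ℓ (f V)) D
    ⟨(ℓ.continuous.comp_stronglyMeasurable hf).measurable, K, fun V => (hℓ _).trans (hK _)⟩
    ⟨hD0, fun x V g => by
      rw [← map_sub]
      exact (hℓ _).trans (hD x V g)⟩
  rw [← hcomm, ← hcomm, ← map_sub, ← hw, hℓ2] at h1
  simpa using h1

end Pool.Agent.H556R4.Dob
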