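import Pool.Agent.H556R4.Pair

/-!
# One time layer, and the product of layers
-/

namespace Pool.Agent.H556R4.Layer

open MeasureTheory Function Dob Pair

set_option linter.unusedSectionVars false

variable {G : Type} [Group G] [MeasurableSpace G] [MeasurableMul₂ G] [MeasurableInv G]
  (μ : Measure G) [IsProbabilityMeasure μ] [μ.IsMulLeftInvariant]
variable {X : Type} [Fintype X] [DecidableEq X]
variable {𝒜 : Type} [NormedRing 𝒜] [NormedAlgebra ℂ 𝒜] [CompleteSpace 𝒜]

/-- conditional mean of `f` given that the sites off `S` carry the value `g` -/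
noncomputable def cvec (S : Finset X) (H : (X → G) → ℝ) (f : (X → G) → 𝒜) (g : G) : 𝒜 :=
  (Z μ S H (fun _ => g))⁻¹ • ∫ U, H (merge S U fun _ => g) • f (merge S U fun _ => g) ∂(Pm μ)

lemma merge_mul (S : Finset X) (U : X → G) (z g : G) :
    merge S ((fun _ => z) * U) (fun _ => z * g) = fun i => z * merge S U (fun _ => g) i := by
  funext i
  by_cases h : i ∈ S <;> simp [merge, h]

lemma cvec_mul {H : (X → G) → ℝ} {z : G} (hz : ∀ v : X → G, H (fun i => z * v i) = H v)
    (S : Finset X) {π : G → 𝒜} {ζ : ℂ} (hπ : ∀ g, π (z * g) = ζ • π g) (x : X) (g : G) :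
    cvec μ S H (fun v => π (v x)) (z * g) = ζ • cvec μ S H (fun v => π (v x)) g := by
  have h1 : Z μ S H (fun _ => z * g) = Z μ S H (fun _ => g) := by
    unfold Z
    rw [← integral_mul_left_eq_self _ (fun _ : X => z)]
    refine integral_congr_ae (Filter.Eventually.of_forall fun U => ?_)
    simp only
    rw [merge_mul, hz]
  have h2 : ∫ U, H (merge S U fun _ => z * g) • π (merge S U (fun _ => z * g) x) ∂(Pm μ)
      = ζ • ∫ U, H (merge S U fun _ => g) • π (merge S U (fun _ => g) x) ∂(Pm μ) := by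
    rw [← integral_mul_left_eq_self _ (fun _ : X => z), ← integral_smul]
    refine integral_congr_ae (Filter.Eventually.of_forall fun U => ?_)
    simp only
    rw [merge_mul, hz, hπ, smul_comm]
  unfold cvec
  rw [h1, h2, smul_comm]

/-- decay of the conditional mean -/
theorem cvec_bound {H : (X → G) → ℝ} (hH : Dens H) {z : G}
    (hz : ∀ v : X → G, H (fun i => z * v i) = H v) {d : G → G → ℝ} {δ : ℝ} (hδ : 0 ≤ δ)
    (hd : Cost d δ) {C : X → X → ℝ} (hC : ∀ x y, y ≠ x → Infl μ d H x y (C x y))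
    (hC0 : ∀ x y, 0 ≤ C x y) {ρ : ℝ} (hρ0 : 0 ≤ ρ) (hρ1 : ρ < 1) {r : X → ℕ} {y0 : X}
    (hr0 : r y0 = 0) (hs : ∀ x, ∑ y ∈ Finset.univ.erase x, C x y * ρ ^ r y ≤ ρ ^ r x)
    (hr : ∀ x, ∑ y ∈ Finset.univ.erase x, C x y ≤ ρ) {π : G → 𝒜} (hπm : StronglyMeasurable π)
    {K : ℝ} (hπK : ∀ g, ‖π g‖ ≤ K) {ζ : ℂ} (hπ : ∀ g, π (z * g) = ζ • π g) {L : ℝ} (hL : 0 ≤ L)
    (hπL : ∀ g g', ‖π g - π g'‖ ≤ L * d g g') (x : X) (g : G) :
    ‖ζ - 1‖ * ‖cvec μ (Finset.univ.erase y0) H (fun v => π (v x)) g‖ ≤ L * δ * ρ ^ r x := by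
  have hP : P μ d (Finset.univ.erase y0) H (fun _ => z * g) (fun _ => g) fun y => δ * ρ ^ r y := by
    refine comparison μ hH (fun y => by positivity) hδ hd ?_ (fun x _ y hy => hC x y hy) hC0 hρ0 hρ1
      (fun x _ => ?_) (fun x _ => ?_)
    · intro y hy
      have : y = y0 := by simpa using hy
      rw [this, hr0, pow_zero, mul_one]
      exact hd.le _ _
    · have := mul_le_mul_of_nonneg_left (hs x) hδ
      rw [Finset.mul_sum] at this
      refine le_trans (le_of_eq ?_) this
      refine Finset.sum_congr rfl fun y _ => ?_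
      ring
    · refine le_trans ?_ (hr x)
      refine Finset.sum_le_sum_of_subset_of_nonneg (Finset.erase_subset_erase _
        (Finset.subset_univ _)) fun y _ _ => hC0 x y
  have hD0 : ∀ y : X, 0 ≤ (fun y => if y = x then L else 0) y := fun y => by
    dsimp only; split_ifs <;> simp [hL]
  have hm : StronglyMeasurable fun v : X → G => π (v x) :=
    hπm.comp_measurable (measurable_pi_apply x)
  have h1 := comparison_vec μ hH hP hm (fun V => hπK _) (D := fun y => if y = x then L else 0) hD0
    (fun y V k => by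
      by_cases hy : y = x
      · subst hy
        simpa using hπL k (V y)
      · simp [hy, update_of_ne (Ne.symm hy)])
  have h2 : ∑ y, δ * ρ ^ r y * (if y = x then L else 0) = L * δ * ρ ^ r x := by
    simp only [mul_ite, mul_zero, Finset.sum_ite_eq', Finset.mem_univ, if_true]
    ring
  rw [h2] at h1
  have h3 := cvec_mul μ hz (Finset.univ.erase y0) hπ x g
  change ‖cvec μ (Finset.univ.erase y0) H (fun v => π (v x)) (z * g)
    - cvec μ (Finset.univ.erase y0) H (fun v => π (v x)) g‖ ≤ _ at h1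
  rw [h3] at h1
  calc _ = ‖ζ • cvec μ (Finset.univ.erase y0) H (fun v => π (v x)) g
          - cvec μ (Finset.univ.erase y0) H (fun v => π (v x)) g‖ := by
        rw [← norm_smul, sub_smul, one_smul]
    _ ≤ _ := h1

/-- Fubini for one coordinate, vector valued -/
lemma integral_update_swap {F : Type} [NormedAddCommGroup F] [NormedSpace ℝ F]
    (y : X) {φ : (X → G) → F} (hm : StronglyMeasurable φ) {K : ℝ} (hK : ∀ v, ‖φ v‖ ≤ K) :
    Integrable (fun p : (X → G) × G => φ (update p.1 y p.2)) ((Pm μ).prod μ) ∧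
    ∫ v, φ v ∂(Pm μ) = ∫ g, ∫ U, φ (update U y g) ∂(Pm μ : Measure (X → G)) ∂μ := by
  have h := (measurePreserving_update μ y (ι := X))
  have hi : Integrable (fun p : (X → G) × G => φ (update p.1 y p.2)) ((Pm μ).prod μ) :=
    Integrable.of_bound (hm.comp_measurable h.measurable).aestronglyMeasurable K
      (Filter.Eventually.of_forall fun p => hK _)
  refine ⟨hi, ?_⟩
  conv_lhs => rw [← h.map_eq]
  rw [integral_map h.measurable.aemeasurable hm.aestronglyMeasurable]
  exact integral_prod_symm _ hi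

lemma merge_erase (y : X) (U : X → G) (g : G) :
    merge (Finset.univ.erase y) U (fun _ => g) = update U y g := by
  funext i
  by_cases h : i = y
  · subst h; simp [merge]
  · simp [merge, h]

/-- the bound for the transfer operator of one layer -/
theorem layer_op {H : (X → G) → ℝ} (hH : Dens H) {y0 x : X} {π π' : G → 𝒜}
    (hπm : StronglyMeasurable π) (hπm' : StronglyMeasurable π') {K : ℝ} (hπK : ∀ g, ‖π g‖ ≤ K)
    (hπ' : ∀ g, ‖π' g‖ ≤ 1) {κ : ℝ}
    (hc : ∀ g, ‖cvec μ (Finset.univ.erase y0) H (fun v => π (v x)) g‖ ≤ κ) (B : 𝒜) :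
    ‖∫ v, H v • (π (v x) * B * π' (v y0)) ∂(Pm μ : Measure (X → G))‖
      ≤ κ * ‖B‖ * ∫ v, H v ∂(Pm μ : Measure (X → G)) := by
  obtain ⟨M, hM⟩ := hH.bm.bdd
  have hne : Nonempty G := nonempty_G μ
  obtain ⟨g0⟩ := hne
  have hM0 : 0 ≤ M := (abs_nonneg _).trans (hM fun _ => g0)
  have hK0 : 0 ≤ K := (norm_nonneg _).trans (hπK g0)
  have hκ0 : 0 ≤ κ := (norm_nonneg _).trans (hc g0)
  have sm1 : StronglyMeasurable fun v : X → G => H v • (π (v x) * B * π' (v y0)) := by
    refine hH.meas.stronglyMeasurable.smul ?_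
    exact ((hπm.comp_measurable (measurable_pi_apply x)).mul stronglyMeasurable_const).mul
      (hπm'.comp_measurable (measurable_pi_apply y0))
  have bd1 : ∀ v : X → G, ‖H v • (π (v x) * B * π' (v y0))‖ ≤ M * (K * ‖B‖ * 1) := by
    intro v
    rw [norm_smul, Real.norm_eq_abs]
    refine mul_le_mul (hM _) ?_ (norm_nonneg _) hM0
    refine (norm_mul_le _ _).trans (mul_le_mul ?_ (hπ' _) (norm_nonneg _) (by positivity))
    exact (norm_mul_le _ _).trans (mul_le_mul_of_nonneg_right (hπK _) (norm_nonneg _))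
  have h1 := (integral_update_swap μ y0 sm1 bd1).2
  obtain ⟨hi, h2⟩ := integral_update_swap μ y0 hH.meas.stronglyMeasurable
    (fun v => (by rw [Real.norm_eq_abs]; exact hM v : ‖H v‖ ≤ M))
  rw [h1, h2, ← integral_const_mul]
  refine norm_integral_le_of_norm_le ((hi.integral_prod_right).const_mul _)
    (Filter.Eventually.of_forall fun g => ?_)
  have hZ := Z_pos μ hH (Finset.univ.erase y0) (fun _ => g)
  have hZe : Z μ (Finset.univ.erase y0) H (fun _ => g)
      = ∫ U, H (update U y0 g) ∂(Pm μ : Measure (X → G)) := by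
    unfold Z
    simp only [merge_erase]
  have hint : Integrable (fun U : X → G => H (update U y0 g) • π (update U y0 g x)) (Pm μ) := by
    refine Integrable.of_bound (C := M * K) ?_ (Filter.Eventually.of_forall fun U => ?_)
    · have hu : Measurable fun U : X → G => update U y0 g :=
        (measurable_update_pair y0).comp (measurable_id.prodMk measurable_const)
      exact ((hH.meas.comp hu).stronglyMeasurable.smul
        (hπm.comp_measurable ((measurable_pi_apply x).comp hu))).aestronglyMeasurable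
    · rw [norm_smul, Real.norm_eq_abs]
      exact mul_le_mul (hM _) (hπK _) (norm_nonneg _) hM0
  have e1 : ∫ U, H (update U y0 g) • (π (update U y0 g x) * B * π' (update U y0 g y0))
        ∂(Pm μ : Measure (X → G))
      = (∫ U, H (update U y0 g) • π (update U y0 g x) ∂(Pm μ : Measure (X → G))) * (B * π' g) := by
    have := ((ContinuousLinearMap.mul ℝ 𝒜).flip (B * π' g)).integral_comp_comm hint
    rw [ContinuousLinearMap.flip_apply, ContinuousLinearMap.mul_apply'] at this
    rw [← this]
    refine integral_congr_ae (Filter.Eventually.of_forall fun U => ?_)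
    simp only [ContinuousLinearMap.flip_apply, ContinuousLinearMap.mul_apply', update_self]
    rw [smul_mul_assoc, mul_assoc]
  have e2 : ∫ U, H (update U y0 g) • π (update U y0 g x) ∂(Pm μ : Measure (X → G))
      = (∫ U, H (update U y0 g) ∂(Pm μ : Measure (X → G))) •
        cvec μ (Finset.univ.erase y0) H (fun v => π (v x)) g := by
    unfold cvec
    simp only [merge_erase]
    rw [hZe, smul_smul, mul_inv_cancel₀ (hZe ▸ hZ).ne', one_smul]
  rw [e1, e2]
  refine (norm_mul_le _ _).trans ?_
  rw [norm_smul, Real.norm_eq_abs, abs_of_pos (hZe ▸ hZ)]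
  have h5 : ‖B * π' g‖ ≤ ‖B‖ := by
    refine (norm_mul_le _ _).trans ?_
    exact mul_le_of_le_one_right (norm_nonneg _) (hπ' g)
  calc _ ≤ (∫ U, H (update U y0 g) ∂(Pm μ : Measure (X → G))) * κ * ‖B‖ := by
        refine mul_le_mul ?_ h5 (norm_nonneg _) (mul_nonneg (hZe ▸ hZ).le hκ0)
        exact mul_le_mul_of_nonneg_left (hc g) (hZe ▸ hZ).le
    _ = _ := by ring

end Pool.Agent.H556R4.Layer
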