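import Pool.Agent.H556R4.Dob

/-!
# Pair interactions with bounded ratio: influence bounds
-/

namespace Pool.Agent.H556R4.Pair

open MeasureTheory Function Dob

set_option linter.unusedSectionVars false

variable {G : Type} [MeasurableSpace G] (μ : Measure G) [IsProbabilityMeasure μ]

/-- elementary inequality behind the sharp total variation bound -/
lemma alg {A1 B1 A2 B2 q : ℝ} (hA1 : 0 ≤ A1) (hB1 : 0 ≤ B1) (hA2 : 0 ≤ A2) (hB2 : 0 ≤ B2)
    (hq : 1 ≤ q) (h : A2 * B1 ≤ q ^ 2 * (A1 * B2)) :
    (q + 1) * (A2 * B1 - A1 * B2) ≤ (q - 1) * ((A1 + B1) * (A2 + B2)) := by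
  have hP : 0 ≤ A2 * B1 := mul_nonneg hA2 hB1
  have hQ : 0 ≤ A1 * B2 := mul_nonneg hA1 hB2
  obtain ⟨p, hp0, hp⟩ : ∃ p, 0 ≤ p ∧ p * p = A2 * B1 := ⟨_, Real.sqrt_nonneg _, Real.mul_self_sqrt hP⟩
  obtain ⟨s, hs0, hs⟩ : ∃ s, 0 ≤ s ∧ s * s = A1 * B2 := ⟨_, Real.sqrt_nonneg _, Real.mul_self_sqrt hQ⟩
  have h1 : p ≤ q * s := by
    refine abs_le_of_sq_le_sq' ?_ (by positivity) |>.2
    calc p ^ 2 = A2 * B1 := by rw [← hp]; ring
      _ ≤ q ^ 2 * (A1 * B2) := h
      _ = (q * s) ^ 2 := by rw [← hs]; ring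
  have h2 : 2 * (p * s) ≤ A1 * A2 + B1 * B2 := by
    refine abs_le_of_sq_le_sq' ?_ (by positivity) |>.2
    have : (2 * (p * s)) ^ 2 = 4 * ((A2 * B1) * (A1 * B2)) := by rw [← hp, ← hs]; ring
    rw [this]
    nlinarith [sq_nonneg (A1 * A2 - B1 * B2)]
  have h3 : (p - q * s) * (p + s) ≤ 0 := mul_nonpos_of_nonpos_of_nonneg (by linarith) (by linarith)
  have h4 : (q - 1) * (2 * (p * s)) ≤ (q - 1) * (A1 * A2 + B1 * B2) :=
    mul_le_mul_of_nonneg_left h2 (by linarith)
  nlinarith [hp, hs]

/-- `tanh` subadditivity -/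
lemma frac_pow {q : ℝ} (hq : 1 ≤ q) (n : ℕ) : (q ^ n - 1) / (q ^ n + 1) ≤ n * ((q - 1) / (q + 1)) := by
  induction n with
  | zero => simp
  | succ n ih =>
    have hqn : 1 ≤ q ^ n := one_le_pow₀ hq
    have e : (q ^ (n + 1) - 1) / (q ^ (n + 1) + 1)
        ≤ (q ^ n - 1) / (q ^ n + 1) + (q - 1) / (q + 1) := by
      rw [div_add_div _ _ (by positivity) (by positivity), div_le_div_iff₀ (by positivity)
        (by positivity), pow_succ]
      generalize q ^ n = u at *
      nlinarith [mul_nonneg (sub_nonneg.2 hqn) (sub_nonneg.2 hq),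
        mul_nonneg (mul_nonneg (sub_nonneg.2 hqn) (sub_nonneg.2 hq)) (sub_nonneg.2 hqn),
        mul_nonneg (mul_nonneg (sub_nonneg.2 hqn) (sub_nonneg.2 hq)) (sub_nonneg.2 hq),
        mul_nonneg (mul_nonneg (sub_nonneg.2 hqn) (sub_nonneg.2 hq))
          (mul_nonneg (sub_nonneg.2 hqn) (sub_nonneg.2 hq))]
    refine e.trans ?_
    push_cast
    linarith

/-- one-sided bound -/
lemma ratio_one {h h' u : G → ℝ} (hh : BM h) (hh' : BM h') (hu : BM u) (h0 : ∀ g, 0 ≤ h g)
    (h0' : ∀ g, 0 ≤ h' g) (p : 0 < ∫ g, h g ∂μ) (p' : 0 < ∫ g, h' g ∂μ) {κ q L : ℝ} (hκ : 0 < κ)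
    (hq : 1 ≤ q) (hup : ∀ g, h' g ≤ κ * q * h g) (hlo : ∀ g, κ * h g ≤ q * h' g) (hL : 0 < L)
    (hu0 : ∀ g, 0 ≤ u g) (huL : ∀ g, u g ≤ L) :
    (∫ g, u g * h' g ∂μ) / (∫ g, h' g ∂μ) - (∫ g, u g * h g ∂μ) / (∫ g, h g ∂μ)
      ≤ L * ((q - 1) / (q + 1)) := by
  have hu' : BM fun g => L - u g := by
    refine ⟨measurable_const.sub hu.meas, L, fun g => ?_⟩
    rw [abs_le]
    constructor <;> linarith [hu0 g, huL g]
  have eB : ∀ {k : G → ℝ}, BM k → ∫ g, (L - u g) * k g ∂μ
      = L * (∫ g, k g ∂μ) - ∫ g, u g * k g ∂μ := by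
    intro k hk
    rw [← integral_const_mul, ← integral_sub ((hk.integrable μ).const_mul L)
      ((hu.mul hk).integrable μ)]
    refine integral_congr_ae (Filter.Eventually.of_forall fun g => ?_)
    simp only
    ring
  have hA1 : 0 ≤ ∫ g, u g * h g ∂μ := integral_nonneg fun g => mul_nonneg (hu0 g) (h0 g)
  have hA2 : 0 ≤ ∫ g, u g * h' g ∂μ := integral_nonneg fun g => mul_nonneg (hu0 g) (h0' g)
  have hB1 : 0 ≤ ∫ g, (L - u g) * h g ∂μ :=
    integral_nonneg fun g => mul_nonneg (by linarith [huL g]) (h0 g)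
  have hB2 : 0 ≤ ∫ g, (L - u g) * h' g ∂μ :=
    integral_nonneg fun g => mul_nonneg (by linarith [huL g]) (h0' g)
  have hA : ∫ g, u g * h' g ∂μ ≤ κ * q * ∫ g, u g * h g ∂μ := by
    rw [← integral_const_mul]
    refine integral_mono ((hu.mul hh').integrable μ) (((hu.mul hh).integrable μ).const_mul _)
      fun g => ?_
    have := mul_le_mul_of_nonneg_left (hup g) (hu0 g)
    simp only
    linarith
  have hB : κ * ∫ g, (L - u g) * h g ∂μ ≤ q * ∫ g, (L - u g) * h' g ∂μ := by
    rw [← integral_const_mul, ← integral_const_mul]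
    refine integral_mono (((hu'.mul hh).integrable μ).const_mul _)
      (((hu'.mul hh').integrable μ).const_mul _) fun g => ?_
    have := mul_le_mul_of_nonneg_left (hlo g) (sub_nonneg.2 (huL g))
    simp only
    linarith
  have e1 := eB hh
  have e2 := eB hh'
  generalize ∫ g, u g * h g ∂μ = A1 at *
  generalize ∫ g, u g * h' g ∂μ = A2 at *
  generalize ∫ g, (L - u g) * h g ∂μ = B1 at *
  generalize ∫ g, (L - u g) * h' g ∂μ = B2 at *
  generalize ∫ g, h g ∂μ = H1 at *
  generalize ∫ g, h' g ∂μ = H2 at *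
  have hAB : A2 * B1 ≤ q ^ 2 * (A1 * B2) := by
    have h1 : A2 * (κ * B1) ≤ (κ * q * A1) * (q * B2) :=
      mul_le_mul hA hB (by positivity) (by positivity)
    have h2 : κ * (A2 * B1) ≤ κ * (q ^ 2 * (A1 * B2)) := by nlinarith
    exact le_of_mul_le_mul_left h2 hκ
  have := alg hA1 hB1 hA2 hB2 hq hAB
  have s1 : A1 + B1 = L * H1 := by linarith
  have s2 : A2 + B2 = L * H2 := by linarith
  rw [s1, s2] at this
  have e3 : A2 * B1 - A1 * B2 = L * (A2 * H1 - A1 * H2) := by
    have b1 : B1 = L * H1 - A1 := e1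
    have b2 : B2 = L * H2 - A2 := e2
    rw [b1, b2]; ring
  rw [e3] at this
  have h5 : (q + 1) * (A2 * H1 - A1 * H2) ≤ (q - 1) * (L * (H1 * H2)) := by
    have : L * ((q + 1) * (A2 * H1 - A1 * H2)) ≤ L * ((q - 1) * (L * (H1 * H2))) := by nlinarith
    exact le_of_mul_le_mul_left this hL
  rw [div_sub_div _ _ p'.ne' p.ne', div_le_iff₀ (by positivity), ← mul_div_assoc, div_mul_eq_mul_div,
    le_div_iff₀ (by positivity)]
  nlinarith

/-- two-sided bound -/
lemma ratio_two {h h' φ : G → ℝ} (hh : BM h) (hh' : BM h') (hφ : BM φ) (h0 : ∀ g, 0 ≤ h g)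
    (h0' : ∀ g, 0 ≤ h' g) (p : 0 < ∫ g, h g ∂μ) (p' : 0 < ∫ g, h' g ∂μ) {κ q L : ℝ} (hκ : 0 < κ)
    (hq : 1 ≤ q) (hup : ∀ g, h' g ≤ κ * q * h g) (hlo : ∀ g, κ * h g ≤ q * h' g) (hL : 0 ≤ L)
    (hosc : ∀ g g', |φ g - φ g'| ≤ L) :
    |(∫ g, φ g * h' g ∂μ) / (∫ g, h' g ∂μ) - (∫ g, φ g * h g ∂μ) / (∫ g, h g ∂μ)|
      ≤ L * ((q - 1) / (q + 1)) := by
  have hne : Nonempty G := nonempty_G μ
  obtain ⟨c, hc⟩ := exists_mid hosc
  have eS : ∀ (s t : ℝ) {k : G → ℝ}, BM k → 0 < ∫ g, k g ∂μ →
      (∫ g, (s * φ g + t) * k g ∂μ) / (∫ g, k g ∂μ)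
        = s * ((∫ g, φ g * k g ∂μ) / (∫ g, k g ∂μ)) + t := by
    intro s t k hk hk0
    have : ∫ g, (s * φ g + t) * k g ∂μ = s * (∫ g, φ g * k g ∂μ) + t * ∫ g, k g ∂μ := by
      rw [← integral_const_mul, ← integral_const_mul,
        ← integral_add (((hφ.mul hk).integrable μ).const_mul s) ((hk.integrable μ).const_mul t)]
      refine integral_congr_ae (Filter.Eventually.of_forall fun g => ?_)
      simp only
      ring
    rw [this]
    field_simp
  rcases hL.eq_or_lt with hL0 | hL0
  · subst hL0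
    obtain ⟨g0⟩ := hne
    have hconst : ∀ g, φ g = φ g0 := fun g => by
      have := abs_nonpos_iff.1 (hosc g g0)
      linarith
    have : ∀ {k : G → ℝ}, 0 < ∫ g, k g ∂μ →
        (∫ g, φ g * k g ∂μ) / (∫ g, k g ∂μ) = φ g0 := by
      intro k hk0
      have : ∫ g, φ g * k g ∂μ = φ g0 * ∫ g, k g ∂μ := by
        rw [← integral_const_mul]
        refine integral_congr_ae (Filter.Eventually.of_forall fun g => ?_)
        simp only
        rw [hconst g]
      rw [this, mul_div_cancel_right₀ _ hk0.ne']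
    rw [this p, this p']
    simp
  · have hu1 : ∀ (s : ℝ), |s| ≤ 1 → ∀ g, |s * (φ g - c)| ≤ L / 2 := by
      intro s hs g
      rw [abs_mul]
      exact (mul_le_mul hs (hc g) (abs_nonneg _) zero_le_one).trans (by linarith)
    have key : ∀ s : ℝ, |s| ≤ 1 →
        s * ((∫ g, φ g * h' g ∂μ) / (∫ g, h' g ∂μ) - (∫ g, φ g * h g ∂μ) / (∫ g, h g ∂μ))
          ≤ L * ((q - 1) / (q + 1)) := by
      intro s hs
      have hub : BM fun g => s * φ g + (L / 2 - s * c) := by
        refine ⟨(hφ.meas.const_mul s).add_const _, L, fun g => ?_⟩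
        have := abs_le.1 (hu1 s hs g)
        rw [abs_le]
        constructor <;> linarith [this.1, this.2]
      have := ratio_one μ hh hh' hub h0 h0' p p' hκ hq hup hlo hL0
        (fun g => by have := abs_le.1 (hu1 s hs g); linarith [this.1])
        (fun g => by have := abs_le.1 (hu1 s hs g); linarith [this.2])
      rw [eS _ _ hh p, eS _ _ hh' p'] at this
      linarith
    rw [abs_le]
    constructor
    · have := key (-1) (by simp)
      linarith
    · have := key 1 (by simp)
      linarith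

open Classical in
/-- the discrete cost -/
noncomputable def disc (g g' : G) : ℝ := if g = g' then 0 else 1

lemma disc_cost : Cost (disc : G → G → ℝ) 1 where
  nonneg g g' := by unfold disc; split_ifs <;> norm_num
  le g g' := by unfold disc; split_ifs <;> norm_num
  self g := by simp [disc]

variable {X E : Type} [Fintype X] [DecidableEq X] [Fintype E]

/-- weight of a configuration of a nearest neighbour model on the graph `(X, E)` -/
noncomputable def pairW (src tgt : E → X) (W : E → G → G → ℝ) (v : X → G) : ℝ :=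
  ∏ e, W e (v (src e)) (v (tgt e))

/-- the edge `e` joins `x` and `y` -/
def Joins (src tgt : E → X) (x y : X) (e : E) : Prop :=
  (src e = x ∧ tgt e = y) ∨ (src e = y ∧ tgt e = x)

instance (src tgt : E → X) (x y : X) : DecidablePred (Joins src tgt x y) := fun e => by
  unfold Joins; infer_instance

/-- number of edges joining `x` and `y` -/
def nE (src tgt : E → X) (x y : X) : ℕ := (Finset.univ.filter (Joins src tgt x y)).card

/-- number of edges at `x` -/
def deg (src tgt : E → X) (x : X) : ℕ :=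
  (Finset.univ.filter fun e => src e = x ∨ tgt e = x).card

lemma sum_nE_le (src tgt : E → X) (x : X) :
    ∑ y ∈ Finset.univ.erase x, nE src tgt x y ≤ deg src tgt x := by
  classical
  unfold nE deg
  rw [← Finset.card_biUnion]
  · refine Finset.card_le_card fun e he => ?_
    simp only [Finset.mem_biUnion, Finset.mem_filter, Finset.mem_univ, true_and, Joins] at he ⊢
    obtain ⟨y, -, h | h⟩ := he
    · exact Or.inl h.1
    · exact Or.inr h.2
  · intro y hy y' hy' hne
    rw [Function.onFun, Finset.disjoint_left]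
    intro e he he'
    have hy1 := Finset.ne_of_mem_erase hy
    have hy2 := Finset.ne_of_mem_erase hy'
    simp only [Finset.mem_filter, Finset.mem_univ, true_and, Joins] at he he'
    rcases he with ⟨h1, h2⟩ | ⟨h1, h2⟩ <;> rcases he' with ⟨h3, h4⟩ | ⟨h3, h4⟩
    · exact hne (h2.symm.trans h4)
    · exact hy2 (h3.symm.trans h1)
    · exact hy1 (h1.symm.trans h3)
    · exact hne (h1.symm.trans h3)

lemma int_dens {H : (X → G) → ℝ} (x : X) (V : X → G) (φ : G → ℝ) :
    ∫ g, φ g * dens μ H x V g ∂μ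
      = (∫ g, φ g * H (update V x g) ∂μ) / ∫ g, H (update V x g) ∂μ := by
  rw [← integral_div]
  refine integral_congr_ae (Filter.Eventually.of_forall fun g => ?_)
  simp only [dens]
  ring

variable {src tgt : E → X} {W : E → G → G → ℝ} {a b : ℝ}

lemma pairW_dens (hW : ∀ e, Measurable fun p : G × G => W e p.1 p.2) (ha : 0 < a)
    (hlo : ∀ e g k, a ≤ W e g k) (hup : ∀ e g k, W e g k ≤ b) : Dens (pairW src tgt W) where
  meas := by
    refine Finset.measurable_prod _ fun e _ => ?_
    have h : Measurable fun V : X → G => (V (src e), V (tgt e)) :=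
      (measurable_pi_apply _).prodMk (measurable_pi_apply _)
    exact (hW e).comp h
  lb := ⟨∏ _e : E, a, Finset.prod_pos fun _ _ => ha,
    fun V => Finset.prod_le_prod (fun _ _ => ha.le) fun e _ => hlo e _ _⟩
  ub := ⟨∏ _e : E, b,
    fun V => Finset.prod_le_prod (fun e _ => ha.le.trans (hlo e _ _)) fun e _ => hup e _ _⟩

lemma pair_infl (hW : ∀ e, Measurable fun p : G × G => W e p.1 p.2) (ha : 0 < a)
    (hlo : ∀ e g k, a ≤ W e g k) (hup : ∀ e g k, W e g k ≤ b) {x y : X} (hxy : y ≠ x) :
    Infl μ disc (pairW src tgt W) x y (nE src tgt x y * ((b - a) / (b + a))) := by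
  classical
  intro V k L φ hφ hL hosc
  have hne : Nonempty G := nonempty_G μ
  have hH := pairW_dens (src := src) (tgt := tgt) hW ha hlo hup
  by_cases hk : k = V y
  · subst hk
    simp [disc]
  have hd1 : disc k (V y) = 1 := by simp [disc, hk]
  rw [hd1, mul_one, int_dens, int_dens]
  have hosc' : ∀ g g', |φ g - φ g'| ≤ L := fun g g' =>
    (hosc g g').trans (mul_le_of_le_one_right hL (disc_cost.le g g'))
  have hWpos : ∀ e g k, 0 < W e g k := fun e g k => ha.trans_le (hlo e g k)
  by_cases hE : IsEmpty E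
  · have h1 : ∀ U : X → G, pairW src tgt W U = 1 := fun U => by simp [pairW]
    have h2 : nE src tgt x y = 0 := by simp [nE]
    simp only [h1, h2]
    simp
  have hab : a ≤ b := by
    rw [not_isEmpty_iff] at hE
    obtain ⟨e⟩ := hE
    obtain ⟨g⟩ := hne
    exact (hlo e g g).trans (hup e g g)
  have hb : 0 < b := ha.trans_le hab
  set κ : E → ℝ := fun e => if Joins src tgt x y e then 1 else
    if src e = y ∨ tgt e = y then W e (update V y k (src e)) (update V y k (tgt e))
      / W e (V (src e)) (V (tgt e)) else 1 with hκ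
  set q : E → ℝ := fun e => if Joins src tgt x y e then b / a else 1 with hq
  have hκ0 : ∀ e, 0 < κ e := by
    intro e
    simp only [hκ]
    split_ifs
    · exact one_pos
    · exact div_pos (hWpos _ _ _) (hWpos _ _ _)
    · exact one_pos
  have hba : 1 ≤ b / a := by rw [le_div_iff₀ ha]; linarith
  have hq1 : ∀ e, 1 ≤ q e := by
    intro e
    simp only [hq]
    split_ifs
    · exact hba
    · exact le_rfl
  have hqn : ∏ e, q e = (b / a) ^ nE src tgt x y := by
    simp only [hq, nE]
    rw [Finset.prod_ite, Finset.prod_const, Finset.prod_const_one, mul_one]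
  have key : ∀ e g,
      W e (update (update V y k) x g (src e)) (update (update V y k) x g (tgt e))
        ≤ κ e * q e * W e (update V x g (src e)) (update V x g (tgt e)) ∧
      κ e * W e (update V x g (src e)) (update V x g (tgt e))
        ≤ q e * W e (update (update V y k) x g (src e)) (update (update V y k) x g (tgt e)) := by
    intro e g
    by_cases hj : Joins src tgt x y e
    · have e1 : κ e = 1 := by simp [hκ, hj]
      have e2 : q e = b / a := by simp [hq, hj]
      rw [e1, e2, one_mul, one_mul]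
      constructor
      · refine (hup e _ _).trans ?_
        calc b = b / a * a := by field_simp
          _ ≤ _ := mul_le_mul_of_nonneg_left (hlo e _ _) (by positivity)
      · refine (hup e _ _).trans ?_
        calc b = b / a * a := by field_simp
          _ ≤ _ := mul_le_mul_of_nonneg_left (hlo e _ _) (by positivity)
    · have e2 : q e = 1 := by simp [hq, hj]
      by_cases ht : src e = y ∨ tgt e = y
      · have e1 : κ e = W e (update V y k (src e)) (update V y k (tgt e))
            / W e (V (src e)) (V (tgt e)) := by simp [hκ, hj, ht]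
        have hsx : src e ≠ x := by
          intro h
          rcases ht with h' | h'
          · exact hxy (h'.symm.trans h)
          · exact hj (Or.inl ⟨h, h'⟩)
        have htx : tgt e ≠ x := by
          intro h
          rcases ht with h' | h'
          · exact hj (Or.inr ⟨h', h⟩)
          · exact hxy (h'.symm.trans h)
        rw [e1, e2, update_of_ne hsx, update_of_ne htx, update_of_ne hsx, update_of_ne htx,
          mul_one, one_mul, div_mul_cancel₀ _ (hWpos _ _ _).ne']
        exact ⟨le_rfl, le_rfl⟩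
      · have e1 : κ e = 1 := by simp [hκ, hj, ht]
        rw [not_or] at ht
        have hs : ∀ z, z ≠ y → update (update V y k) x g z = update V x g z := by
          intro z hz
          by_cases hzx : z = x
          · subst hzx; simp
          · simp [hzx, hz]
        rw [e1, e2, hs _ ht.1, hs _ ht.2, mul_one, one_mul]
        exact ⟨le_rfl, le_rfl⟩
  have hub : ∀ g, pairW src tgt W (update (update V y k) x g)
      ≤ (∏ e, κ e) * (∏ e, q e) * pairW src tgt W (update V x g) := by
    intro g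
    unfold pairW
    rw [← Finset.prod_mul_distrib, ← Finset.prod_mul_distrib]
    exact Finset.prod_le_prod (fun e _ => (hWpos _ _ _).le) fun e _ => (key e g).1
  have hlb : ∀ g, (∏ e, κ e) * pairW src tgt W (update V x g)
      ≤ (∏ e, q e) * pairW src tgt W (update (update V y k) x g) := by
    intro g
    unfold pairW
    rw [← Finset.prod_mul_distrib, ← Finset.prod_mul_distrib]
    exact Finset.prod_le_prod (fun e _ => mul_nonneg (hκ0 e).le (hWpos _ _ _).le)
      fun e _ => (key e g).2
  have := ratio_two μ (hH.site_bm x V) (hH.site_bm x (update V y k)) hφ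
    (fun g => (hH.pos _).le) (fun g => (hH.pos _).le) (hH.site_pos μ x V)
    (hH.site_pos μ x (update V y k)) (κ := ∏ e, κ e) (q := ∏ e, q e)
    (Finset.prod_pos fun e _ => hκ0 e) (by rw [hqn]; exact one_le_pow₀ hba) hub hlb hL hosc'
  refine this.trans (mul_le_mul_of_nonneg_left ?_ hL)
  rw [hqn]
  refine (frac_pow hba _).trans (le_of_eq ?_)
  congr 1
  field_simp

end Pool.Agent.H556R4.Pair
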