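import Pool.Agent.H556R4.Dob

/-!
# Unit quaternions: square roots, reflections and a change of variables
-/

namespace Pool.Agent.H556R4.SU2

open MeasureTheory Quaternion Dob

set_option linter.unusedSectionVars false

/-- the group of unit quaternions, that is `SU(2)` -/
abbrev S3 : Type := Metric.sphere (0 : ℍ[ℝ]) 1

lemma normSq_coe (g : S3) : normSq (g : ℍ[ℝ]) = 1 := by
  have h : ‖(g : ℍ[ℝ])‖ = 1 := by simp
  rw [normSq_eq_norm_mul_self, h, one_mul]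

lemma norm_coe' (g : S3) : ‖(g : ℍ[ℝ])‖ = 1 := by simp

lemma coe_inv (g : S3) : ((g⁻¹ : S3) : ℍ[ℝ]) = star (g : ℍ[ℝ]) := by
  rw [Metric.unitSphere.coe_inv]
  apply inv_eq_of_mul_eq_one_right
  rw [Quaternion.self_mul_star, normSq_coe]
  simp

lemma star_mul_self' (g : S3) : star (g : ℍ[ℝ]) * g = 1 := by
  rw [Quaternion.star_mul_self, normSq_coe]; simp

lemma mul_star_self' (g : S3) : (g : ℍ[ℝ]) * star (g : ℍ[ℝ]) = 1 := by
  rw [Quaternion.self_mul_star, normSq_coe]; simp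

open Classical in
/-- the square root with nonnegative real part -/
noncomputable def rt (g : S3) : S3 :=
  if h : (1 : ℍ[ℝ]) + g = 0 then 1 else
    ⟨(‖(1 : ℍ[ℝ]) + g‖⁻¹ : ℝ) • ((1 : ℍ[ℝ]) + g), by
      rw [mem_sphere_zero_iff_norm, norm_smul, norm_inv, norm_norm, inv_mul_cancel₀
        (norm_ne_zero_iff.2 h)]⟩

lemma rt_coe {g : S3} (h : (1 : ℍ[ℝ]) + g ≠ 0) :
    (rt g : ℍ[ℝ]) = (‖(1 : ℍ[ℝ]) + g‖⁻¹ : ℝ) • ((1 : ℍ[ℝ]) + g) := by
  simp [rt, h]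

lemma rt_of_eq {g : S3} (h : (1 : ℍ[ℝ]) + g = 0) : rt g = 1 := by
  simp [rt, h]

lemma one_add_inv (g : S3) : (1 : ℍ[ℝ]) + ((g⁻¹ : S3) : ℍ[ℝ]) = star ((1 : ℍ[ℝ]) + g) := by
  rw [coe_inv]; simp

lemma rt_inv (g : S3) : rt g⁻¹ = (rt g)⁻¹ := by
  by_cases h : (1 : ℍ[ℝ]) + g = 0
  · rw [rt_of_eq h, rt_of_eq (by rw [one_add_inv, h, star_zero]), inv_one]
  · have h' : (1 : ℍ[ℝ]) + ((g⁻¹ : S3) : ℍ[ℝ]) ≠ 0 := by
      rw [one_add_inv]; exact star_ne_zero.2 h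
    apply Subtype.ext
    rw [rt_coe h', one_add_inv, norm_star, coe_inv, rt_coe h]
    simp

lemma coe_conj (p g : S3) : ((p * g * p⁻¹ : S3) : ℍ[ℝ]) = p * g * star (p : ℍ[ℝ]) := by
  rw [Metric.unitSphere.coe_mul, Metric.unitSphere.coe_mul, coe_inv]

lemma one_add_conj (p g : S3) :
    (1 : ℍ[ℝ]) + ((p * g * p⁻¹ : S3) : ℍ[ℝ]) = p * ((1 : ℍ[ℝ]) + g) * star (p : ℍ[ℝ]) := by
  rw [coe_conj, mul_add, add_mul, mul_one, mul_star_self']

lemma norm_conj (p : S3) (x : ℍ[ℝ]) : ‖(p : ℍ[ℝ]) * x * star (p : ℍ[ℝ])‖ = ‖x‖ := by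
  rw [norm_mul, norm_mul, norm_star, norm_coe']; simp

lemma rt_conj (p g : S3) : rt (p * g * p⁻¹) = p * rt g * p⁻¹ := by
  by_cases h : (1 : ℍ[ℝ]) + g = 0
  · rw [rt_of_eq h, rt_of_eq (by rw [one_add_conj, h]; simp)]
    simp
  · have h' : (1 : ℍ[ℝ]) + ((p * g * p⁻¹ : S3) : ℍ[ℝ]) ≠ 0 := by
      rw [one_add_conj, ← norm_ne_zero_iff, norm_conj]
      exact norm_ne_zero_iff.2 h
    apply Subtype.ext
    rw [rt_coe h', one_add_conj, norm_conj, coe_conj, rt_coe h, mul_smul_comm, smul_mul_assoc]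

lemma rt_mul_rt {g : S3} (h : (1 : ℍ[ℝ]) + g ≠ 0) : rt g * rt g = g := by
  apply Subtype.ext
  rw [Metric.unitSphere.coe_mul, rt_coe h]
  have hn : ‖(1 : ℍ[ℝ]) + g‖ ≠ 0 := norm_ne_zero_iff.2 h
  have e1 : ((1 : ℍ[ℝ]) + g) * ((1 : ℍ[ℝ]) + g) = (‖(1 : ℍ[ℝ]) + g‖ * ‖(1 : ℍ[ℝ]) + g‖) • (g : ℍ[ℝ]) := by
    have e2 : ((‖(1 : ℍ[ℝ]) + g‖ * ‖(1 : ℍ[ℝ]) + g‖ : ℝ) : ℍ[ℝ])
        = ((1 : ℍ[ℝ]) + g) * star ((1 : ℍ[ℝ]) + g) := by
      rw [Quaternion.self_mul_star, normSq_eq_norm_mul_self]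
    rw [← Quaternion.coe_mul_eq_smul, e2, mul_assoc]
    congr 1
    rw [star_add, star_one, add_mul, one_mul, star_mul_self', add_comm]
  rw [smul_mul_smul_comm, e1, smul_smul]
  have : ‖(1 : ℍ[ℝ]) + g‖⁻¹ * ‖(1 : ℍ[ℝ]) + g‖⁻¹ * (‖(1 : ℍ[ℝ]) + g‖ * ‖(1 : ℍ[ℝ]) + g‖) = 1 := by
    field_simp
  rw [this, one_smul]

variable [MeasurableSpace S3] [BorelSpace S3]

lemma measurable_rt : Measurable rt := by
  classical
  have hs : IsClosed {g : S3 | (1 : ℍ[ℝ]) + g = 0} :=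
    isClosed_eq (f := fun g : S3 => (1 : ℍ[ℝ]) + g) (g := fun _ => 0)
      (continuous_const.add continuous_subtype_val) continuous_const
  have hc : ContinuousOn rt {g : S3 | (1 : ℍ[ℝ]) + g = 0}ᶜ := by
    have h1 : ContinuousOn (fun g : S3 => (‖(1 : ℍ[ℝ]) + g‖⁻¹ : ℝ) • ((1 : ℍ[ℝ]) + g))
        {g : S3 | (1 : ℍ[ℝ]) + g = 0}ᶜ := by
      have c1 : Continuous fun g : S3 => (1 : ℍ[ℝ]) + g :=
        continuous_const.add continuous_subtype_val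
      exact (c1.norm.continuousOn.inv₀ fun g hg => norm_ne_zero_iff.2 hg).smul c1.continuousOn
    have h2 : ContinuousOn (fun g : S3 => (rt g : ℍ[ℝ])) {g : S3 | (1 : ℍ[ℝ]) + g = 0}ᶜ :=
      h1.congr fun g hg => rt_coe hg
    rw [continuousOn_iff_continuous_domRestrict] at h2 ⊢
    exact continuous_induced_rng.2 h2
  have := ContinuousOn.measurable_piecewise (f := fun _ : S3 => (1 : S3)) (g := rt)
    (s := {g : S3 | (1 : ℍ[ℝ]) + g = 0}) continuousOn_const hc hs.measurableSet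
  have e : Set.piecewise {g : S3 | (1 : ℍ[ℝ]) + g = 0} (fun _ : S3 => (1 : S3)) rt = rt := by
    funext g
    by_cases hg : g ∈ {g : S3 | (1 : ℍ[ℝ]) + g = 0}
    · rw [Set.piecewise_eq_of_mem _ _ _ hg, rt_of_eq hg]
    · rw [Set.piecewise_eq_of_notMem _ _ _ hg]
  rwa [e] at this

variable (μ : Measure S3) [IsProbabilityMeasure μ] [μ.IsMulLeftInvariant] [μ.IsMulRightInvariant]
  [μ.IsInvInvariant]

lemma measurable_comp_re {f : ℍ[ℝ] → ℝ} (hf : Continuous f) : Measurable fun g : S3 => f g :=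
  (hf.comp continuous_subtype_val).measurable

/-- a single point has measure zero -/
lemma infinite_S3 : Infinite S3 := by
  let w : ℕ → ℍ[ℝ] := fun n => ⟨1, n, 0, 0⟩
  have hne : ∀ n : ℕ, w n ≠ 0 := fun n h => by
    have := congrArg QuaternionAlgebra.re h
    simp [w] at this
  let f : ℕ → S3 := fun n => ⟨(‖w n‖⁻¹ : ℝ) • w n, by
    rw [mem_sphere_zero_iff_norm, norm_smul, norm_inv, norm_norm, inv_mul_cancel₀
        (norm_ne_zero_iff.2 (hne n))]⟩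
  refine Infinite.of_injective f fun m n h => ?_
  have h0 : (‖w m‖⁻¹ : ℝ) • w m = (‖w n‖⁻¹ : ℝ) • w n := congrArg (fun g : S3 => (g : ℍ[ℝ])) h
  have h1 := congrArg QuaternionAlgebra.re h0
  have h2 := congrArg QuaternionAlgebra.imI h0
  rw [Quaternion.re_smul, Quaternion.re_smul] at h1
  rw [Quaternion.imI_smul, Quaternion.imI_smul] at h2
  have e1 : ∀ n, (w n).re = 1 := fun n => rfl
  have e2 : ∀ n, (w n).imI = n := fun n => rfl
  simp only [e1, e2, smul_eq_mul, mul_one] at h1 h2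
  rw [h1] at h2
  have h3 : ‖w n‖⁻¹ ≠ 0 := inv_ne_zero (norm_ne_zero_iff.2 (hne n))
  have h4 := mul_left_cancel₀ h3 h2
  exact_mod_cast h4

lemma singleton_null (a : S3) : μ {a} = 0 := by
  have hinf := infinite_S3
  by_contra hc
  have hall : ∀ b : S3, μ {b} = μ {a} := by
    intro b
    have h1 := measure_preimage_mul μ (a * b⁻¹) {a}
    have h2 : (fun h => a * b⁻¹ * h) ⁻¹' {a} = {b} := by
      ext h
      simp only [Set.mem_preimage, Set.mem_singleton_iff]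
      constructor
      · intro h3
        have : b⁻¹ * h = 1 := by
          rw [mul_assoc] at h3
          exact mul_eq_left.1 h3
        exact (inv_mul_eq_one.1 this).symm
      · rintro rfl
        simp
    rw [h2] at h1
    exact h1
  have htop : μ {a} ≠ ⊤ := measure_ne_top μ _
  obtain ⟨n, hn⟩ := ENNReal.exists_nat_mul_gt hc (b := 1) ENNReal.one_ne_top
  obtain ⟨A, hA⟩ := Infinite.exists_subset_card_eq S3 n
  have h1 : μ (A : Set S3) = n * μ {a} := by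
    rw [← sum_measure_singleton]
    simp only [hall]
    rw [Finset.sum_const, hA, nsmul_eq_mul]
  have h2 : μ (A : Set S3) ≤ 1 := prob_le_one
  rw [h1] at h2
  exact absurd hn (not_lt.2 h2)

lemma null_minus_one : ∀ᵐ g : S3 ∂μ, (1 : ℍ[ℝ]) + (g : ℍ[ℝ]) ≠ 0 := by
  rw [ae_iff]
  have : {g : S3 | ¬ ((1 : ℍ[ℝ]) + (g : ℍ[ℝ]) ≠ 0)} ⊆ {(⟨-1, by simp⟩ : S3)} := by
    intro g hg
    rw [Set.mem_ofPred_eq, not_not] at hg
    rw [Set.mem_singleton_iff]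
    apply Subtype.ext
    exact (neg_eq_of_add_eq_zero_right hg).symm
  exact measure_mono_null this (singleton_null μ _)

/-- The change of variables `(s, s') = (σ k⁻¹, σ k)` with `k = rt g`. -/
lemma cv {F : S3 × S3 → ℝ} (hF : BM F) :
    ∫ p, F p ∂(μ.prod μ) = ∫ σ, ∫ g, F (σ * (rt g)⁻¹, σ * rt g) ∂μ ∂μ := by
  have h1 : ∫ p, F p ∂(μ.prod μ) = ∫ s, ∫ s', F (s, s') ∂μ ∂μ :=
    integral_prod _ (hF.integrable _)
  have h2 : ∀ s, ∫ s', F (s, s') ∂μ = ∫ g, F (s, s * g) ∂μ := fun s =>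
    (integral_mul_left_eq_self (fun s' => F (s, s')) s).symm
  have m2 : Measurable fun p : S3 × S3 => (p.1, p.1 * p.2) :=
    measurable_fst.prodMk (measurable_fst.mul measurable_snd)
  have i2 : Integrable (fun p : S3 × S3 => F (p.1, p.1 * p.2)) (μ.prod μ) :=
    (hF.comp m2).integrable _
  have m3 : Measurable fun p : S3 × S3 => (p.1 * (rt p.2)⁻¹, p.1 * (rt p.2)⁻¹ * p.2) :=
    (measurable_fst.mul (measurable_rt.comp measurable_snd).inv).prodMk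
      ((measurable_fst.mul (measurable_rt.comp measurable_snd).inv).mul measurable_snd)
  have i3 : Integrable (fun p : S3 × S3 => F (p.1 * (rt p.2)⁻¹, p.1 * (rt p.2)⁻¹ * p.2))
      (μ.prod μ) := (hF.comp m3).integrable _
  have h3 : ∀ g, ∫ s, F (s, s * g) ∂μ = ∫ σ, F (σ * (rt g)⁻¹, σ * (rt g)⁻¹ * g) ∂μ := fun g =>
    (integral_mul_right_eq_self (fun s => F (s, s * g)) (rt g)⁻¹).symm
  calc ∫ p, F p ∂(μ.prod μ) = ∫ s, ∫ s', F (s, s') ∂μ ∂μ := h1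
    _ = ∫ s, ∫ g, F (s, s * g) ∂μ ∂μ :=
      integral_congr_ae (Filter.Eventually.of_forall fun s => h2 s)
    _ = ∫ g, ∫ s, F (s, s * g) ∂μ ∂μ :=
      integral_integral_swap (f := fun (s g : S3) => F (s, s * g)) i2
    _ = ∫ g, ∫ σ, F (σ * (rt g)⁻¹, σ * (rt g)⁻¹ * g) ∂μ ∂μ :=
      integral_congr_ae (Filter.Eventually.of_forall fun g => h3 g)
    _ = ∫ σ, ∫ g, F (σ * (rt g)⁻¹, σ * (rt g)⁻¹ * g) ∂μ ∂μ :=
      integral_integral_swap (f := fun (g σ : S3) => F (σ * (rt g)⁻¹, σ * (rt g)⁻¹ * g)) i3.swap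
    _ = ∫ σ, ∫ g, F (σ * (rt g)⁻¹, σ * rt g) ∂μ ∂μ := by
      refine integral_congr_ae (Filter.Eventually.of_forall fun σ => ?_)
      refine integral_congr_ae ?_
      filter_upwards [null_minus_one μ] with g hg
      have : (rt g)⁻¹ * g = rt g := by
        rw [inv_mul_eq_iff_eq_mul]; exact (rt_mul_rt hg).symm
      rw [mul_assoc σ, this]

end Pool.Agent.H556R4.SU2
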