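import Pool.Agent.H556R4.SU2a

/-!
# The estimate on one fibre
-/

namespace Pool.Agent.H556R4.SU2

open MeasureTheory Quaternion Dob

set_option linter.unusedSectionVars false

lemma re_cyc (a b : ℍ[ℝ]) : (a * b).re = (b * a).re := by
  simp only [Quaternion.re_mul]; ring

lemma inner_conj (p : S3) (x y : ℍ[ℝ]) :
    inner ℝ ((p : ℍ[ℝ]) * x * star (p : ℍ[ℝ])) y = inner ℝ x (star (p : ℍ[ℝ]) * y * p) := by
  rw [inner_def, inner_def, star_mul, star_mul, star_star]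
  rw [mul_assoc, mul_assoc, re_cyc]
  simp only [mul_assoc]

lemma inner_mul_left (p : S3) (x y : ℍ[ℝ]) :
    inner ℝ x ((p : ℍ[ℝ]) * y) = inner ℝ (star (p : ℍ[ℝ]) * x) y := by
  rw [inner_def, inner_def, star_mul, ← mul_assoc, re_cyc, ← mul_assoc]

lemma re_conj (p : S3) (x : ℍ[ℝ]) : ((p : ℍ[ℝ]) * x * star (p : ℍ[ℝ])).re = x.re := by
  rw [re_cyc, ← mul_assoc, star_mul_self', one_mul]

/-- reflection of a quaternion along a unit imaginary quaternion -/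
lemma reflect {m : ℍ[ℝ]} (hre : m.re = 0) (hn : normSq m = 1) (k : ℍ[ℝ]) :
    m * star k * star m = k - (2 * inner ℝ m k) • m := by
  rw [normSq_def'] at hn
  rw [hre] at hn
  have hi : inner ℝ m k = m.imI * k.imI + m.imJ * k.imJ + m.imK * k.imK := by
    rw [inner_def]; simp [hre]
  rw [hi]
  ext
  · simp [hre]
    linear_combination k.re * hn
  · simp [hre]
    linear_combination k.imI * hn
  · simp [hre]
    linear_combination k.imJ * hn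
  · simp [hre]
    linear_combination k.imK * hn

variable [MeasurableSpace S3] [BorelSpace S3]

lemma BM.of_continuous {f : S3 → ℝ} (hf : Continuous f) : BM f := by
  refine ⟨hf.measurable, ?_⟩
  obtain ⟨C, hC⟩ := isCompact_univ.exists_bound_of_continuousOn hf.continuousOn
  exact ⟨C, fun a => by simpa using hC a (Set.mem_univ _)⟩

variable (μ : Measure S3) [IsProbabilityMeasure μ] [μ.IsMulLeftInvariant] [μ.IsMulRightInvariant]
  [μ.IsInvInvariant]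

lemma integral_conj (F : S3 → ℝ) (p : S3) : ∫ g, F (p * g * p⁻¹) ∂μ = ∫ g, F g ∂μ := by
  rw [integral_mul_left_eq_self (fun g => F (g * p⁻¹)) p, integral_mul_right_eq_self]

/-- measurable self-maps of the group which commute with conjugation -/
structure Eqv (ψ : S3 → S3) : Prop where
  meas : Measurable ψ
  conj : ∀ p g, ψ (p * g * p⁻¹) = p * ψ g * p⁻¹

lemma eqv_rt : Eqv rt := ⟨measurable_rt, rt_conj⟩

lemma eqv_id : Eqv id := ⟨measurable_id, fun _ _ => rfl⟩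

/-- second moment of `ψ` in the direction `m` -/
noncomputable def Q (ψ : S3 → S3) (c : ℝ) (m : ℍ[ℝ]) : ℝ :=
  ∫ g, (inner ℝ m (ψ g : ℍ[ℝ])) ^ 2 * Real.exp (2 * c * (ψ g : ℍ[ℝ]).re) ∂μ

variable {ψ : S3 → S3}

lemma Q_conj (hψ : Eqv ψ) (c : ℝ) (p : S3) (m : ℍ[ℝ]) :
    Q μ ψ c ((p : ℍ[ℝ]) * m * star (p : ℍ[ℝ])) = Q μ ψ c m := by
  unfold Q
  rw [← integral_conj μ (fun g => (inner ℝ ((p : ℍ[ℝ]) * m * star (p : ℍ[ℝ])) (ψ g : ℍ[ℝ])) ^ 2
    * Real.exp (2 * c * (ψ g : ℍ[ℝ]).re)) p]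
  refine integral_congr_ae (Filter.Eventually.of_forall fun g => ?_)
  simp only
  rw [hψ.conj, coe_conj, re_conj, inner_conj]
  have : star (p : ℍ[ℝ]) * (p * ψ g * star (p : ℍ[ℝ])) * p = ψ g := by
    simp only [mul_assoc]
    rw [star_mul_self', mul_one, ← mul_assoc, star_mul_self', one_mul]
  rw [this]

lemma Q_neg (c : ℝ) (m : ℍ[ℝ]) : Q μ ψ c (-m) = Q μ ψ c m := by
  unfold Q
  simp only [inner_neg_left, neg_sq]

lemma Q_unit (hψ : Eqv ψ) (c : ℝ) {m m' : ℍ[ℝ]} (hre : m.re = 0) (hn : normSq m = 1)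
    (hre' : m'.re = 0) (hn' : normSq m' = 1) : Q μ ψ c m = Q μ ψ c m' := by
  by_cases h : m + m' = 0
  · have : m = -m' := eq_neg_of_add_eq_zero_left h
    rw [this, Q_neg]
  · have hne : ‖m + m'‖ ≠ 0 := norm_ne_zero_iff.2 h
    set p : S3 := ⟨(‖m + m'‖⁻¹ : ℝ) • (m + m'), by
      rw [mem_sphere_zero_iff_norm, norm_smul, norm_inv, norm_norm, inv_mul_cancel₀ hne]⟩ with hp
    have hpc : (p : ℍ[ℝ]) = (‖m + m'‖⁻¹ : ℝ) • (m + m') := rfl
    have key : (p : ℍ[ℝ]) * m' * star (p : ℍ[ℝ]) = m := by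
      have hs : ‖m + m'‖ * ‖m + m'‖ = 2 + 2 * (m.imI * m'.imI + m.imJ * m'.imJ + m.imK * m'.imK) := by
        rw [← normSq_eq_norm_mul_self, normSq_def']
        rw [normSq_def', hre] at hn
        rw [normSq_def', hre'] at hn'
        simp [hre, hre']
        linear_combination hn + hn'
      have e1 : (m + m') * m' * star (m + m') = (‖m + m'‖ * ‖m + m'‖) • m := by
        rw [hs]
        rw [normSq_def', hre] at hn
        rw [normSq_def', hre'] at hn'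
        ext
        · simp [hre, hre']
          ring
        · simp [hre, hre']
          linear_combination (-m'.imI) * hn + (m'.imI + 2 * m.imI) * hn'
        · simp [hre, hre']
          linear_combination (-m'.imJ) * hn + (m'.imJ + 2 * m.imJ) * hn'
        · simp [hre, hre']
          linear_combination (-m'.imK) * hn + (m'.imK + 2 * m.imK) * hn'
      rw [hpc, Quaternion.star_smul, smul_mul_assoc, smul_mul_smul_comm, e1, smul_smul]
      have : ‖m + m'‖⁻¹ * ‖m + m'‖⁻¹ * (‖m + m'‖ * ‖m + m'‖) = 1 := by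
        field_simp
      rw [this, one_smul]
    rw [← key, Q_conj μ hψ]

/-- second moment of the imaginary part -/
noncomputable def J (ψ : S3 → S3) (c : ℝ) : ℝ :=
  ∫ g, (1 - (ψ g : ℍ[ℝ]).re ^ 2) * Real.exp (2 * c * (ψ g : ℍ[ℝ]).re) ∂μ

lemma bm_eqv (hψ : Eqv ψ) {f : S3 → ℝ} (hf : Continuous f) : BM fun g => f (ψ g) :=
  (BM.of_continuous hf).comp hψ.meas

lemma bm_rt {f : S3 → ℝ} (hf : Continuous f) : BM fun g => f (rt g) :=
  (BM.of_continuous hf).comp measurable_rt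

lemma cont_re : Continuous fun k : S3 => (k : ℍ[ℝ]).re :=
  continuous_re.comp continuous_subtype_val

lemma cont_inner (m : ℍ[ℝ]) : Continuous fun k : S3 => inner ℝ m (k : ℍ[ℝ]) :=
  continuous_const.inner continuous_subtype_val

lemma cont_exp (c : ℝ) : Continuous fun k : S3 => Real.exp (2 * c * (k : ℍ[ℝ]).re) :=
  Real.continuous_exp.comp (continuous_const.mul cont_re)

/-- the imaginary units -/
def qI : ℍ[ℝ] := ⟨0, 1, 0, 0⟩
/-- the imaginary units -/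
def qJ : ℍ[ℝ] := ⟨0, 0, 1, 0⟩
/-- the imaginary units -/
def qK : ℍ[ℝ] := ⟨0, 0, 0, 1⟩

@[simp] lemma qI_re : qI.re = 0 := rfl
@[simp] lemma qI_imI : qI.imI = 1 := rfl
@[simp] lemma qI_imJ : qI.imJ = 0 := rfl
@[simp] lemma qI_imK : qI.imK = 0 := rfl
@[simp] lemma qJ_re : qJ.re = 0 := rfl
@[simp] lemma qJ_imI : qJ.imI = 0 := rfl
@[simp] lemma qJ_imJ : qJ.imJ = 1 := rfl
@[simp] lemma qJ_imK : qJ.imK = 0 := rfl
@[simp] lemma qK_re : qK.re = 0 := rfl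
@[simp] lemma qK_imI : qK.imI = 0 := rfl
@[simp] lemma qK_imJ : qK.imJ = 0 := rfl
@[simp] lemma qK_imK : qK.imK = 1 := rfl

lemma Q_eq (hψ : Eqv ψ) (c : ℝ) {m : ℍ[ℝ]} (hre : m.re = 0) (hn : normSq m = 1) :
    Q μ ψ c m = J μ ψ c / 3 := by
  have hI : Q μ ψ c m = Q μ ψ c qI := Q_unit μ hψ c hre hn rfl (by rw [normSq_def']; simp)
  have hJ : Q μ ψ c m = Q μ ψ c qJ := Q_unit μ hψ c hre hn rfl (by rw [normSq_def']; simp)
  have hK : Q μ ψ c m = Q μ ψ c qK := Q_unit μ hψ c hre hn rfl (by rw [normSq_def']; simp)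
  have bm : ∀ m : ℍ[ℝ], Integrable (fun g => (inner ℝ m (ψ g : ℍ[ℝ])) ^ 2
      * Real.exp (2 * c * (ψ g : ℍ[ℝ]).re)) μ := fun m =>
    (bm_eqv hψ (((cont_inner m).pow 2).mul (cont_exp c))).integrable μ
  have hs : Q μ ψ c qI + Q μ ψ c qJ + Q μ ψ c qK = J μ ψ c := by
    unfold Q J
    have b12 : Integrable (fun g => (inner ℝ qI (ψ g : ℍ[ℝ])) ^ 2
        * Real.exp (2 * c * (ψ g : ℍ[ℝ]).re) + (inner ℝ qJ (ψ g : ℍ[ℝ])) ^ 2
        * Real.exp (2 * c * (ψ g : ℍ[ℝ]).re)) μ := (bm qI).add (bm qJ)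
    rw [← integral_add (bm qI) (bm qJ), ← integral_add b12 (bm qK)]
    refine integral_congr_ae (Filter.Eventually.of_forall fun g => ?_)
    have h1 := normSq_coe (ψ g)
    rw [normSq_def'] at h1
    simp only [inner_def, Quaternion.re_mul, Quaternion.re_star, Quaternion.imI_star,
      Quaternion.imJ_star, Quaternion.imK_star, qI_re, qI_imI, qI_imJ, qI_imK, qJ_re,
      qJ_imI, qJ_imJ, qJ_imK, qK_re, qK_imI, qK_imJ, qK_imK]
    have h2 : 1 - (ψ g : ℍ[ℝ]).re ^ 2 = (ψ g : ℍ[ℝ]).imI ^ 2 + (ψ g : ℍ[ℝ]).imJ ^ 2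
      + (ψ g : ℍ[ℝ]).imK ^ 2 := by linarith
    rw [h2]
    ring
  linarith

lemma abs_sinh_le (x : ℝ) : |Real.sinh x| ≤ |x| * Real.exp |x| := by
  have key : ∀ y : ℝ, 0 ≤ y → |Real.sinh y| ≤ y * Real.exp y := by
    intro y hy
    have h0 : 0 ≤ Real.sinh y := Real.sinh_nonneg_iff.2 hy
    rw [abs_of_nonneg h0, Real.sinh_eq]
    have h1 := Real.add_one_le_exp (-2 * y)
    have h2 : Real.exp (-y) = Real.exp (-2 * y) * Real.exp y := by
      rw [← Real.exp_add]; ring_nf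
    rw [h2]
    have h3 := Real.exp_pos y
    nlinarith
  rcases le_total 0 x with h | h
  · rw [abs_of_nonneg h]; exact key x h
  · have := key (-x) (by linarith)
    rw [Real.sinh_neg, abs_neg] at this
    rwa [abs_of_nonpos h]

lemma inner_le_one {m : ℍ[ℝ]} (hn : ‖m‖ = 1) (k : S3) : |inner ℝ m (k : ℍ[ℝ])| ≤ 1 := by
  have := abs_real_inner_le_norm m (k : ℍ[ℝ])
  rwa [hn, norm_coe', mul_one] at this

/-- the estimate on one fibre -/
lemma fiber {c : ℝ} {γ : ℍ[ℝ]} (hγ : γ.re = 0) {f : S3 → ℝ} (hf : BM f)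
    (hodd : ∀ k, f k⁻¹ = -f k) {L : ℝ} (hL0 : 0 ≤ L)
    (hL : ∀ k k' : S3, |f k - f k'| ≤ 2 * L * ‖(k : ℍ[ℝ]) - k'‖) :
    |∫ g, f (rt g) * (Real.exp (2 * c * (rt g : ℍ[ℝ]).re)
        * Real.exp (-inner ℝ γ (rt g : ℍ[ℝ]))) ∂μ|
      ≤ 2 / 3 * L * ‖γ‖ * Real.exp ‖γ‖ * J μ rt c := by
  have hfr : BM fun g => f (rt g) := hf.comp measurable_rt
  have cexp : ∀ s : ℝ, Continuous fun k : S3 => Real.exp (s * inner ℝ γ (k : ℍ[ℝ])) := fun s =>
    Real.continuous_exp.comp (continuous_const.mul (cont_inner γ))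
  have bmE : ∀ s : ℝ, BM fun g => f (rt g) * (Real.exp (2 * c * (rt g : ℍ[ℝ]).re)
        * Real.exp (s * inner ℝ γ (rt g : ℍ[ℝ]))) := fun s =>
    hfr.mul (bm_rt ((cont_exp c).mul (cexp s)))
  have csinh : Continuous fun k : S3 => Real.sinh (inner ℝ γ (k : ℍ[ℝ])) :=
    Real.continuous_sinh.comp (cont_inner γ)
  have bmS : BM fun g => f (rt g) * (Real.exp (2 * c * (rt g : ℍ[ℝ]).re)
        * Real.sinh (inner ℝ γ (rt g : ℍ[ℝ]))) :=
    hfr.mul (bm_rt ((cont_exp c).mul csinh))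
  have hstar : ∀ k : S3, inner ℝ γ (star (k : ℍ[ℝ])) = -inner ℝ γ (k : ℍ[ℝ]) := by
    intro k
    rw [inner_def, inner_def, star_star]
    simp [hγ]
    ring
  -- first symmetrisation
  have e1 : ∫ g, f (rt g) * (Real.exp (2 * c * (rt g : ℍ[ℝ]).re)
        * Real.exp (-inner ℝ γ (rt g : ℍ[ℝ]))) ∂μ
      = -∫ g, f (rt g) * (Real.exp (2 * c * (rt g : ℍ[ℝ]).re)
        * Real.exp (inner ℝ γ (rt g : ℍ[ℝ]))) ∂μ := by
    rw [← integral_inv_eq_self (fun g => f (rt g) * (Real.exp (2 * c * (rt g : ℍ[ℝ]).re)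
        * Real.exp (-inner ℝ γ (rt g : ℍ[ℝ])))) μ, ← integral_neg]
    refine integral_congr_ae (Filter.Eventually.of_forall fun g => ?_)
    simp only
    rw [rt_inv, hodd, coe_inv, hstar, Quaternion.re_star]
    ring_nf
  have e2 : ∫ g, f (rt g) * (Real.exp (2 * c * (rt g : ℍ[ℝ]).re)
        * Real.exp (-inner ℝ γ (rt g : ℍ[ℝ]))) ∂μ
      = -∫ g, f (rt g) * (Real.exp (2 * c * (rt g : ℍ[ℝ]).re)
        * Real.sinh (inner ℝ γ (rt g : ℍ[ℝ]))) ∂μ := by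
    have e3 : ∫ g, f (rt g) * (Real.exp (2 * c * (rt g : ℍ[ℝ]).re)
        * Real.sinh (inner ℝ γ (rt g : ℍ[ℝ]))) ∂μ
        = (1 / 2) * ∫ g, f (rt g) * (Real.exp (2 * c * (rt g : ℍ[ℝ]).re)
          * Real.exp (inner ℝ γ (rt g : ℍ[ℝ]))) ∂μ
          - (1 / 2) * ∫ g, f (rt g) * (Real.exp (2 * c * (rt g : ℍ[ℝ]).re)
          * Real.exp (-inner ℝ γ (rt g : ℍ[ℝ]))) ∂μ := by
      have b1 := (bmE 1).integrable μ
      have b2 := (bmE (-1)).integrable μ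
      simp only [one_mul, neg_one_mul] at b1 b2
      rw [← integral_const_mul, ← integral_const_mul, ← integral_sub (b1.const_mul _)
        (b2.const_mul _)]
      refine integral_congr_ae (Filter.Eventually.of_forall fun g => ?_)
      simp only [Real.sinh_eq]
      ring
    linarith
  rw [e2, abs_neg]
  by_cases hγ0 : γ = 0
  · subst hγ0
    simp
  have hgn : ‖γ‖ ≠ 0 := norm_ne_zero_iff.2 hγ0
  have hgp : 0 < ‖γ‖ := norm_pos_iff.2 hγ0
  set m : S3 := ⟨(‖γ‖⁻¹ : ℝ) • γ, by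
    rw [mem_sphere_zero_iff_norm, norm_smul, norm_inv, norm_norm, inv_mul_cancel₀ hgn]⟩ with hm
  have hmc : (m : ℍ[ℝ]) = (‖γ‖⁻¹ : ℝ) • γ := rfl
  have hmre : (m : ℍ[ℝ]).re = 0 := by rw [hmc]; simp [hγ]
  have hγm : γ = ‖γ‖ • (m : ℍ[ℝ]) := by rw [hmc, smul_smul, mul_inv_cancel₀ hgn, one_smul]
  have hin : ∀ k : ℍ[ℝ], inner ℝ γ k = ‖γ‖ * inner ℝ (m : ℍ[ℝ]) k := by
    intro k
    conv_lhs => rw [hγm]
    rw [real_inner_smul_left]
  have hT : ∀ g : S3, (rt (m * g⁻¹ * m⁻¹) : ℍ[ℝ])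
      = (rt g : ℍ[ℝ]) - (2 * inner ℝ (m : ℍ[ℝ]) (rt g : ℍ[ℝ])) • (m : ℍ[ℝ]) := by
    intro g
    rw [rt_conj, coe_conj, rt_inv, coe_inv]
    exact reflect hmre (normSq_coe m) _
  have hmm : inner ℝ (m : ℍ[ℝ]) (m : ℍ[ℝ]) = 1 := by
    rw [Quaternion.inner_self, normSq_coe]
  -- second symmetrisation
  have e4 : ∫ g, f (rt g) * (Real.exp (2 * c * (rt g : ℍ[ℝ]).re)
        * Real.sinh (inner ℝ γ (rt g : ℍ[ℝ]))) ∂μ
      = -∫ g, f (rt (m * g⁻¹ * m⁻¹)) * (Real.exp (2 * c * (rt g : ℍ[ℝ]).re)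
        * Real.sinh (inner ℝ γ (rt g : ℍ[ℝ]))) ∂μ := by
    have h1 := integral_conj μ (fun g => f (rt g) * (Real.exp (2 * c * (rt g : ℍ[ℝ]).re)
        * Real.sinh (inner ℝ γ (rt g : ℍ[ℝ])))) m
    have h2 := integral_inv_eq_self (fun g => (fun g => f (rt g)
        * (Real.exp (2 * c * (rt g : ℍ[ℝ]).re)
        * Real.sinh (inner ℝ γ (rt g : ℍ[ℝ])))) (m * g * m⁻¹)) μ
    rw [← h1, ← h2, ← integral_neg]
    refine integral_congr_ae (Filter.Eventually.of_forall fun g => ?_)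
    simp only
    have h3 : ((rt (m * g⁻¹ * m⁻¹) : S3) : ℍ[ℝ]).re = (rt g : ℍ[ℝ]).re := by
      rw [hT]; simp [hmre]
    have h4 : inner ℝ γ ((rt (m * g⁻¹ * m⁻¹) : S3) : ℍ[ℝ]) = -inner ℝ γ (rt g : ℍ[ℝ]) := by
      rw [hT, hin, hin, inner_sub_right, inner_smul_right, hmm]
      ring
    rw [h3, h4, Real.sinh_neg]
    ring
  have mT : Measurable fun g : S3 => rt (m * g⁻¹ * m⁻¹) :=
    measurable_rt.comp ((measurable_inv.const_mul m).mul_const _)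
  have bmS' : BM fun g => f (rt (m * g⁻¹ * m⁻¹)) * (Real.exp (2 * c * (rt g : ℍ[ℝ]).re)
        * Real.sinh (inner ℝ γ (rt g : ℍ[ℝ]))) :=
    (hf.comp mT).mul (bm_rt ((cont_exp c).mul csinh))
  have e5 : ∫ g, f (rt g) * (Real.exp (2 * c * (rt g : ℍ[ℝ]).re)
        * Real.sinh (inner ℝ γ (rt g : ℍ[ℝ]))) ∂μ
      = (1 / 2) * ∫ g, (f (rt g) - f (rt (m * g⁻¹ * m⁻¹)))
        * (Real.exp (2 * c * (rt g : ℍ[ℝ]).re)
        * Real.sinh (inner ℝ γ (rt g : ℍ[ℝ]))) ∂μ := by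
    have : ∫ g, (f (rt g) - f (rt (m * g⁻¹ * m⁻¹)))
        * (Real.exp (2 * c * (rt g : ℍ[ℝ]).re)
        * Real.sinh (inner ℝ γ (rt g : ℍ[ℝ]))) ∂μ
        = ∫ g, f (rt g) * (Real.exp (2 * c * (rt g : ℍ[ℝ]).re)
        * Real.sinh (inner ℝ γ (rt g : ℍ[ℝ]))) ∂μ
        - ∫ g, f (rt (m * g⁻¹ * m⁻¹)) * (Real.exp (2 * c * (rt g : ℍ[ℝ]).re)
        * Real.sinh (inner ℝ γ (rt g : ℍ[ℝ]))) ∂μ := by
      rw [← integral_sub (bmS.integrable μ) (bmS'.integrable μ)]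
      refine integral_congr_ae (Filter.Eventually.of_forall fun g => ?_)
      simp only
      ring
    linarith
  have e6 : |∫ g, (f (rt g) - f (rt (m * g⁻¹ * m⁻¹)))
        * (Real.exp (2 * c * (rt g : ℍ[ℝ]).re)
        * Real.sinh (inner ℝ γ (rt g : ℍ[ℝ]))) ∂μ|
      ≤ ∫ g, (4 * L * ‖γ‖ * Real.exp ‖γ‖) * ((inner ℝ (m : ℍ[ℝ]) (rt g : ℍ[ℝ])) ^ 2
        * Real.exp (2 * c * (rt g : ℍ[ℝ]).re)) ∂μ := by
    rw [← Real.norm_eq_abs]
    refine norm_integral_le_of_norm_le (((bm_rt (((cont_inner (m : ℍ[ℝ])).pow 2).mul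
      (cont_exp c))).integrable μ).const_mul _) (Filter.Eventually.of_forall fun g => ?_)
    rw [Real.norm_eq_abs, abs_mul, abs_mul, abs_of_pos (Real.exp_pos _)]
    have h1 := hL (rt g) (rt (m * g⁻¹ * m⁻¹))
    have h2 : ‖(rt g : ℍ[ℝ]) - (rt (m * g⁻¹ * m⁻¹) : ℍ[ℝ])‖
        = 2 * |inner ℝ (m : ℍ[ℝ]) (rt g : ℍ[ℝ])| := by
      rw [hT, sub_sub_cancel, norm_smul, norm_coe', mul_one, Real.norm_eq_abs, abs_mul]
      norm_num
    rw [h2] at h1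
    have h3 : |Real.sinh (inner ℝ γ (rt g : ℍ[ℝ]))|
        ≤ ‖γ‖ * |inner ℝ (m : ℍ[ℝ]) (rt g : ℍ[ℝ])| * Real.exp ‖γ‖ := by
      refine (abs_sinh_le _).trans ?_
      rw [hin, abs_mul, abs_of_pos hgp]
      refine mul_le_mul_of_nonneg_left (Real.exp_le_exp.2 ?_) (by positivity)
      exact mul_le_of_le_one_right hgp.le (inner_le_one (norm_coe' m) _)
    have h4 : (inner ℝ (m : ℍ[ℝ]) (rt g : ℍ[ℝ])) ^ 2
        = |inner ℝ (m : ℍ[ℝ]) (rt g : ℍ[ℝ])| * |inner ℝ (m : ℍ[ℝ]) (rt g : ℍ[ℝ])| := by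
      rw [← abs_mul, abs_of_nonneg (mul_self_nonneg _)]; ring
    rw [h4]
    calc _ ≤ (2 * L * (2 * |inner ℝ (m : ℍ[ℝ]) (rt g : ℍ[ℝ])|))
          * (Real.exp (2 * c * (rt g : ℍ[ℝ]).re)
            * (‖γ‖ * |inner ℝ (m : ℍ[ℝ]) (rt g : ℍ[ℝ])| * Real.exp ‖γ‖)) := by
          refine mul_le_mul h1 (mul_le_mul_of_nonneg_left h3 (Real.exp_pos _).le) ?_ ?_
          · positivity
          · positivity
      _ = _ := by ring
  rw [integral_const_mul] at e6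
  have e7 : ∫ g, (inner ℝ (m : ℍ[ℝ]) (rt g : ℍ[ℝ])) ^ 2
        * Real.exp (2 * c * (rt g : ℍ[ℝ]).re) ∂μ = J μ rt c / 3 := Q_eq μ eqv_rt c hmre (normSq_coe m)
  rw [e7] at e6
  rw [e5, abs_mul]
  have : |(1 / 2 : ℝ)| = 1 / 2 := by norm_num
  rw [this]
  calc _ ≤ 1 / 2 * (4 * L * ‖γ‖ * Real.exp ‖γ‖ * (J μ rt c / 3)) :=
        mul_le_mul_of_nonneg_left e6 (by norm_num)
    _ = _ := by ring

end Pool.Agent.H556R4.SU2
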