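import Pool.Agent.H556R4.SU2b

/-!
# Moments of the tilted measures and the variance bound
-/

namespace Pool.Agent.H556R4.SU2

open MeasureTheory Quaternion Dob

set_option linter.unusedSectionVars false

/-- exponent in the new coordinates -/
lemma expo (σ k : S3) (h h' : ℍ[ℝ]) :
    inner ℝ h ((σ * k⁻¹ : S3) : ℍ[ℝ]) + inner ℝ h' ((σ * k : S3) : ℍ[ℝ])
      = 2 * ((inner ℝ h (σ : ℍ[ℝ]) + inner ℝ h' (σ : ℍ[ℝ])) / 2) * (k : ℍ[ℝ]).re
        - inner ℝ (star (σ : ℍ[ℝ]) * (h - h')).im (k : ℍ[ℝ]) := by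
  rw [Metric.unitSphere.coe_mul, Metric.unitSphere.coe_mul, coe_inv, inner_mul_left, inner_mul_left]
  have e1 : ∀ x : ℍ[ℝ], inner ℝ x (σ : ℍ[ℝ]) = (star (σ : ℍ[ℝ]) * x).re := fun x => by
    rw [inner_def, re_cyc]
  rw [e1, e1, mul_sub]
  generalize star (σ : ℍ[ℝ]) * h = a
  generalize star (σ : ℍ[ℝ]) * h' = b
  simp only [inner_def, Quaternion.re_mul, Quaternion.re_star, Quaternion.imI_star,
    Quaternion.imJ_star, Quaternion.imK_star, Quaternion.re_im, Quaternion.imI_im,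
    Quaternion.imJ_im, Quaternion.imK_im, Quaternion.re_sub, Quaternion.imI_sub,
    Quaternion.imJ_sub, Quaternion.imK_sub]
  ring

/-- difference in the new coordinates -/
lemma diff_inner (σ k : S3) (δ : ℍ[ℝ]) :
    inner ℝ δ (((σ * k⁻¹ : S3) : ℍ[ℝ]) - ((σ * k : S3) : ℍ[ℝ]))
      = -2 * inner ℝ (star (σ : ℍ[ℝ]) * δ).im (k : ℍ[ℝ]) := by
  rw [inner_sub_right, Metric.unitSphere.coe_mul, Metric.unitSphere.coe_mul, coe_inv,
    inner_mul_left, inner_mul_left]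
  generalize star (σ : ℍ[ℝ]) * δ = a
  simp only [inner_def, Quaternion.re_mul, Quaternion.re_star, Quaternion.imI_star,
    Quaternion.imJ_star, Quaternion.imK_star, Quaternion.re_im, Quaternion.imI_im,
    Quaternion.imJ_im, Quaternion.imK_im]
  ring

lemma re_sq_le (k : S3) : (k : ℍ[ℝ]).re ^ 2 ≤ 1 := by
  have h1 := normSq_coe k
  rw [normSq_def'] at h1
  nlinarith [sq_nonneg (k : ℍ[ℝ]).imI, sq_nonneg (k : ℍ[ℝ]).imJ, sq_nonneg (k : ℍ[ℝ]).imK]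

lemma diff_norm (σ k : S3) :
    ‖((σ * k⁻¹ : S3) : ℍ[ℝ]) - ((σ * k : S3) : ℍ[ℝ])‖ ^ 2 = 4 * (1 - (k : ℍ[ℝ]).re ^ 2) := by
  rw [Metric.unitSphere.coe_mul, Metric.unitSphere.coe_mul, coe_inv, ← mul_sub, norm_mul,
    norm_coe', one_mul, sq, ← normSq_eq_norm_mul_self, normSq_def']
  have h1 := normSq_coe k
  rw [normSq_def'] at h1
  simp only [Quaternion.re_sub, Quaternion.imI_sub,
    Quaternion.imJ_sub, Quaternion.imK_sub, Quaternion.re_star, Quaternion.imI_star,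
    Quaternion.imJ_star, Quaternion.imK_star]
  linear_combination 4 * h1

variable [MeasurableSpace S3] [BorelSpace S3] (μ : Measure S3) [IsProbabilityMeasure μ]
  [μ.IsMulLeftInvariant] [μ.IsMulRightInvariant] [μ.IsInvInvariant]

/-- partition function of one spin in the field `h` -/
noncomputable def Zs (h : ℍ[ℝ]) : ℝ := ∫ s, Real.exp (inner ℝ h (s : ℍ[ℝ])) ∂μ

lemma cont_w (h : ℍ[ℝ]) : Continuous fun s : S3 => Real.exp (inner ℝ h (s : ℍ[ℝ])) :=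
  Real.continuous_exp.comp (cont_inner h)

lemma Zs_pos (h : ℍ[ℝ]) : 0 < Zs μ h := by
  have hb := BM.of_continuous (cont_w h)
  refine integral_pos_of_lb μ hb (Real.exp_pos (-‖h‖)) fun s => Real.exp_le_exp.2 ?_
  have := abs_le.1 (abs_real_inner_le_norm h (s : ℍ[ℝ]))
  rw [norm_coe', mul_one] at this
  exact this.1

/-- product functions -/
lemma prod_int {f g : S3 → ℝ} (h : ℍ[ℝ]) :
    ∫ p : S3 × S3, f p.1 * g p.2 * Real.exp (inner ℝ h (p.1 : ℍ[ℝ]) + inner ℝ h (p.2 : ℍ[ℝ]))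
      ∂(μ.prod μ)
      = (∫ s, f s * Real.exp (inner ℝ h (s : ℍ[ℝ])) ∂μ)
        * ∫ s, g s * Real.exp (inner ℝ h (s : ℍ[ℝ])) ∂μ := by
  rw [← integral_prod_mul]
  refine integral_congr_ae (Filter.Eventually.of_forall fun p => ?_)
  simp only [Real.exp_add]
  ring

lemma BM.of_cont {α : Type} [TopologicalSpace α] [CompactSpace α] [MeasurableSpace α]
    [OpensMeasurableSpace α] {f : α → ℝ} (hf : Continuous f) : BM f := by
  refine ⟨hf.measurable, ?_⟩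
  obtain ⟨C, hC⟩ := isCompact_univ.exists_bound_of_continuousOn hf.continuousOn
  exact ⟨C, fun a => by simpa using hC a (Set.mem_univ _)⟩

lemma int5 {α : Type} [MeasurableSpace α] {ν : Measure α} {A B C D E : α → ℝ}
    (hA : Integrable A ν) (hB : Integrable B ν) (hC : Integrable C ν) (hD : Integrable D ν)
    (hE : Integrable E ν) : ∫ a, (A a - B a - C a - D a - E a) ∂ν
      = ∫ a, A a ∂ν - ∫ a, B a ∂ν - ∫ a, C a ∂ν - ∫ a, D a ∂ν - ∫ a, E a ∂ν := by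
  have h1 : Integrable (fun a => A a - B a) ν := hA.sub hB
  have h2 : Integrable (fun a => A a - B a - C a) ν := h1.sub hC
  have h3 : Integrable (fun a => A a - B a - C a - D a) ν := h2.sub hD
  rw [integral_sub h3 hE, integral_sub h2 hD, integral_sub h1 hC, integral_sub hA hB]

/-- association inequality for oppositely ordered functions -/
lemma cheb_anti {f g : S3 → ℝ} (hf : BM f) (hg : BM g)
    (h : ∀ x y, (f x - f y) * (g x - g y) ≤ 0) :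
    ∫ x, f x * g x ∂μ ≤ (∫ x, f x ∂μ) * ∫ x, g x ∂μ := by
  have i1 : Integrable (fun p : S3 × S3 => f p.1 * g p.1) (μ.prod μ) :=
    ((hf.mul hg).comp measurable_fst).integrable _
  have i2 : Integrable (fun p : S3 × S3 => f p.2 * g p.2) (μ.prod μ) :=
    ((hf.mul hg).comp measurable_snd).integrable _
  have i3 : Integrable (fun p : S3 × S3 => f p.1 * g p.2) (μ.prod μ) :=
    ((hf.comp measurable_fst).mul (hg.comp measurable_snd)).integrable _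
  have i4 : Integrable (fun p : S3 × S3 => g p.1 * f p.2) (μ.prod μ) :=
    ((hg.comp measurable_fst).mul (hf.comp measurable_snd)).integrable _
  have e1 : ∫ p : S3 × S3, f p.1 * g p.1 ∂(μ.prod μ) = ∫ x, f x * g x ∂μ := by
    have := integral_prod_mul (μ := μ) (ν := μ) (fun x => f x * g x) (fun _ => (1 : ℝ))
    simpa using this
  have e2 : ∫ p : S3 × S3, f p.2 * g p.2 ∂(μ.prod μ) = ∫ x, f x * g x ∂μ := by
    have := integral_prod_mul (μ := μ) (ν := μ) (fun _ => (1 : ℝ)) (fun x => f x * g x)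
    simpa using this
  have e3 : ∫ p : S3 × S3, f p.1 * g p.2 ∂(μ.prod μ) = (∫ x, f x ∂μ) * ∫ x, g x ∂μ :=
    integral_prod_mul f g
  have e4 : ∫ p : S3 × S3, g p.1 * f p.2 ∂(μ.prod μ) = (∫ x, g x ∂μ) * ∫ x, f x ∂μ :=
    integral_prod_mul g f
  have i12 : Integrable (fun p : S3 × S3 => f p.1 * g p.1 + f p.2 * g p.2) (μ.prod μ) := i1.add i2
  have i34 : Integrable (fun p : S3 × S3 => f p.1 * g p.2 + g p.1 * f p.2) (μ.prod μ) := i3.add i4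
  have key : ∫ p : S3 × S3, (f p.1 * g p.1 + f p.2 * g p.2) ∂(μ.prod μ)
      ≤ ∫ p : S3 × S3, (f p.1 * g p.2 + g p.1 * f p.2) ∂(μ.prod μ) := by
    refine integral_mono i12 i34 fun p => ?_
    have := h p.1 p.2
    simp only
    nlinarith
  rw [integral_add i1 i2, integral_add i3 i4, e1, e2, e3, e4] at key
  linarith

/-- the element `-1` -/
def negOne : S3 := ⟨-1, by simp⟩

lemma negOne_mul (s : S3) : ((negOne * s : S3) : ℍ[ℝ]) = -(s : ℍ[ℝ]) := by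
  rw [Metric.unitSphere.coe_mul]; simp [negOne]

/-- symmetrisation in the sign -/
lemma sym_cosh (a : ℝ) {f : S3 → ℝ} (hf : BM f) (hev : ∀ s, f (negOne * s) = f s) :
    ∫ s, f s * Real.exp (a * (s : ℍ[ℝ]).re) ∂μ = ∫ s, f s * Real.cosh (a * (s : ℍ[ℝ]).re) ∂μ := by
  have ce : ∀ b : ℝ, BM fun s : S3 => Real.exp (b * (s : ℍ[ℝ]).re) := fun b =>
    BM.of_continuous (Real.continuous_exp.comp (continuous_const.mul cont_re))
  have h1 : ∫ s, f s * Real.exp (a * (s : ℍ[ℝ]).re) ∂μ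
      = ∫ s, f s * Real.exp (-a * (s : ℍ[ℝ]).re) ∂μ := by
    rw [← integral_mul_left_eq_self _ negOne]
    refine integral_congr_ae (Filter.Eventually.of_forall fun s => ?_)
    simp only
    rw [hev, negOne_mul, Quaternion.re_neg]
    ring_nf
  have h2 : ∫ s, f s * Real.cosh (a * (s : ℍ[ℝ]).re) ∂μ
      = (1 / 2) * (∫ s, f s * Real.exp (a * (s : ℍ[ℝ]).re) ∂μ)
        + (1 / 2) * ∫ s, f s * Real.exp (-a * (s : ℍ[ℝ]).re) ∂μ := by
    rw [← integral_const_mul, ← integral_const_mul,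
      ← integral_add (((hf.mul (ce a)).integrable μ).const_mul _)
        (((hf.mul (ce (-a))).integrable μ).const_mul _)]
    refine integral_congr_ae (Filter.Eventually.of_forall fun s => ?_)
    simp only [Real.cosh_eq]
    ring_nf
  rw [h2, ← h1]
  ring

/-- the unit `i` as a group element -/
def uI : S3 := ⟨qI, by
  rw [mem_sphere_zero_iff_norm, ← sq_eq_sq₀ (norm_nonneg _) zero_le_one, sq,
    ← normSq_eq_norm_mul_self, normSq_def']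
  simp⟩

lemma int_one_sub : ∫ s : S3, (1 - (s : ℍ[ℝ]).re ^ 2) ∂μ = 1 - ∫ s : S3, (s : ℍ[ℝ]).re ^ 2 ∂μ := by
  have i2 : Integrable (fun s : S3 => (s : ℍ[ℝ]).re ^ 2) μ :=
    (BM.of_continuous (cont_re.pow 2)).integrable μ
  rw [integral_sub (integrable_const _) i2]
  simp

lemma int_re_sq : ∫ s : S3, (s : ℍ[ℝ]).re ^ 2 ∂μ = 1 / 4 := by
  have h1 : ∫ s : S3, (s : ℍ[ℝ]).re ^ 2 ∂μ = Q μ id 0 qI := by
    unfold Q
    rw [← integral_mul_left_eq_self (fun s : S3 => inner ℝ qI ((id s : S3) : ℍ[ℝ]) ^ 2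
      * Real.exp (2 * 0 * ((id s : S3) : ℍ[ℝ]).re)) uI]
    refine integral_congr_ae (Filter.Eventually.of_forall fun s => ?_)
    simp only [id, mul_zero, zero_mul, Real.exp_zero, mul_one]
    have : ((uI : S3) : ℍ[ℝ]) = qI := rfl
    rw [Metric.unitSphere.coe_mul, this]
    congr 1
    simp [inner_def]
  have h2 := Q_eq μ eqv_id 0 (m := qI) rfl (by rw [normSq_def']; simp)
  have h3 : J μ id 0 = 1 - ∫ s : S3, (s : ℍ[ℝ]).re ^ 2 ∂μ := by
    unfold J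
    simp only [id, mul_zero, zero_mul, Real.exp_zero, mul_one]
    exact int_one_sub μ
  rw [← h1, h3] at h2
  linarith

/-- `E (1 - re²) ≤ 3/4` for every tilt -/
lemma tilt_re (a : ℝ) : ∫ s : S3, (1 - (s : ℍ[ℝ]).re ^ 2) * Real.exp (a * (s : ℍ[ℝ]).re) ∂μ
    ≤ 3 / 4 * ∫ s : S3, Real.exp (a * (s : ℍ[ℝ]).re) ∂μ := by
  have c1 : Continuous fun s : S3 => 1 - (s : ℍ[ℝ]).re ^ 2 := continuous_const.sub (cont_re.pow 2)
  have c2 : Continuous fun s : S3 => Real.cosh (a * (s : ℍ[ℝ]).re) :=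
    Real.continuous_cosh.comp (continuous_const.mul cont_re)
  rw [sym_cosh μ a (BM.of_continuous c1) (fun s => by rw [negOne_mul, Quaternion.re_neg]; ring)]
  have h2 : ∫ s : S3, Real.exp (a * (s : ℍ[ℝ]).re) ∂μ = ∫ s : S3, Real.cosh (a * (s : ℍ[ℝ]).re) ∂μ := by
    have := sym_cosh μ a (f := fun _ => 1) ⟨measurable_const, 1, fun _ => by simp⟩ (fun _ => rfl)
    simpa using this
  rw [h2]
  refine (cheb_anti μ (BM.of_continuous c1) (BM.of_continuous c2) fun x y => ?_).trans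
    (le_of_eq ?_)
  · rcases le_total |(x : ℍ[ℝ]).re| |(y : ℍ[ℝ]).re| with h | h
    · have h3 : (x : ℍ[ℝ]).re ^ 2 ≤ (y : ℍ[ℝ]).re ^ 2 := sq_le_sq.2 h
      have h4 : Real.cosh (a * (x : ℍ[ℝ]).re) ≤ Real.cosh (a * (y : ℍ[ℝ]).re) := by
        rw [Real.cosh_le_cosh, abs_mul, abs_mul]
        exact mul_le_mul_of_nonneg_left h (abs_nonneg _)
      exact mul_nonpos_of_nonneg_of_nonpos (by linarith) (by linarith)
    · have h3 : (y : ℍ[ℝ]).re ^ 2 ≤ (x : ℍ[ℝ]).re ^ 2 := sq_le_sq.2 h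
      have h4 : Real.cosh (a * (y : ℍ[ℝ]).re) ≤ Real.cosh (a * (x : ℍ[ℝ]).re) := by
        rw [Real.cosh_le_cosh, abs_mul, abs_mul]
        exact mul_le_mul_of_nonneg_left h (abs_nonneg _)
      exact mul_nonpos_of_nonpos_of_nonneg (by linarith) (by linarith)
  · congr 1
    rw [int_one_sub, int_re_sq]
    norm_num

/-- `∫ J ≤ Z² / 2` -/
lemma A1 (h : ℍ[ℝ]) : ∫ σ : S3, J μ rt (inner ℝ h (σ : ℍ[ℝ])) ∂μ ≤ 1 / 2 * (Zs μ h) ^ 2 := by
  have cW : Continuous fun p : S3 × S3 =>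
      Real.exp (inner ℝ h (p.1 : ℍ[ℝ]) + inner ℝ h (p.2 : ℍ[ℝ])) :=
    Real.continuous_exp.comp (((cont_inner h).comp continuous_fst).add
      ((cont_inner h).comp continuous_snd))
  have cN : Continuous fun p : S3 × S3 => ‖(p.1 : ℍ[ℝ]) - (p.2 : ℍ[ℝ])‖ ^ 2 :=
    (((continuous_subtype_val.comp continuous_fst).sub
      (continuous_subtype_val.comp continuous_snd)).norm).pow 2
  have cNW : Continuous fun p : S3 × S3 => ‖(p.1 : ℍ[ℝ]) - (p.2 : ℍ[ℝ])‖ ^ 2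
      * Real.exp (inner ℝ h (p.1 : ℍ[ℝ]) + inner ℝ h (p.2 : ℍ[ℝ])) := cN.mul cW
  have e1 := cv μ (BM.of_cont cNW)
  have e2 : ∫ σ : S3, J μ rt (inner ℝ h (σ : ℍ[ℝ])) ∂μ
      = 1 / 4 * ∫ p : S3 × S3, ‖(p.1 : ℍ[ℝ]) - (p.2 : ℍ[ℝ])‖ ^ 2
        * Real.exp (inner ℝ h (p.1 : ℍ[ℝ]) + inner ℝ h (p.2 : ℍ[ℝ])) ∂(μ.prod μ) := by
    rw [e1, ← integral_const_mul]
    refine integral_congr_ae (Filter.Eventually.of_forall fun σ => ?_)
    unfold J
    simp only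
    rw [← integral_const_mul]
    refine integral_congr_ae (Filter.Eventually.of_forall fun g => ?_)
    simp only
    rw [diff_norm, expo, sub_self, mul_zero]
    have : inner ℝ (0 : ℍ[ℝ]).im ((rt g : S3) : ℍ[ℝ]) = 0 := by
      rw [Quaternion.im_zero, inner_zero_left]
    rw [this, sub_zero]
    have h2 : (inner ℝ h (σ : ℍ[ℝ]) + inner ℝ h (σ : ℍ[ℝ])) / 2 = inner ℝ h (σ : ℍ[ℝ]) := by ring
    rw [h2]
    ring
  rw [e2]
  have ci : Continuous fun k : S3 => (k : ℍ[ℝ]).imI := continuous_imI.comp continuous_subtype_val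
  have cj : Continuous fun k : S3 => (k : ℍ[ℝ]).imJ := continuous_imJ.comp continuous_subtype_val
  have ck : Continuous fun k : S3 => (k : ℍ[ℝ]).imK := continuous_imK.comp continuous_subtype_val
  have I : ∀ {f g : S3 → ℝ}, Continuous f → Continuous g →
      Integrable (fun p : S3 × S3 => f p.1 * g p.2
        * Real.exp (inner ℝ h (p.1 : ℍ[ℝ]) + inner ℝ h (p.2 : ℍ[ℝ]))) (μ.prod μ) :=
    fun hf hg => (BM.of_cont (((hf.comp continuous_fst).mul (hg.comp continuous_snd)).mul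
      cW)).integrable _
  have e3 : ∀ p : S3 × S3, ‖(p.1 : ℍ[ℝ]) - (p.2 : ℍ[ℝ])‖ ^ 2
      * Real.exp (inner ℝ h (p.1 : ℍ[ℝ]) + inner ℝ h (p.2 : ℍ[ℝ]))
      = 2 * ((1 : ℝ) * 1 * Real.exp (inner ℝ h (p.1 : ℍ[ℝ]) + inner ℝ h (p.2 : ℍ[ℝ])))
        - 2 * ((p.1 : ℍ[ℝ]).re * (p.2 : ℍ[ℝ]).re
            * Real.exp (inner ℝ h (p.1 : ℍ[ℝ]) + inner ℝ h (p.2 : ℍ[ℝ])))
        - 2 * ((p.1 : ℍ[ℝ]).imI * (p.2 : ℍ[ℝ]).imI
            * Real.exp (inner ℝ h (p.1 : ℍ[ℝ]) + inner ℝ h (p.2 : ℍ[ℝ])))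
        - 2 * ((p.1 : ℍ[ℝ]).imJ * (p.2 : ℍ[ℝ]).imJ
            * Real.exp (inner ℝ h (p.1 : ℍ[ℝ]) + inner ℝ h (p.2 : ℍ[ℝ])))
        - 2 * ((p.1 : ℍ[ℝ]).imK * (p.2 : ℍ[ℝ]).imK
            * Real.exp (inner ℝ h (p.1 : ℍ[ℝ]) + inner ℝ h (p.2 : ℍ[ℝ]))) := by
    intro p
    have h1 := normSq_coe p.1
    have h2 := normSq_coe p.2
    rw [normSq_def'] at h1 h2
    rw [sq, ← normSq_eq_norm_mul_self, normSq_def']
    simp only [Quaternion.re_sub, Quaternion.imI_sub, Quaternion.imJ_sub, Quaternion.imK_sub]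
    linear_combination (Real.exp (inner ℝ h (p.1 : ℍ[ℝ]) + inner ℝ h (p.2 : ℍ[ℝ]))) * (h1 + h2)
  have i0 := (I continuous_const continuous_const : Integrable (fun p : S3 × S3 => (1 : ℝ) * 1
    * Real.exp (inner ℝ h (p.1 : ℍ[ℝ]) + inner ℝ h (p.2 : ℍ[ℝ]))) (μ.prod μ)).const_mul 2
  have i1 := (I cont_re cont_re).const_mul 2
  have i2 := (I ci ci).const_mul 2
  have i3 := (I cj cj).const_mul 2
  have i4 := (I ck ck).const_mul 2
  have e4 : ∫ p : S3 × S3, ‖(p.1 : ℍ[ℝ]) - (p.2 : ℍ[ℝ])‖ ^ 2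
        * Real.exp (inner ℝ h (p.1 : ℍ[ℝ]) + inner ℝ h (p.2 : ℍ[ℝ])) ∂(μ.prod μ)
      = 2 * (Zs μ h * Zs μ h)
        - 2 * ((∫ s : S3, (s : ℍ[ℝ]).re * Real.exp (inner ℝ h (s : ℍ[ℝ])) ∂μ)
            * ∫ s : S3, (s : ℍ[ℝ]).re * Real.exp (inner ℝ h (s : ℍ[ℝ])) ∂μ)
        - 2 * ((∫ s : S3, (s : ℍ[ℝ]).imI * Real.exp (inner ℝ h (s : ℍ[ℝ])) ∂μ)
            * ∫ s : S3, (s : ℍ[ℝ]).imI * Real.exp (inner ℝ h (s : ℍ[ℝ])) ∂μ)
        - 2 * ((∫ s : S3, (s : ℍ[ℝ]).imJ * Real.exp (inner ℝ h (s : ℍ[ℝ])) ∂μ)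
            * ∫ s : S3, (s : ℍ[ℝ]).imJ * Real.exp (inner ℝ h (s : ℍ[ℝ])) ∂μ)
        - 2 * ((∫ s : S3, (s : ℍ[ℝ]).imK * Real.exp (inner ℝ h (s : ℍ[ℝ])) ∂μ)
            * ∫ s : S3, (s : ℍ[ℝ]).imK * Real.exp (inner ℝ h (s : ℍ[ℝ])) ∂μ) := by
    simp only [e3]
    rw [int5 i0 i1 i2 i3 i4]
    rw [integral_const_mul (2 : ℝ), integral_const_mul (2 : ℝ), integral_const_mul (2 : ℝ),
      integral_const_mul (2 : ℝ), integral_const_mul (2 : ℝ), prod_int μ (f := fun _ => 1) (g := fun _ => 1),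
      prod_int μ (f := fun s => (s : ℍ[ℝ]).re) (g := fun s => (s : ℍ[ℝ]).re),
      prod_int μ (f := fun s => (s : ℍ[ℝ]).imI) (g := fun s => (s : ℍ[ℝ]).imI),
      prod_int μ (f := fun s => (s : ℍ[ℝ]).imJ) (g := fun s => (s : ℍ[ℝ]).imJ),
      prod_int μ (f := fun s => (s : ℍ[ℝ]).imK) (g := fun s => (s : ℍ[ℝ]).imK)]
    simp only [one_mul]
    rfl
  rw [e4]
  nlinarith [mul_self_nonneg (∫ s : S3, (s : ℍ[ℝ]).re * Real.exp (inner ℝ h (s : ℍ[ℝ])) ∂μ),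
    mul_self_nonneg (∫ s : S3, (s : ℍ[ℝ]).imI * Real.exp (inner ℝ h (s : ℍ[ℝ])) ∂μ),
    mul_self_nonneg (∫ s : S3, (s : ℍ[ℝ]).imJ * Real.exp (inner ℝ h (s : ℍ[ℝ])) ∂μ),
    mul_self_nonneg (∫ s : S3, (s : ℍ[ℝ]).imK * Real.exp (inner ℝ h (s : ℍ[ℝ])) ∂μ)]

/-- second moment of `rt` in an arbitrary imaginary direction -/
lemma Qg {ψ : S3 → S3} (hψ : Eqv ψ) (c : ℝ) {γ : ℍ[ℝ]} (hγ : γ.re = 0) :
    ∫ g, (inner ℝ γ (ψ g : ℍ[ℝ])) ^ 2 * Real.exp (2 * c * (ψ g : ℍ[ℝ]).re) ∂μ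
      = ‖γ‖ ^ 2 * (J μ ψ c / 3) := by
  by_cases h0 : γ = 0
  · subst h0; simp
  · have hn : ‖γ‖ ≠ 0 := norm_ne_zero_iff.2 h0
    set m : ℍ[ℝ] := (‖γ‖⁻¹ : ℝ) • γ with hm
    have hmn : ‖m‖ = 1 := by
      rw [hm, norm_smul, norm_inv, norm_norm, inv_mul_cancel₀ hn]
    have hγm : γ = ‖γ‖ • m := by rw [hm, smul_smul, mul_inv_cancel₀ hn, one_smul]
    have h1 := Q_eq μ hψ c (m := m) (by rw [hm]; simp [hγ])
      (by rw [normSq_eq_norm_mul_self, hmn, one_mul])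
    rw [← h1]
    unfold Q
    rw [← integral_const_mul]
    refine integral_congr_ae (Filter.Eventually.of_forall fun g => ?_)
    simp only
    conv_lhs => rw [hγm]
    rw [real_inner_smul_left]
    ring

/-- `∫ ‖γ‖² J` is the variance of `⟪δ, s⟫` -/
lemma A2 (h δ : ℍ[ℝ]) :
    ∫ σ : S3, ‖(star (σ : ℍ[ℝ]) * δ).im‖ ^ 2 * J μ rt (inner ℝ h (σ : ℍ[ℝ])) ∂μ
      = 3 / 4 * ∫ p : S3 × S3, (inner ℝ δ ((p.1 : ℍ[ℝ]) - (p.2 : ℍ[ℝ]))) ^ 2
        * Real.exp (inner ℝ h (p.1 : ℍ[ℝ]) + inner ℝ h (p.2 : ℍ[ℝ])) ∂(μ.prod μ) := by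
  have cW : Continuous fun p : S3 × S3 => (inner ℝ δ ((p.1 : ℍ[ℝ]) - (p.2 : ℍ[ℝ]))) ^ 2
      * Real.exp (inner ℝ h (p.1 : ℍ[ℝ]) + inner ℝ h (p.2 : ℍ[ℝ])) := by
    have c1 : Continuous fun p : S3 × S3 => inner ℝ δ ((p.1 : ℍ[ℝ]) - (p.2 : ℍ[ℝ])) :=
      continuous_const.inner ((continuous_subtype_val.comp continuous_fst).sub
        (continuous_subtype_val.comp continuous_snd))
    exact (c1.pow 2).mul (Real.continuous_exp.comp (((cont_inner h).comp continuous_fst).add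
      ((cont_inner h).comp continuous_snd)))
  rw [cv μ (BM.of_cont cW), ← integral_const_mul]
  refine integral_congr_ae (Filter.Eventually.of_forall fun σ => ?_)
  simp only
  have h1 := Qg μ eqv_rt (inner ℝ h (σ : ℍ[ℝ])) (γ := (star (σ : ℍ[ℝ]) * δ).im)
    (Quaternion.re_im _)
  have h2 : ‖(star (σ : ℍ[ℝ]) * δ).im‖ ^ 2 * J μ rt (inner ℝ h (σ : ℍ[ℝ]))
      = 3 * (‖(star (σ : ℍ[ℝ]) * δ).im‖ ^ 2 * (J μ rt (inner ℝ h (σ : ℍ[ℝ])) / 3)) := by ring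
  rw [h2, ← h1, ← integral_const_mul, ← integral_const_mul]
  refine integral_congr_ae (Filter.Eventually.of_forall fun g => ?_)
  simp only
  rw [diff_inner, expo, sub_self, mul_zero]
  have h3 : inner ℝ (0 : ℍ[ℝ]).im ((rt g : S3) : ℍ[ℝ]) = 0 := by
    rw [Quaternion.im_zero, inner_zero_left]
  have h4 : (inner ℝ h (σ : ℍ[ℝ]) + inner ℝ h (σ : ℍ[ℝ])) / 2 = inner ℝ h (σ : ℍ[ℝ]) := by ring
  rw [h3, sub_zero, h4]
  ring

end Pool.Agent.H556R4.SU2
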