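import Pool.Agent.H556R4.SU2c

/-!
# The variance bound and the two-point estimate
-/

namespace Pool.Agent.H556R4.SU2

open MeasureTheory Quaternion Dob

set_option linter.unusedSectionVars false

variable [MeasurableSpace S3] [BorelSpace S3] (μ : Measure S3) [IsProbabilityMeasure μ]
  [μ.IsMulLeftInvariant] [μ.IsMulRightInvariant] [μ.IsInvInvariant]

lemma BM.int {F : S3 × S3 → ℝ} (hF : BM F) : BM fun g => ∫ σ, F (g, σ) ∂μ := by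
  refine ⟨hF.meas.stronglyMeasurable.integral_prod_right'.measurable, ?_⟩
  obtain ⟨c, hc⟩ := hF.bdd
  refine ⟨c, fun g => ?_⟩
  have := norm_integral_le_of_norm_le (f := fun σ => F (g, σ)) (μ := μ) (integrable_const c)
    (Filter.Eventually.of_forall fun σ => hc (g, σ))
  simpa using this

lemma inner_real (a : ℝ) (x : ℍ[ℝ]) : inner ℝ (a : ℍ[ℝ]) x = a * x.re := by
  simp [inner_def]

lemma im_star_norm (σ : S3) : ‖(star (σ : ℍ[ℝ]) * 1).im‖ ^ 2 = 1 - (σ : ℍ[ℝ]).re ^ 2 := by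
  have h1 := normSq_coe σ
  rw [normSq_def'] at h1
  rw [mul_one, sq, ← normSq_eq_norm_mul_self, normSq_def']
  simp only [Quaternion.re_im, Quaternion.imI_im, Quaternion.imJ_im, Quaternion.imK_im,
    Quaternion.imI_star, Quaternion.imJ_star, Quaternion.imK_star]
  linear_combination h1

/-- the longitudinal variance -/
lemma varRe (a : ℝ) : ∫ p : S3 × S3, (inner ℝ (1 : ℍ[ℝ]) ((p.1 : ℍ[ℝ]) - (p.2 : ℍ[ℝ]))) ^ 2
      * Real.exp (inner ℝ (a : ℍ[ℝ]) (p.1 : ℍ[ℝ]) + inner ℝ (a : ℍ[ℝ]) (p.2 : ℍ[ℝ])) ∂(μ.prod μ)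
    ≤ 1 / 2 * (Zs μ (a : ℍ[ℝ])) ^ 2 := by
  have h1 := A2 μ (a : ℍ[ℝ]) 1
  have mrt : Measurable fun p : S3 × S3 => (p.1, rt p.2) :=
    measurable_fst.prodMk (measurable_rt.comp measurable_snd)
  have mrt' : Measurable fun p : S3 × S3 => (p.2, rt p.1) :=
    measurable_snd.prodMk (measurable_rt.comp measurable_fst)
  have c1 : Continuous fun p : S3 × S3 => (1 - (p.1 : ℍ[ℝ]).re ^ 2)
      * ((1 - (p.2 : ℍ[ℝ]).re ^ 2) * Real.exp (2 * (a * (p.1 : ℍ[ℝ]).re) * (p.2 : ℍ[ℝ]).re)) := by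
    have d1 : Continuous fun p : S3 × S3 => (p.1 : ℍ[ℝ]).re := cont_re.comp continuous_fst
    have d2 : Continuous fun p : S3 × S3 => (p.2 : ℍ[ℝ]).re := cont_re.comp continuous_snd
    fun_prop
  have c2 : Continuous fun p : S3 × S3 =>
      Real.exp (2 * (a * (p.1 : ℍ[ℝ]).re) * (p.2 : ℍ[ℝ]).re) := by
    have d1 : Continuous fun p : S3 × S3 => (p.1 : ℍ[ℝ]).re := cont_re.comp continuous_fst
    have d2 : Continuous fun p : S3 × S3 => (p.2 : ℍ[ℝ]).re := cont_re.comp continuous_snd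
    fun_prop
  have b1 : BM fun p : S3 × S3 => (1 - (p.1 : ℍ[ℝ]).re ^ 2)
      * ((1 - ((rt p.2 : S3) : ℍ[ℝ]).re ^ 2)
        * Real.exp (2 * (a * (p.1 : ℍ[ℝ]).re) * ((rt p.2 : S3) : ℍ[ℝ]).re)) :=
    (BM.of_cont c1).comp mrt
  have b2 : BM fun p : S3 × S3 =>
      Real.exp (2 * (a * (p.2 : ℍ[ℝ]).re) * ((rt p.1 : S3) : ℍ[ℝ]).re) :=
    (BM.of_cont c2).comp mrt'
  have bG : BM fun g : S3 => ∫ σ : S3, Real.exp (2 * (a * (σ : ℍ[ℝ]).re)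
      * ((rt g : S3) : ℍ[ℝ]).re) ∂μ := BM.int μ b2
  have bf : BM fun g : S3 => 1 - ((rt g : S3) : ℍ[ℝ]).re ^ 2 :=
    bm_rt (continuous_const.sub (cont_re.pow 2))
  -- rewrite the left side
  have h2 : ∫ σ : S3, ‖(star (σ : ℍ[ℝ]) * 1).im‖ ^ 2 * J μ rt (inner ℝ (a : ℍ[ℝ]) (σ : ℍ[ℝ])) ∂μ
      = ∫ g : S3, (1 - ((rt g : S3) : ℍ[ℝ]).re ^ 2) * ∫ σ : S3, (1 - (σ : ℍ[ℝ]).re ^ 2)
          * Real.exp (2 * a * ((rt g : S3) : ℍ[ℝ]).re * (σ : ℍ[ℝ]).re) ∂μ ∂μ := by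
    calc _ = ∫ σ : S3, ∫ g : S3, (1 - (σ : ℍ[ℝ]).re ^ 2)
          * ((1 - ((rt g : S3) : ℍ[ℝ]).re ^ 2)
            * Real.exp (2 * (a * (σ : ℍ[ℝ]).re) * ((rt g : S3) : ℍ[ℝ]).re)) ∂μ ∂μ := by
          refine integral_congr_ae (Filter.Eventually.of_forall fun σ => ?_)
          simp only
          rw [im_star_norm, integral_const_mul, inner_real]
          rfl
      _ = ∫ g : S3, ∫ σ : S3, (1 - (σ : ℍ[ℝ]).re ^ 2)
          * ((1 - ((rt g : S3) : ℍ[ℝ]).re ^ 2)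
            * Real.exp (2 * (a * (σ : ℍ[ℝ]).re) * ((rt g : S3) : ℍ[ℝ]).re)) ∂μ ∂μ :=
          integral_integral_swap (f := fun (σ g : S3) => (1 - (σ : ℍ[ℝ]).re ^ 2)
          * ((1 - ((rt g : S3) : ℍ[ℝ]).re ^ 2)
            * Real.exp (2 * (a * (σ : ℍ[ℝ]).re) * ((rt g : S3) : ℍ[ℝ]).re))) (b1.integrable _)
      _ = _ := by
          refine integral_congr_ae (Filter.Eventually.of_forall fun g => ?_)
          simp only
          rw [← integral_const_mul]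
          refine integral_congr_ae (Filter.Eventually.of_forall fun σ => ?_)
          simp only
          ring_nf
  have h3 : ∫ g : S3, (1 - ((rt g : S3) : ℍ[ℝ]).re ^ 2) * ∫ σ : S3, (1 - (σ : ℍ[ℝ]).re ^ 2)
          * Real.exp (2 * a * ((rt g : S3) : ℍ[ℝ]).re * (σ : ℍ[ℝ]).re) ∂μ ∂μ
      ≤ ∫ g : S3, 3 / 4 * ((1 - ((rt g : S3) : ℍ[ℝ]).re ^ 2)
          * ∫ σ : S3, Real.exp (2 * (a * (σ : ℍ[ℝ]).re) * ((rt g : S3) : ℍ[ℝ]).re) ∂μ) ∂μ := by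
    have b3 : BM fun p : S3 × S3 => (1 - (p.2 : ℍ[ℝ]).re ^ 2)
        * Real.exp (2 * a * ((rt p.1 : S3) : ℍ[ℝ]).re * (p.2 : ℍ[ℝ]).re) := by
      have c3 : Continuous fun p : S3 × S3 => (1 - (p.1 : ℍ[ℝ]).re ^ 2)
          * Real.exp (2 * a * (p.2 : ℍ[ℝ]).re * (p.1 : ℍ[ℝ]).re) := by
        have d1 : Continuous fun p : S3 × S3 => (p.1 : ℍ[ℝ]).re := cont_re.comp continuous_fst
        have d2 : Continuous fun p : S3 × S3 => (p.2 : ℍ[ℝ]).re := cont_re.comp continuous_snd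
        fun_prop
      exact (BM.of_cont c3).comp mrt'
    refine integral_mono ((bf.mul (BM.int μ b3)).integrable μ)
      (((bf.mul bG).integrable μ).const_mul _) fun g => ?_
    simp only
    have h4 := tilt_re μ (2 * a * ((rt g : S3) : ℍ[ℝ]).re)
    have h5 : 0 ≤ 1 - ((rt g : S3) : ℍ[ℝ]).re ^ 2 := by linarith [re_sq_le (rt g)]
    have h6 : ∫ s : S3, Real.exp (2 * a * ((rt g : S3) : ℍ[ℝ]).re * (s : ℍ[ℝ]).re) ∂μ
        = ∫ σ : S3, Real.exp (2 * (a * (σ : ℍ[ℝ]).re) * ((rt g : S3) : ℍ[ℝ]).re) ∂μ := by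
      refine integral_congr_ae (Filter.Eventually.of_forall fun σ => ?_)
      simp only
      ring_nf
    rw [h6] at h4
    calc _ ≤ (1 - ((rt g : S3) : ℍ[ℝ]).re ^ 2) * (3 / 4
          * ∫ σ : S3, Real.exp (2 * (a * (σ : ℍ[ℝ]).re) * ((rt g : S3) : ℍ[ℝ]).re) ∂μ) :=
          mul_le_mul_of_nonneg_left h4 h5
      _ = _ := by ring
  rw [integral_const_mul] at h3
  have h7 : ∫ g : S3, (1 - ((rt g : S3) : ℍ[ℝ]).re ^ 2)
          * ∫ σ : S3, Real.exp (2 * (a * (σ : ℍ[ℝ]).re) * ((rt g : S3) : ℍ[ℝ]).re) ∂μ ∂μ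
      ≤ (∫ g : S3, (1 - ((rt g : S3) : ℍ[ℝ]).re ^ 2) ∂μ)
        * ∫ g : S3, ∫ σ : S3, Real.exp (2 * (a * (σ : ℍ[ℝ]).re) * ((rt g : S3) : ℍ[ℝ]).re) ∂μ ∂μ := by
    refine cheb_anti μ bf bG fun x y => ?_
    have hG : ∀ g : S3, ∫ σ : S3, Real.exp (2 * (a * (σ : ℍ[ℝ]).re) * ((rt g : S3) : ℍ[ℝ]).re) ∂μ
        = ∫ σ : S3, Real.cosh ((2 * a * ((rt g : S3) : ℍ[ℝ]).re) * (σ : ℍ[ℝ]).re) ∂μ := by
      intro g
      have := sym_cosh μ (2 * a * ((rt g : S3) : ℍ[ℝ]).re) (f := fun _ => 1)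
        ⟨measurable_const, 1, fun _ => by simp⟩ (fun _ => rfl)
      simp only [one_mul] at this
      rw [← this]
      refine integral_congr_ae (Filter.Eventually.of_forall fun σ => ?_)
      simp only
      ring_nf
    have hmono : ∀ u v : S3, |((rt u : S3) : ℍ[ℝ]).re| ≤ |((rt v : S3) : ℍ[ℝ]).re| →
        ∫ σ : S3, Real.exp (2 * (a * (σ : ℍ[ℝ]).re) * ((rt u : S3) : ℍ[ℝ]).re) ∂μ
          ≤ ∫ σ : S3, Real.exp (2 * (a * (σ : ℍ[ℝ]).re) * ((rt v : S3) : ℍ[ℝ]).re) ∂μ := by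
      intro u v huv
      rw [hG, hG]
      have cc : ∀ b : ℝ, Integrable (fun σ : S3 => Real.cosh (b * (σ : ℍ[ℝ]).re)) μ := fun b =>
        (BM.of_continuous (Real.continuous_cosh.comp (continuous_const.mul cont_re))).integrable μ
      refine integral_mono (cc _) (cc _) fun σ => ?_
      simp only
      rw [Real.cosh_le_cosh, abs_mul, abs_mul (2 * a * ((rt v : S3) : ℍ[ℝ]).re),
        abs_mul (2 * a), abs_mul (2 * a)]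
      refine mul_le_mul_of_nonneg_right ?_ (abs_nonneg _)
      exact mul_le_mul_of_nonneg_left huv (abs_nonneg _)
    rcases le_total |((rt x : S3) : ℍ[ℝ]).re| |((rt y : S3) : ℍ[ℝ]).re| with h | h
    · have h8 := hmono x y h
      have h9 : ((rt x : S3) : ℍ[ℝ]).re ^ 2 ≤ ((rt y : S3) : ℍ[ℝ]).re ^ 2 := sq_le_sq.2 h
      exact mul_nonpos_of_nonneg_of_nonpos (by linarith) (by linarith)
    · have h8 := hmono y x h
      have h9 : ((rt y : S3) : ℍ[ℝ]).re ^ 2 ≤ ((rt x : S3) : ℍ[ℝ]).re ^ 2 := sq_le_sq.2 h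
      exact mul_nonpos_of_nonpos_of_nonneg (by linarith) (by linarith)
  have h10 : ∫ g : S3, (1 - ((rt g : S3) : ℍ[ℝ]).re ^ 2) ∂μ ≤ 1 / 2 := by
    have := A1 μ 0
    simp only [inner_zero_left] at this
    have e1 : J μ rt 0 = ∫ g : S3, (1 - ((rt g : S3) : ℍ[ℝ]).re ^ 2) ∂μ := by
      unfold J; simp
    have e2 : Zs μ 0 = 1 := by unfold Zs; simp
    rw [integral_const, e2, e1] at this
    simpa using this
  have h11 : ∫ g : S3, ∫ σ : S3, Real.exp (2 * (a * (σ : ℍ[ℝ]).re) * ((rt g : S3) : ℍ[ℝ]).re) ∂μ ∂μ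
      = Zs μ (a : ℍ[ℝ]) ^ 2 := by
    have cW : Continuous fun p : S3 × S3 =>
        Real.exp (inner ℝ (a : ℍ[ℝ]) (p.1 : ℍ[ℝ]) + inner ℝ (a : ℍ[ℝ]) (p.2 : ℍ[ℝ])) :=
      Real.continuous_exp.comp (((cont_inner _).comp continuous_fst).add
        ((cont_inner _).comp continuous_snd))
    have e1 := cv μ (BM.of_cont cW)
    have e2 := prod_int μ (f := fun _ => 1) (g := fun _ => 1) (a : ℍ[ℝ])
    simp only [one_mul] at e2
    have e3 : Zs μ (a : ℍ[ℝ]) ^ 2 = ∫ σ : S3, ∫ g : S3,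
        Real.exp (2 * (a * (σ : ℍ[ℝ]).re) * ((rt g : S3) : ℍ[ℝ]).re) ∂μ ∂μ := by
      rw [sq]
      refine (e2.symm.trans e1).trans ?_
      refine integral_congr_ae (Filter.Eventually.of_forall fun σ => ?_)
      refine integral_congr_ae (Filter.Eventually.of_forall fun g => ?_)
      simp only
      rw [expo, sub_self, mul_zero]
      have h3 : inner ℝ (0 : ℍ[ℝ]).im ((rt g : S3) : ℍ[ℝ]) = 0 := by
        rw [Quaternion.im_zero, inner_zero_left]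
      rw [h3, sub_zero, inner_real]
      ring_nf
    rw [e3]
    exact integral_integral_swap (f := fun (g σ : S3) =>
      Real.exp (2 * (a * (σ : ℍ[ℝ]).re) * ((rt g : S3) : ℍ[ℝ]).re)) (b2.integrable _)
  have h12 : 0 ≤ Zs μ (a : ℍ[ℝ]) ^ 2 := sq_nonneg _
  rw [h11] at h7
  rw [h2] at h1
  nlinarith

/-- odd moments vanish -/
lemma odd_zero (a : ℝ) {γ : ℍ[ℝ]} (hγ : γ.re = 0) (f : ℝ → ℝ) :
    ∫ s : S3, f (s : ℍ[ℝ]).re * inner ℝ γ (s : ℍ[ℝ]) * Real.exp (inner ℝ (a : ℍ[ℝ]) (s : ℍ[ℝ])) ∂μ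
      = 0 := by
  have h : ∫ s : S3, f (s : ℍ[ℝ]).re * inner ℝ γ (s : ℍ[ℝ])
        * Real.exp (inner ℝ (a : ℍ[ℝ]) (s : ℍ[ℝ])) ∂μ
      = -∫ s : S3, f (s : ℍ[ℝ]).re * inner ℝ γ (s : ℍ[ℝ])
        * Real.exp (inner ℝ (a : ℍ[ℝ]) (s : ℍ[ℝ])) ∂μ := by
    conv_lhs => rw [← integral_inv_eq_self _ μ]
    rw [← integral_neg]
    refine integral_congr_ae (Filter.Eventually.of_forall fun s => ?_)
    simp only
    have h1 : inner ℝ γ ((s⁻¹ : S3) : ℍ[ℝ]) = -inner ℝ γ (s : ℍ[ℝ]) := by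
      rw [coe_inv, inner_def, inner_def, star_star]
      simp [hγ]
      ring
    rw [h1, inner_real, inner_real, coe_inv, Quaternion.re_star]
    ring
  linarith

/-- the variance in terms of moments -/
lemma var_moments (h δ : ℍ[ℝ]) :
    ∫ p : S3 × S3, (inner ℝ δ ((p.1 : ℍ[ℝ]) - (p.2 : ℍ[ℝ]))) ^ 2
        * Real.exp (inner ℝ h (p.1 : ℍ[ℝ]) + inner ℝ h (p.2 : ℍ[ℝ])) ∂(μ.prod μ)
      = 2 * Zs μ h * (∫ s : S3, (inner ℝ δ (s : ℍ[ℝ])) ^ 2 * Real.exp (inner ℝ h (s : ℍ[ℝ])) ∂μ)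
        - 2 * (∫ s : S3, inner ℝ δ (s : ℍ[ℝ]) * Real.exp (inner ℝ h (s : ℍ[ℝ])) ∂μ) ^ 2 := by
  have cW : Continuous fun p : S3 × S3 =>
      Real.exp (inner ℝ h (p.1 : ℍ[ℝ]) + inner ℝ h (p.2 : ℍ[ℝ])) :=
    Real.continuous_exp.comp (((cont_inner h).comp continuous_fst).add
      ((cont_inner h).comp continuous_snd))
  have I : ∀ {f g : S3 → ℝ}, Continuous f → Continuous g →
      Integrable (fun p : S3 × S3 => f p.1 * g p.2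
        * Real.exp (inner ℝ h (p.1 : ℍ[ℝ]) + inner ℝ h (p.2 : ℍ[ℝ]))) (μ.prod μ) :=
    fun hf hg => (BM.of_cont (((hf.comp continuous_fst).mul (hg.comp continuous_snd)).mul
      cW)).integrable _
  have c1 := cont_inner δ
  have c2 : Continuous fun s : S3 => (inner ℝ δ (s : ℍ[ℝ])) ^ 2 := c1.pow 2
  have j1 := I c2 (continuous_const : Continuous fun _ : S3 => (1 : ℝ))
  have j2 := I (continuous_const : Continuous fun _ : S3 => (1 : ℝ)) c2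
  have j3 := (I c1 c1).const_mul 2
  have j12 : Integrable (fun p : S3 × S3 => (inner ℝ δ (p.1 : ℍ[ℝ])) ^ 2 * (1 : ℝ)
        * Real.exp (inner ℝ h (p.1 : ℍ[ℝ]) + inner ℝ h (p.2 : ℍ[ℝ]))
      + (1 : ℝ) * (inner ℝ δ (p.2 : ℍ[ℝ])) ^ 2
        * Real.exp (inner ℝ h (p.1 : ℍ[ℝ]) + inner ℝ h (p.2 : ℍ[ℝ]))) (μ.prod μ) := j1.add j2
  have e : ∀ p : S3 × S3, (inner ℝ δ ((p.1 : ℍ[ℝ]) - (p.2 : ℍ[ℝ]))) ^ 2
        * Real.exp (inner ℝ h (p.1 : ℍ[ℝ]) + inner ℝ h (p.2 : ℍ[ℝ]))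
      = ((inner ℝ δ (p.1 : ℍ[ℝ])) ^ 2 * (1 : ℝ)
        * Real.exp (inner ℝ h (p.1 : ℍ[ℝ]) + inner ℝ h (p.2 : ℍ[ℝ]))
      + (1 : ℝ) * (inner ℝ δ (p.2 : ℍ[ℝ])) ^ 2
        * Real.exp (inner ℝ h (p.1 : ℍ[ℝ]) + inner ℝ h (p.2 : ℍ[ℝ])))
      - 2 * (inner ℝ δ (p.1 : ℍ[ℝ]) * inner ℝ δ (p.2 : ℍ[ℝ])
        * Real.exp (inner ℝ h (p.1 : ℍ[ℝ]) + inner ℝ h (p.2 : ℍ[ℝ]))) := by
    intro p
    rw [inner_sub_right]
    ring
  simp only [e]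
  rw [integral_sub j12 j3, integral_add j1 j2, integral_const_mul (2 : ℝ),
    prod_int μ (f := fun s => (inner ℝ δ (s : ℍ[ℝ])) ^ 2) (g := fun _ => 1),
    prod_int μ (f := fun _ => 1) (g := fun s => (inner ℝ δ (s : ℍ[ℝ])) ^ 2),
    prod_int μ (f := fun s => inner ℝ δ (s : ℍ[ℝ])) (g := fun s => inner ℝ δ (s : ℍ[ℝ]))]
  simp only [one_mul]
  unfold Zs
  ring

/-- variance bound for a real field -/
lemma var_real (a : ℝ) (d : ℍ[ℝ]) :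
    ∫ p : S3 × S3, (inner ℝ d ((p.1 : ℍ[ℝ]) - (p.2 : ℍ[ℝ]))) ^ 2
        * Real.exp (inner ℝ (a : ℍ[ℝ]) (p.1 : ℍ[ℝ]) + inner ℝ (a : ℍ[ℝ]) (p.2 : ℍ[ℝ])) ∂(μ.prod μ)
      ≤ 1 / 2 * ‖d‖ ^ 2 * (Zs μ (a : ℍ[ℝ])) ^ 2 := by
  have hZ := Zs_pos μ (a : ℍ[ℝ])
  have hv := varRe μ a
  rw [var_moments] at hv ⊢
  have hre : ∀ s : S3, inner ℝ (1 : ℍ[ℝ]) (s : ℍ[ℝ]) = (s : ℍ[ℝ]).re := fun s => by
    simp [inner_def]
  simp only [hre] at hv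
  have hd : ∀ s : S3, inner ℝ d (s : ℍ[ℝ]) = d.re * (s : ℍ[ℝ]).re + inner ℝ d.im (s : ℍ[ℝ]) := by
    intro s
    simp only [inner_def, Quaternion.re_mul, Quaternion.re_star, Quaternion.imI_star,
      Quaternion.imJ_star, Quaternion.imK_star, Quaternion.re_im, Quaternion.imI_im,
      Quaternion.imJ_im, Quaternion.imK_im]
    ring
  have hγ : d.im.re = 0 := Quaternion.re_im _
  have cw := cont_w (a : ℍ[ℝ])
  have ci := cont_inner d.im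
  have k1 : Integrable (fun s : S3 => d.re * ((s : ℍ[ℝ]).re
      * Real.exp (inner ℝ (a : ℍ[ℝ]) (s : ℍ[ℝ])))) μ :=
    (BM.of_continuous (continuous_const.mul (cont_re.mul cw))).integrable μ
  have k2 : Integrable (fun s : S3 => (1 : ℝ) * inner ℝ d.im (s : ℍ[ℝ])
      * Real.exp (inner ℝ (a : ℍ[ℝ]) (s : ℍ[ℝ]))) μ :=
    (BM.of_continuous ((continuous_const.mul ci).mul cw)).integrable μ
  have m1 : ∫ s : S3, inner ℝ d (s : ℍ[ℝ]) * Real.exp (inner ℝ (a : ℍ[ℝ]) (s : ℍ[ℝ])) ∂μ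
      = d.re * ∫ s : S3, (s : ℍ[ℝ]).re * Real.exp (inner ℝ (a : ℍ[ℝ]) (s : ℍ[ℝ])) ∂μ := by
    have o1 := odd_zero μ a hγ (fun _ => 1)
    have e1 : ∀ s : S3, inner ℝ d (s : ℍ[ℝ]) * Real.exp (inner ℝ (a : ℍ[ℝ]) (s : ℍ[ℝ]))
        = d.re * ((s : ℍ[ℝ]).re * Real.exp (inner ℝ (a : ℍ[ℝ]) (s : ℍ[ℝ])))
          + (1 : ℝ) * inner ℝ d.im (s : ℍ[ℝ]) * Real.exp (inner ℝ (a : ℍ[ℝ]) (s : ℍ[ℝ])) := by
      intro s; rw [hd]; ring
    simp only [e1]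
    rw [integral_add k1 k2, o1, integral_const_mul, add_zero]
  have k3 : Integrable (fun s : S3 => d.re ^ 2 * ((s : ℍ[ℝ]).re ^ 2
      * Real.exp (inner ℝ (a : ℍ[ℝ]) (s : ℍ[ℝ])))) μ :=
    (BM.of_continuous (continuous_const.mul ((cont_re.pow 2).mul cw))).integrable μ
  have k4 : Integrable (fun s : S3 => 2 * d.re * (s : ℍ[ℝ]).re * inner ℝ d.im (s : ℍ[ℝ])
      * Real.exp (inner ℝ (a : ℍ[ℝ]) (s : ℍ[ℝ]))) μ :=
    (BM.of_continuous (((continuous_const.mul cont_re).mul ci).mul cw)).integrable μ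
  have k5 : Integrable (fun s : S3 => (inner ℝ d.im (s : ℍ[ℝ])) ^ 2
      * Real.exp (inner ℝ (a : ℍ[ℝ]) (s : ℍ[ℝ]))) μ :=
    (BM.of_continuous ((ci.pow 2).mul cw)).integrable μ
  have k34 : Integrable (fun s : S3 => d.re ^ 2 * ((s : ℍ[ℝ]).re ^ 2
      * Real.exp (inner ℝ (a : ℍ[ℝ]) (s : ℍ[ℝ])))
      + 2 * d.re * (s : ℍ[ℝ]).re * inner ℝ d.im (s : ℍ[ℝ])
      * Real.exp (inner ℝ (a : ℍ[ℝ]) (s : ℍ[ℝ]))) μ := k3.add k4
  have hJ := Qg μ eqv_id (a / 2) hγ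
  simp only [id] at hJ
  have ea : 2 * (a / 2) = a := by ring
  have hJ2 : J μ id (a / 2) ≤ 3 / 4 * Zs μ (a : ℍ[ℝ]) := by
    have := tilt_re μ a
    unfold J Zs
    simp only [id, ea, inner_real]
    exact this
  have m2 : ∫ s : S3, (inner ℝ d (s : ℍ[ℝ])) ^ 2 * Real.exp (inner ℝ (a : ℍ[ℝ]) (s : ℍ[ℝ])) ∂μ
      = d.re ^ 2 * (∫ s : S3, (s : ℍ[ℝ]).re ^ 2 * Real.exp (inner ℝ (a : ℍ[ℝ]) (s : ℍ[ℝ])) ∂μ)
        + ‖d.im‖ ^ 2 * (J μ id (a / 2) / 3) := by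
    have o1 := odd_zero μ a hγ (fun x => 2 * d.re * x)
    have e1 : ∀ s : S3, (inner ℝ d (s : ℍ[ℝ])) ^ 2 * Real.exp (inner ℝ (a : ℍ[ℝ]) (s : ℍ[ℝ]))
        = (d.re ^ 2 * ((s : ℍ[ℝ]).re ^ 2 * Real.exp (inner ℝ (a : ℍ[ℝ]) (s : ℍ[ℝ])))
          + 2 * d.re * (s : ℍ[ℝ]).re * inner ℝ d.im (s : ℍ[ℝ])
            * Real.exp (inner ℝ (a : ℍ[ℝ]) (s : ℍ[ℝ])))
          + (inner ℝ d.im (s : ℍ[ℝ])) ^ 2 * Real.exp (inner ℝ (a : ℍ[ℝ]) (s : ℍ[ℝ])) := by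
      intro s; rw [hd]; ring
    simp only [e1]
    rw [integral_add k34 k5, integral_add k3 k4, o1, integral_const_mul, add_zero, ← hJ]
    simp only [ea, inner_real]
  have hn : ‖d‖ ^ 2 = d.re ^ 2 + ‖d.im‖ ^ 2 := by
    rw [sq, sq ‖d.im‖, ← normSq_eq_norm_mul_self, ← normSq_eq_norm_mul_self, normSq_def',
      normSq_def']
    simp
    ring
  rw [m1, m2, hn]
  generalize ∫ s : S3, (s : ℍ[ℝ]).re ^ 2 * Real.exp (inner ℝ (a : ℍ[ℝ]) (s : ℍ[ℝ])) ∂μ = R2 at *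
  generalize ∫ s : S3, (s : ℍ[ℝ]).re * Real.exp (inner ℝ (a : ℍ[ℝ]) (s : ℍ[ℝ])) ∂μ = R1 at *
  generalize Zs μ (a : ℍ[ℝ]) = Z at *
  generalize J μ id (a / 2) = JJ at *
  have f1 : d.re ^ 2 * (2 * Z * R2 - 2 * R1 ^ 2) ≤ d.re ^ 2 * (1 / 2 * Z ^ 2) :=
    mul_le_mul_of_nonneg_left hv (sq_nonneg _)
  have f2 : 2 * Z * (‖d.im‖ ^ 2 * (JJ / 3)) ≤ 2 * Z * (‖d.im‖ ^ 2 * (3 / 4 * Z / 3)) := by
    refine mul_le_mul_of_nonneg_left ?_ (by positivity)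
    refine mul_le_mul_of_nonneg_left ?_ (sq_nonneg _)
    linarith
  nlinarith

end Pool.Agent.H556R4.SU2
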