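import Pool.Agent.H556R4.AreaR

/-!
# Influence bounds for unit quaternions
-/

namespace Pool.Agent.H556R4.SU2

open MeasureTheory Quaternion Dob Pair Function

set_option linter.unusedSectionVars false

/-- chordal distance -/
noncomputable def chord (g g' : S3) : ℝ := ‖(g : ℍ[ℝ]) - g'‖

lemma chord_cost : Cost chord 2 where
  nonneg g g' := norm_nonneg _
  le g g' := by
    refine (norm_sub_le _ _).trans ?_
    rw [norm_coe', norm_coe']; norm_num
  self g := by simp [chord]

variable [MeasurableSpace S3] [BorelSpace S3]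

section haar

variable (μ : Measure S3) [IsProbabilityMeasure μ] [μ.IsHaarMeasure]

lemma right_inv : μ.IsMulRightInvariant := by
  refine ⟨fun g => ?_⟩
  have hp : IsProbabilityMeasure (Measure.map (· * g) μ) :=
    Measure.isProbabilityMeasure_map (measurable_mul_const g).aemeasurable
  exact Measure.isHaarMeasure_eq_of_isProbabilityMeasure _ _

lemma inv_inv' : μ.IsInvInvariant := by
  have hr := right_inv μ
  have hp : IsProbabilityMeasure μ.inv := by
    unfold Measure.inv
    exact Measure.isProbabilityMeasure_map measurable_inv.aemeasurable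
  refine ⟨?_⟩
  have h1 := Measure.isMulInvariant_eq_smul_of_compactSpace μ.inv μ
  have h2 := congrArg (fun ν : Measure S3 => ν Set.univ) h1
  simp only [Measure.smul_apply, measure_univ] at h2
  rw [ENNReal.smul_def, smul_eq_mul, mul_one] at h2
  have h3 : Measure.haarScalarFactor μ.inv μ = 1 := by exact_mod_cast h2.symm
  rw [h1, h3, one_smul]

end haar

variable (μ : Measure S3) [IsProbabilityMeasure μ] [μ.IsMulLeftInvariant] [μ.IsMulRightInvariant]
  [μ.IsInvInvariant]

/-- influence bound when the conditional density at `x` is governed by a field -/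
lemma infl_field {ι : Type} [Fintype ι] [DecidableEq ι] {H : (ι → S3) → ℝ} {x y : ι}
    {fld : (ι → S3) → ℍ[ℝ]} {c0 : (ι → S3) → ℝ} (hc0 : ∀ V, 0 < c0 V)
    (hf : ∀ V g, H (update V x g) = c0 V * Real.exp (inner ℝ (fld V) (g : ℍ[ℝ]))) {B : ℝ}
    (hB : ∀ V k, ‖fld (update V y k) - fld V‖ ≤ B * ‖(k : ℍ[ℝ]) - V y‖) :
    Infl μ chord H x y (Real.sqrt 3 / 6 * B) := by
  intro V k L φ hφ hL hosc
  have key : ∀ V : ι → S3, ∫ g, φ g * dens μ H x V g ∂μ = Eh μ φ (fld V) := by
    intro V
    rw [int_dens]
    simp only [hf]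
    have e1 : ∫ g, φ g * (c0 V * Real.exp (inner ℝ (fld V) (g : ℍ[ℝ]))) ∂μ
        = c0 V * ∫ g, φ g * Real.exp (inner ℝ (fld V) (g : ℍ[ℝ])) ∂μ := by
      rw [← integral_const_mul]
      refine integral_congr_ae (Filter.Eventually.of_forall fun g => ?_)
      simp only
      ring
    rw [e1, integral_const_mul, mul_div_mul_left _ _ (hc0 V).ne']
    rfl
  rw [key, key]
  have h1 := transport μ hφ hL hosc (fld (update V y k)) (fld V)
  refine h1.trans ?_
  have h2 := mul_le_mul_of_nonneg_left (hB V k)
    (by positivity : 0 ≤ Real.sqrt 3 / 6 * L)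
  refine h2.trans (le_of_eq ?_)
  unfold chord
  ring

variable {X E : Type} [Fintype X] [DecidableEq X] [Fintype E] {src tgt : E → X}

/-- one term of the field at `x` -/
noncomputable def fterm (src tgt : E → X) (β : E → ℝ) (A B : E → S3) (x : X) (V : X → S3) (e : E) :
    ℍ[ℝ] :=
  if src e = x then β e • ((B e : ℍ[ℝ]) * V (tgt e) * star (A e : ℍ[ℝ]))
  else if tgt e = x then β e • (star (B e : ℍ[ℝ]) * V (src e) * (A e : ℍ[ℝ])) else 0

/-- the remaining constant -/
noncomputable def cterm (src tgt : E → X) (β : E → ℝ) (A B : E → S3) (x : X) (V : X → S3) (e : E) :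
    ℝ :=
  if src e = x then 1 else if tgt e = x then 1 else
    Real.exp (β e * ((V (src e) * A e * (V (tgt e))⁻¹ * (B e)⁻¹ : S3) : ℍ[ℝ]).re)

lemma re_plaq (g A k B : S3) :
    ((g * A * k⁻¹ * B⁻¹ : S3) : ℍ[ℝ]).re = inner ℝ ((g : ℍ[ℝ]) * A) ((B : ℍ[ℝ]) * k) := by
  rw [Metric.unitSphere.coe_mul, Metric.unitSphere.coe_mul, Metric.unitSphere.coe_mul, coe_inv,
    coe_inv, inner_def, star_mul]
  simp only [mul_assoc]

lemma lay_fld (hne : ∀ e, src e ≠ tgt e) (β : E → ℝ) (A B : E → S3) (x : X) (V : X → S3) (g : S3) :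
    Area.lay src tgt (fun e (g : S3) => Real.exp (β e * (g : ℍ[ℝ]).re)) A B (update V x g)
      = (∏ e, cterm src tgt β A B x V e)
        * Real.exp (inner ℝ (∑ e, fterm src tgt β A B x V e) (g : ℍ[ℝ])) := by
  unfold Area.lay pairW
  rw [sum_inner, Real.exp_sum, ← Finset.prod_mul_distrib]
  refine Finset.prod_congr rfl fun e _ => ?_
  by_cases hs : src e = x
  · have ht : tgt e ≠ x := fun h => hne e (hs.trans h.symm)
    simp only [cterm, fterm, hs, if_true, update_self, update_of_ne ht, one_mul]
    congr 1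
    rw [re_plaq, real_inner_smul_left]
    congr 1
    rw [inner_def, inner_def]
    simp only [star_mul, mul_assoc]
    rw [← Quaternion.re_star]
    simp only [star_mul, star_star, mul_assoc]
  · by_cases ht : tgt e = x
    · have hst : src e ≠ x := hs
      simp only [cterm, fterm, hs, ht, if_true, if_false, update_self, update_of_ne hst, one_mul]
      congr 1
      rw [re_plaq, real_inner_smul_left]
      congr 1
      rw [inner_mul_left]
      simp only [mul_assoc]
    · simp only [cterm, fterm, hs, ht, if_false, update_of_ne hs, update_of_ne ht, inner_zero_left,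
        Real.exp_zero, mul_one]

lemma fterm_lip {β : E → ℝ} {b : ℝ} (hβ : ∀ e, |β e| ≤ b) (A B : E → S3) {x y : X}
    (V : X → S3) (k : S3) (e : E) :
    ‖fterm src tgt β A B x (update V y k) e - fterm src tgt β A B x V e‖
      ≤ (if Joins src tgt x y e then b else 0) * ‖(k : ℍ[ℝ]) - V y‖ := by
  have hb : 0 ≤ b := (abs_nonneg _).trans (hβ e)
  unfold fterm
  by_cases hs : src e = x
  · simp only [hs, if_true]
    by_cases ht : tgt e = y
    · have hj : Joins src tgt x y e := Or.inl ⟨hs, ht⟩
      rw [if_pos hj, ht, update_self, ← smul_sub, ← sub_mul, ← mul_sub, norm_smul, norm_mul,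
        norm_mul, Quaternion.norm_star, norm_coe', norm_coe', one_mul, mul_one]
      exact mul_le_mul_of_nonneg_right (hβ e) (norm_nonneg _)
    · rw [update_of_ne ht, sub_self, norm_zero]
      split_ifs <;> positivity
  · simp only [hs, if_false]
    by_cases hx : tgt e = x
    · simp only [hx, if_true]
      by_cases hy : src e = y
      · have hj : Joins src tgt x y e := Or.inr ⟨hy, hx⟩
        rw [if_pos hj, hy, update_self, ← smul_sub, ← sub_mul, ← mul_sub, norm_smul, norm_mul,
          norm_mul, Quaternion.norm_star, norm_coe', norm_coe', one_mul, mul_one]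
        exact mul_le_mul_of_nonneg_right (hβ e) (norm_nonneg _)
      · rw [update_of_ne hy, sub_self, norm_zero]
        split_ifs <;> positivity
    · simp only [hx, if_false, sub_self, norm_zero]
      split_ifs <;> positivity

lemma lay_infl (hne : ∀ e, src e ≠ tgt e) {β : E → ℝ} {b : ℝ} (hβ : ∀ e, |β e| ≤ b)
    (A B : E → S3) {x y : X} (hxy : y ≠ x) :
    Infl μ chord (Area.lay src tgt (fun e (g : S3) => Real.exp (β e * (g : ℍ[ℝ]).re)) A B) x y
      (nE src tgt x y * (Real.sqrt 3 / 6 * b)) := by
  have h := infl_field μ (H := Area.lay src tgt (fun e (g : S3) => Real.exp (β e * (g : ℍ[ℝ]).re)) A B)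
    (x := x) (y := y) (fld := fun V => ∑ e, fterm src tgt β A B x V e)
    (c0 := fun V => ∏ e, cterm src tgt β A B x V e) (B := nE src tgt x y * b)
    (fun V => Finset.prod_pos fun e _ => by
      unfold cterm; split_ifs <;> first | exact one_pos | exact Real.exp_pos _)
    (fun V g => lay_fld hne β A B x V g)
    (fun V k => by
      rw [← Finset.sum_sub_distrib]
      refine (norm_sum_le _ _).trans ((Finset.sum_le_sum fun e _ =>
        fterm_lip hβ A B V k e).trans (le_of_eq ?_))
      rw [← Finset.sum_mul]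
      congr 1
      unfold nE
      rw [← Finset.sum_filter, Finset.sum_const, nsmul_eq_mul])
  have e : Real.sqrt 3 / 6 * (nE src tgt x y * b) = nE src tgt x y * (Real.sqrt 3 / 6 * b) := by ring
  rwa [e] at h

end Pool.Agent.H556R4.SU2
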