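import Pool.Agent.H556R4.SU2f

/-!
# Words in link variables: staples and influences
-/

namespace Pool.Agent.H556R4.Word

open MeasureTheory Quaternion Dob SU2 Function

set_option linter.unusedSectionVars false

variable {ι : Type} [DecidableEq ι]

/-- value of a letter: a link variable or its inverse -/
noncomputable def lett (V : ι → S3) (a : ι × Bool) : S3 := if a.2 then V a.1 else (V a.1)⁻¹

/-- value of a word -/
noncomputable def word (V : ι → S3) (l : List (ι × Bool)) : S3 := (l.map (lett V)).prod

@[simp] lemma word_nil (V : ι → S3) : word V [] = 1 := rfl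

lemma word_cons (V : ι → S3) (a : ι × Bool) (l : List (ι × Bool)) :
    word V (a :: l) = lett V a * word V l := by simp [word]

/-- the staple of `x` in the word `A * l` -/
noncomputable def stap (x : ι) (V : ι → S3) : S3 → List (ι × Bool) → ℍ[ℝ]
  | _, [] => 0
  | A, a :: l => if a.1 = x then
      (if a.2 then star ((word V l * A : S3) : ℍ[ℝ]) else ((word V l * A : S3) : ℍ[ℝ]))
      else stap x V (A * lett V a) l

/-- the letters of a word -/
def supp (l : List (ι × Bool)) : List ι := l.map Prod.fst

lemma lett_update_ne {V : ι → S3} {x : ι} {g : S3} {a : ι × Bool} (h : a.1 ≠ x) :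
    lett (update V x g) a = lett V a := by
  simp [lett, update_of_ne h]

lemma word_update_ne {V : ι → S3} {x : ι} {g : S3} {l : List (ι × Bool)} (h : x ∉ supp l) :
    word (update V x g) l = word V l := by
  induction l with
  | nil => rfl
  | cons a l ih =>
    simp only [supp, List.map_cons, List.mem_cons, not_or] at h
    rw [word_cons, word_cons, lett_update_ne (Ne.symm h.1), ih h.2]

lemma stap_lin {V : ι → S3} {x : ι} (g : S3) : ∀ {l : List (ι × Bool)} (A : S3),
    (supp l).Nodup → x ∈ supp l →
    ((A * word (update V x g) l : S3) : ℍ[ℝ]).re = inner ℝ (stap x V A l) (g : ℍ[ℝ]) := by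
  intro l
  induction l with
  | nil => intro A _ h; simp [supp] at h
  | cons a l ih =>
    intro A hn hx
    simp only [supp, List.map_cons, List.nodup_cons] at hn
    by_cases ha : a.1 = x
    · have hxl : x ∉ supp l := by rw [← ha]; exact hn.1
      rw [word_cons, word_update_ne hxl]
      simp only [stap, ha, if_true]
      cases hs : a.2
      · have hl : lett (update V x g) a = g⁻¹ := by simp [lett, ha, hs]
        rw [hl]
        simp only [Bool.false_eq_true, if_false]
        rw [inner_def, Metric.unitSphere.coe_mul, Metric.unitSphere.coe_mul, coe_inv,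
          Metric.unitSphere.coe_mul, re_cyc]
        simp only [mul_assoc]
        rw [re_cyc]
        simp only [mul_assoc]
      · have hl : lett (update V x g) a = g := by simp [lett, ha, hs]
        rw [hl]
        simp only [if_true]
        rw [real_inner_comm, inner_def, star_star, Metric.unitSphere.coe_mul,
          Metric.unitSphere.coe_mul, Metric.unitSphere.coe_mul, re_cyc]
        simp only [mul_assoc]
    · have hx' : x ∈ supp l := by
        simp only [supp, List.map_cons, List.mem_cons] at hx
        rcases hx with h | h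
        · exact absurd h.symm ha
        · exact h
      rw [word_cons, lett_update_ne ha, ← mul_assoc, ih _ hn.2 hx']
      simp only [stap, ha, if_false]

lemma norm_mul_left_sub (A B C : S3) :
    ‖((A * B : S3) : ℍ[ℝ]) - ((A * C : S3) : ℍ[ℝ])‖ = ‖(B : ℍ[ℝ]) - C‖ := by
  rw [Metric.unitSphere.coe_mul, Metric.unitSphere.coe_mul, ← mul_sub, norm_mul, norm_coe', one_mul]

lemma norm_mul_right_sub (A B C : S3) :
    ‖((B * A : S3) : ℍ[ℝ]) - ((C * A : S3) : ℍ[ℝ])‖ = ‖(B : ℍ[ℝ]) - C‖ := by
  rw [Metric.unitSphere.coe_mul, Metric.unitSphere.coe_mul, ← sub_mul, norm_mul, norm_coe', mul_one]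

lemma lett_lip (V : ι → S3) (y : ι) (k : S3) (a : ι × Bool) (h : a.1 = y) :
    ‖((lett (update V y k) a : S3) : ℍ[ℝ]) - (lett V a : ℍ[ℝ])‖ = ‖(k : ℍ[ℝ]) - V y‖ := by
  subst h
  cases hs : a.2
  · simp only [lett, hs, Bool.false_eq_true, if_false, update_self]
    rw [coe_inv, coe_inv, ← star_sub, Quaternion.norm_star]
  · simp [lett, hs]

lemma word_lip (V : ι → S3) (y : ι) (k : S3) : ∀ {l : List (ι × Bool)}, (supp l).Nodup →
    ‖((word (update V y k) l : S3) : ℍ[ℝ]) - (word V l : ℍ[ℝ])‖ ≤ ‖(k : ℍ[ℝ]) - V y‖ := by
  intro l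
  induction l with
  | nil => intro _; simp
  | cons a l ih =>
    intro hn
    simp only [supp, List.map_cons, List.nodup_cons] at hn
    by_cases ha : a.1 = y
    · have hy : y ∉ supp l := by rw [← ha]; exact hn.1
      rw [word_cons, word_cons, word_update_ne hy, norm_mul_right_sub, lett_lip V y k a ha]
    · rw [word_cons, word_cons, lett_update_ne ha, norm_mul_left_sub]
      exact ih hn.2

lemma stap_lip_one (V : ι → S3) (x y : ι) (k : S3) : ∀ {l : List (ι × Bool)} (A A' : S3),
    y ∉ supp l →
    ‖stap x (update V y k) A' l - stap x V A l‖ ≤ ‖(A' : ℍ[ℝ]) - A‖ := by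
  intro l
  induction l with
  | nil => intro A A' _; simp [stap]
  | cons a l ih =>
    intro A A' hy
    simp only [supp, List.map_cons, List.mem_cons, not_or] at hy
    by_cases ha : a.1 = x
    · simp only [stap, ha, if_true]
      rw [word_update_ne hy.2]
      cases hs : a.2
      · simp only [Bool.false_eq_true, if_false]
        rw [norm_mul_left_sub]
      · simp only [if_true]
        rw [← star_sub, Quaternion.norm_star, norm_mul_left_sub]
    · simp only [stap, ha, if_false]
      rw [lett_update_ne (Ne.symm hy.1)]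
      refine (ih _ _ hy.2).trans ?_
      rw [norm_mul_right_sub]

lemma stap_lip (V : ι → S3) {x y : ι} (k : S3) : ∀ {l : List (ι × Bool)} (A : S3),
    (supp l).Nodup →
    ‖stap x (update V y k) A l - stap x V A l‖ ≤ ‖(k : ℍ[ℝ]) - V y‖ := by
  intro l
  induction l with
  | nil => intro A _; simp [stap]
  | cons a l ih =>
    intro A hn
    simp only [supp, List.map_cons, List.nodup_cons] at hn
    by_cases ha : a.1 = x
    · simp only [stap, ha, if_true]
      cases hs : a.2
      · simp only [Bool.false_eq_true, if_false]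
        rw [norm_mul_right_sub]
        exact word_lip V y k hn.2
      · simp only [if_true]
        rw [← star_sub, Quaternion.norm_star, norm_mul_right_sub]
        exact word_lip V y k hn.2
    · simp only [stap, ha, if_false]
      by_cases hy : a.1 = y
      · have hyl : y ∉ supp l := by rw [← hy]; exact hn.1
        refine (stap_lip_one V x y k _ _ hyl).trans ?_
        rw [norm_mul_left_sub, lett_lip V y k a hy]
      · rw [lett_update_ne hy]
        exact ih _ hn.2

lemma stap_same (V : ι → S3) {x y : ι} (k : S3) {l : List (ι × Bool)} (A : S3)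
    (hy : y ∉ supp l) : stap x (update V y k) A l = stap x V A l := by
  have := stap_lip_one V x y k A A hy
  rw [sub_self, norm_zero] at this
  exact sub_eq_zero.1 (norm_le_zero_iff.1 this)

variable {P : Type} [Fintype P] (L : P → List (ι × Bool)) (β : P → ℝ)

/-- Gibbs weight of a family of words -/
noncomputable def wt (V : ι → S3) : ℝ := ∏ p, Real.exp (β p * (word V (L p) : ℍ[ℝ]).re)

/-- field at the link `x` -/
noncomputable def fld (x : ι) (V : ι → S3) : ℍ[ℝ] :=
  ∑ p, if x ∈ supp (L p) then β p • stap x V 1 (L p) else 0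

/-- constant part -/
noncomputable def cst (x : ι) (V : ι → S3) : ℝ :=
  ∏ p, if x ∈ supp (L p) then 1 else Real.exp (β p * (word V (L p) : ℍ[ℝ]).re)

variable {L β}

lemma wt_update (hn : ∀ p, (supp (L p)).Nodup) (x : ι) (V : ι → S3) (g : S3) :
    wt L β (update V x g) = cst L β x V * Real.exp (inner ℝ (fld L β x V) (g : ℍ[ℝ])) := by
  unfold wt cst fld
  rw [sum_inner, Real.exp_sum, ← Finset.prod_mul_distrib]
  refine Finset.prod_congr rfl fun p _ => ?_
  by_cases hx : x ∈ supp (L p)
  · simp only [hx, if_true, one_mul]
    have := stap_lin (V := V) (x := x) g 1 (hn p) hx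
    rw [one_mul] at this
    rw [this, real_inner_smul_left]
  · simp only [hx, if_false, inner_zero_left, Real.exp_zero, mul_one]
    rw [word_update_ne hx]

/-- total coupling of the words containing both `x` and `y` -/
noncomputable def cpl (L : P → List (ι × Bool)) (β : P → ℝ) (x y : ι) : ℝ :=
  ∑ p, if x ∈ supp (L p) ∧ y ∈ supp (L p) then |β p| else 0

lemma cpl_nonneg (x y : ι) : 0 ≤ cpl L β x y :=
  Finset.sum_nonneg fun p _ => by split_ifs <;> simp

lemma fld_lip (hn : ∀ p, (supp (L p)).Nodup) (x y : ι) (V : ι → S3) (k : S3) :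
    ‖fld L β x (update V y k) - fld L β x V‖ ≤ cpl L β x y * ‖(k : ℍ[ℝ]) - V y‖ := by
  unfold fld cpl
  rw [← Finset.sum_sub_distrib, Finset.sum_mul]
  refine (norm_sum_le _ _).trans (Finset.sum_le_sum fun p _ => ?_)
  by_cases hx : x ∈ supp (L p)
  · simp only [hx, if_true, true_and]
    by_cases hy : y ∈ supp (L p)
    · simp only [hy, if_true]
      rw [← smul_sub, norm_smul, Real.norm_eq_abs]
      exact mul_le_mul_of_nonneg_left (stap_lip V k 1 (hn p)) (abs_nonneg _)
    · simp only [hy, if_false]
      rw [stap_same V k 1 hy, sub_self, norm_zero, zero_mul]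
  · simp [hx]

variable [Fintype ι] [MeasurableSpace S3] [BorelSpace S3]

lemma measurable_word (l : List (ι × Bool)) : Measurable fun V : ι → S3 => word V l := by
  induction l with
  | nil => exact measurable_const
  | cons a l ih =>
    have h1 : Measurable fun V : ι → S3 => lett V a := by
      unfold lett
      by_cases hs : a.2 = true
      · simp only [hs, if_true]
        exact measurable_pi_apply _
      · simp only [hs, if_false]
        exact (measurable_pi_apply _).inv
    simp only [word_cons]
    exact h1.mul ih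

lemma wt_dens (L : P → List (ι × Bool)) (β : P → ℝ) : Dens (wt L β) where
  meas := by
    refine Finset.measurable_prod _ fun p _ => ?_
    exact Real.measurable_exp.comp ((cont_re.measurable.comp (measurable_word _)).const_mul _)
  lb := ⟨∏ p, Real.exp (-|β p|), Finset.prod_pos fun p _ => Real.exp_pos _, fun V =>
    Finset.prod_le_prod (fun p _ => (Real.exp_pos _).le) fun p _ => Real.exp_le_exp.2 (by
      have h1 : |(word V (L p) : ℍ[ℝ]).re| ≤ 1 :=
        abs_le_one_iff_mul_self_le_one.2 (by have := re_sq_le (word V (L p)); rwa [sq] at this)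
      have h2 : |β p * (word V (L p) : ℍ[ℝ]).re| ≤ |β p| := by
        rw [abs_mul]; exact mul_le_of_le_one_right (abs_nonneg _) h1
      exact (abs_le.1 h2).1)⟩
  ub := ⟨∏ p, Real.exp |β p|, fun V =>
    Finset.prod_le_prod (fun p _ => (Real.exp_pos _).le) fun p _ => Real.exp_le_exp.2 (by
      have h1 : |(word V (L p) : ℍ[ℝ]).re| ≤ 1 :=
        abs_le_one_iff_mul_self_le_one.2 (by have := re_sq_le (word V (L p)); rwa [sq] at this)
      have h2 : |β p * (word V (L p) : ℍ[ℝ]).re| ≤ |β p| := by
        rw [abs_mul]; exact mul_le_of_le_one_right (abs_nonneg _) h1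
      exact (abs_le.1 h2).2)⟩

variable (μ : Measure S3) [IsProbabilityMeasure μ] [μ.IsMulLeftInvariant] [μ.IsMulRightInvariant]
  [μ.IsInvInvariant]

lemma wt_infl (hn : ∀ p, (supp (L p)).Nodup) (x y : ι) :
    Infl μ chord (wt L β) x y (Real.sqrt 3 / 6 * cpl L β x y) :=
  infl_field μ (fld := fld L β x) (c0 := cst L β x)
    (fun V => Finset.prod_pos fun p _ => by split_ifs <;> first | exact one_pos | exact Real.exp_pos _)
    (fun V g => wt_update hn x V g) (fun V k => fld_lip hn x y V k)

end Pool.Agent.H556R4.Word
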